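import Mathlib

set_option autoImplicit false

/-! Trilinear sums over the integers. -/

namespace Pool.Agent.K4H46.MO

open Set
open scoped ENNReal NNReal

/-- the kernel -/
noncomputable def yk (β : ℝ) (j : ℤ) : ℝ≥0∞ := ENNReal.ofReal (((1 + |(j : ℝ)|)⁻¹) ^ β)

theorem yk_neg (β : ℝ) (j : ℤ) : yk β (-j) = yk β j := by
  unfold yk
  push_cast
  rw [abs_neg]

theorem yk_sum {β : ℝ} (hβ : 1 < β) : ∑' j : ℤ, yk β j ≠ ∞ := by
  have h1 : Summable fun n : ℤ => 1 / |(n : ℝ) + 1 / 2| ^ β :=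
    (Real.summable_one_div_int_add_rpow (1 / 2) β).2 hβ
  have h2 : ∀ j : ℤ, ((1 + |(j : ℝ)|)⁻¹) ^ β ≤ 1 / |(j : ℝ) + 1 / 2| ^ β := by
    intro j
    have k1 : 0 < |(j : ℝ) + 1 / 2| := by
      rw [abs_pos]
      intro h
      have h3 : (2 * (j : ℝ) + 1) = 0 := by linarith
      have h4 : (2 * j + 1 : ℤ) = 0 := by exact_mod_cast h3
      omega
    have k2 : |(j : ℝ) + 1 / 2| ≤ 1 + |(j : ℝ)| := by
      refine (abs_add_le _ _).trans ?_
      rw [abs_of_pos (by norm_num : (0 : ℝ) < 1 / 2)]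
      linarith
    rw [Real.inv_rpow (by positivity), ← one_div]
    exact div_le_div_of_nonneg_left zero_le_one (by positivity)
      (Real.rpow_le_rpow k1.le k2 (by linarith))
  have h3 : Summable fun j : ℤ => ((1 + |(j : ℝ)|)⁻¹) ^ β :=
    Summable.of_nonneg_of_le (fun j => by positivity) h2 h1
  exact h3.tsum_ofReal_ne_top

theorem shiftR (y : ℤ → ℝ≥0∞) (k : ℤ) : ∑' l : ℤ, y (l - k) = ∑' j : ℤ, y j :=
  (Equiv.subRight k).tsum_eq y

theorem shiftL (y : ℤ → ℝ≥0∞) (k : ℤ) : ∑' l : ℤ, y (k - l) = ∑' j : ℤ, y j :=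
  (Equiv.subLeft k).tsum_eq y

theorem cube (a b c : ℝ≥0∞) : a * b * c ≤ a ^ 3 + b ^ 3 + c ^ 3 := by
  have key : ∀ x y z : ℝ≥0∞, y ≤ x → z ≤ x → x * y * z ≤ x ^ 3 := by
    intro x y z h1 h2
    calc x * y * z ≤ x * x * x := by gcongr
      _ = x ^ 3 := by ring
  rcases le_total b a with h1 | h1
  · rcases le_total c a with h2 | h2
    · exact (key a b c h1 h2).trans (le_trans le_self_add le_self_add)
    · have := key c a b h2 (h1.trans h2)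
      calc a * b * c = c * a * b := by ring
        _ ≤ c ^ 3 := this
        _ ≤ _ := le_add_self
  · rcases le_total c b with h2 | h2
    · have := key b a c h1 h2
      calc a * b * c = b * a * c := by ring
        _ ≤ b ^ 3 := this
        _ ≤ a ^ 3 + b ^ 3 := le_add_self
        _ ≤ _ := le_self_add
    · have := key c a b (h1.trans h2) h2
      calc a * b * c = c * a * b := by ring
        _ ≤ c ^ 3 := this
        _ ≤ _ := le_add_self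

theorem youngA (g y : ℤ → ℝ≥0∞) :
    ∑' n : ℤ, ∑' k : ℤ, ∑' l : ℤ, g n * g k * g l * (y (k - n) * y (l - k)) ≤
      3 * (∑' j, y j) ^ 2 * ∑' n, g n ^ 3 := by
  set Y := ∑' j, y j with hY
  have s1 : ∑' n : ℤ, ∑' k : ℤ, ∑' l : ℤ, g n ^ 3 * (y (k - n) * y (l - k)) =
      Y ^ 2 * ∑' n, g n ^ 3 := by
    simp_rw [ENNReal.tsum_mul_left, shiftR y, ENNReal.tsum_mul_right, shiftR y]
    rw [← hY, pow_two, mul_comm (Y * Y), ENNReal.tsum_mul_right]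
  have s2 : ∑' n : ℤ, ∑' k : ℤ, ∑' l : ℤ, g k ^ 3 * (y (k - n) * y (l - k)) =
      Y ^ 2 * ∑' n, g n ^ 3 := by
    simp_rw [ENNReal.tsum_mul_left, shiftR y]
    rw [ENNReal.tsum_comm]
    simp_rw [ENNReal.tsum_mul_left, ENNReal.tsum_mul_right, shiftL y]
    rw [ENNReal.tsum_mul_right, ← hY, pow_two, mul_comm (Y * Y)]
  have s3 : ∑' n : ℤ, ∑' k : ℤ, ∑' l : ℤ, g l ^ 3 * (y (k - n) * y (l - k)) =
      Y ^ 2 * ∑' n, g n ^ 3 := by
    have e1 : ∀ n : ℤ, ∑' k : ℤ, ∑' l : ℤ, g l ^ 3 * (y (k - n) * y (l - k)) =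
        ∑' l : ℤ, ∑' k : ℤ, g l ^ 3 * (y (k - n) * y (l - k)) := fun n => ENNReal.tsum_comm
    simp_rw [e1]
    rw [ENNReal.tsum_comm]
    have e2 : ∀ l : ℤ, ∑' n : ℤ, ∑' k : ℤ, g l ^ 3 * (y (k - n) * y (l - k)) =
        g l ^ 3 * (Y * Y) := by
      intro l
      rw [ENNReal.tsum_comm]
      simp_rw [ENNReal.tsum_mul_left, ENNReal.tsum_mul_right, shiftL y]
      rw [ENNReal.tsum_mul_left, shiftL y]
    simp_rw [e2]
    rw [ENNReal.tsum_mul_right, pow_two, mul_comm (Y * Y)]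
  calc ∑' n : ℤ, ∑' k : ℤ, ∑' l : ℤ, g n * g k * g l * (y (k - n) * y (l - k))
      ≤ ∑' n : ℤ, ∑' k : ℤ, ∑' l : ℤ, (g n ^ 3 * (y (k - n) * y (l - k)) +
          g k ^ 3 * (y (k - n) * y (l - k)) + g l ^ 3 * (y (k - n) * y (l - k))) := by
        refine ENNReal.tsum_le_tsum fun n => ENNReal.tsum_le_tsum fun k =>
          ENNReal.tsum_le_tsum fun l => ?_
        rw [← add_mul, ← add_mul]
        exact mul_le_mul_left (cube _ _ _) _
    _ = Y ^ 2 * ∑' n, g n ^ 3 + Y ^ 2 * ∑' n, g n ^ 3 + Y ^ 2 * ∑' n, g n ^ 3 := by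
        simp_rw [ENNReal.tsum_add]
        rw [s1, s2, s3]
    _ = _ := by ring

/-- the three patterns together -/
theorem young3 (g y : ℤ → ℝ≥0∞) :
    ∑' n : ℤ, ∑' k : ℤ, ∑' l : ℤ, g n * g k * g l * (y (k - n) * y (l - k) +
      y (l - k) * y (n - l) + y (n - l) * y (k - n)) ≤
      9 * (∑' j, y j) ^ 2 * ∑' n, g n ^ 3 := by
  have hA := youngA g y
  set Φ : ℤ → ℤ → ℤ → ℝ≥0∞ := fun n k l => g n * g k * g l * (y (k - n) * y (l - k)) with hΦ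
  have hB : ∑' n : ℤ, ∑' k : ℤ, ∑' l : ℤ, Φ k l n = ∑' n : ℤ, ∑' k : ℤ, ∑' l : ℤ, Φ n k l := by
    rw [ENNReal.tsum_comm]
    refine tsum_congr fun k => ?_
    rw [ENNReal.tsum_comm]
  have hC : ∑' n : ℤ, ∑' k : ℤ, ∑' l : ℤ, Φ l n k = ∑' n : ℤ, ∑' k : ℤ, ∑' l : ℤ, Φ n k l := by
    have e1 : ∀ n : ℤ, ∑' k : ℤ, ∑' l : ℤ, Φ l n k = ∑' l : ℤ, ∑' k : ℤ, Φ l n k :=
      fun n => ENNReal.tsum_comm
    simp_rw [e1]
    rw [ENNReal.tsum_comm]
  have e : ∀ n k l, g n * g k * g l * (y (k - n) * y (l - k) +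
      y (l - k) * y (n - l) + y (n - l) * y (k - n)) = Φ n k l + Φ k l n + Φ l n k := by
    intro n k l
    simp only [hΦ]
    ring
  simp_rw [e, ENNReal.tsum_add]
  rw [hB, hC]
  have hA' : ∑' n : ℤ, ∑' k : ℤ, ∑' l : ℤ, Φ n k l ≤ 3 * (∑' j, y j) ^ 2 * ∑' n, g n ^ 3 := hA
  calc _ ≤ 3 * (∑' j, y j) ^ 2 * ∑' n, g n ^ 3 + 3 * (∑' j, y j) ^ 2 * ∑' n, g n ^ 3 +
        3 * (∑' j, y j) ^ 2 * ∑' n, g n ^ 3 := add_le_add (add_le_add hA' hA') hA'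
    _ = _ := by ring

end Pool.Agent.K4H46.MO
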