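import Mathlib

set_option autoImplicit false

/-! The square of an integral operator. -/

namespace Pool.Agent.K4H46.MO

open MeasureTheory Set Complex
open scoped ENNReal NNReal ComplexConjugate

theorem ttstar {X Y : Type*} [MeasurableSpace X] [MeasurableSpace Y] (μ : Measure X) [SFinite μ]
    (ν : Measure Y) [SFinite ν] (k : X → Y → ℂ) (hk : Measurable (Function.uncurry k))
    (hk1 : ∀ x y, ‖k x y‖ₑ ≤ 1) {M : ℝ≥0∞} (hM : M ≠ ∞) (hkM : ∀ y, ∫⁻ x, ‖k x y‖ₑ ∂μ ≤ M)
    (g : Y → ℂ) (hgm : Measurable g) (hg : Integrable g ν) :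
    ∫⁻ x, ‖∫ y, k x y * g y ∂ν‖ₑ ^ 2 ∂μ =
      ENNReal.ofReal (∫ z : Y × Y, g z.1 * conj (g z.2) *
        ∫ x, k x z.1 * conj (k x z.2) ∂μ ∂(ν.prod ν)).re := by
  have hconj : Measurable (conj : ℂ → ℂ) := Complex.continuous_conj.measurable
  set F : X → ℂ := fun x => ∫ y, k x y * g y ∂ν with hF
  set h : X → (Y × Y) → ℂ := fun x z => k x z.1 * conj (k x z.2) * (g z.1 * conj (g z.2)) with hh
  have hm : Measurable (Function.uncurry h) := by
    have h1 : Measurable fun p : X × (Y × Y) => k p.1 p.2.1 :=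
      hk.comp (measurable_fst.prodMk (measurable_fst.comp measurable_snd))
    have h2 : Measurable fun p : X × (Y × Y) => k p.1 p.2.2 :=
      hk.comp (measurable_fst.prodMk (measurable_snd.comp measurable_snd))
    have h3 : Measurable fun p : X × (Y × Y) => g p.2.1 :=
      hgm.comp (measurable_fst.comp measurable_snd)
    have h4 : Measurable fun p : X × (Y × Y) => g p.2.2 :=
      hgm.comp (measurable_snd.comp measurable_snd)
    exact (h1.mul (hconj.comp h2)).mul (h3.mul (hconj.comp h4))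
  have hgfin : ∫⁻ y, ‖g y‖ₑ ∂ν < ∞ := hg.2
  have hint : Integrable (Function.uncurry h) (μ.prod (ν.prod ν)) := by
    refine ⟨hm.aestronglyMeasurable, ?_⟩
    show ∫⁻ p, ‖Function.uncurry h p‖ₑ ∂(μ.prod (ν.prod ν)) < ∞
    rw [lintegral_prod_symm _ hm.enorm.aemeasurable]
    have h1 : ∀ z : Y × Y, ∫⁻ x, ‖Function.uncurry h (x, z)‖ₑ ∂μ ≤ (‖g z.1‖ₑ * ‖g z.2‖ₑ) * M := by
      intro z
      calc ∫⁻ x, ‖Function.uncurry h (x, z)‖ₑ ∂μ
          ≤ ∫⁻ x, (‖g z.1‖ₑ * ‖g z.2‖ₑ) * ‖k x z.1‖ₑ ∂μ := by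
            refine lintegral_mono fun x => ?_
            simp only [Function.uncurry, hh]
            rw [enorm_mul, enorm_mul, enorm_mul, RCLike.enorm_conj, RCLike.enorm_conj, mul_comm]
            refine mul_le_mul_right ?_ _
            calc ‖k x z.1‖ₑ * ‖k x z.2‖ₑ ≤ ‖k x z.1‖ₑ * 1 := mul_le_mul_right (hk1 x z.2) _
              _ = _ := mul_one _
        _ ≤ _ := by
            have hmx : Measurable fun x => ‖k x z.1‖ₑ :=
              (hk.comp (measurable_id.prodMk measurable_const)).enorm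
            rw [lintegral_const_mul _ hmx]
            exact mul_le_mul_right (hkM z.1) _
    calc ∫⁻ z, ∫⁻ x, ‖Function.uncurry h (x, z)‖ₑ ∂μ ∂(ν.prod ν)
        ≤ ∫⁻ z, (‖g z.1‖ₑ * ‖g z.2‖ₑ) * M ∂(ν.prod ν) := lintegral_mono h1
      _ = (∫⁻ y, ‖g y‖ₑ ∂ν) * (∫⁻ y, ‖g y‖ₑ ∂ν) * M := by
          have hmz : Measurable fun z : Y × Y => ‖g z.1‖ₑ * ‖g z.2‖ₑ :=
            (hgm.comp measurable_fst).enorm.mul (hgm.comp measurable_snd).enorm
          rw [lintegral_mul_const _ hmz, lintegral_prod_mul (f := fun y => ‖g y‖ₑ)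
            (g := fun y => ‖g y‖ₑ) hgm.enorm.aemeasurable hgm.enorm.aemeasurable]
      _ < ∞ := ENNReal.mul_lt_top (ENNReal.mul_lt_top hgfin hgfin) hM.lt_top
  have hsq : ∀ x, F x * conj (F x) = ∫ z : Y × Y, h x z ∂(ν.prod ν) := by
    intro x
    have e1 : conj (F x) = ∫ y, conj (k x y * g y) ∂ν := by
      simp only [hF]
      rw [← integral_conj]
    rw [e1]
    simp only [hF]
    rw [← integral_prod_mul]
    refine integral_congr_ae (Filter.Eventually.of_forall fun z => ?_)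
    simp only [hh, map_mul]
    ring
  have hkey : ∫ x, F x * conj (F x) ∂μ = ∫ z : Y × Y, g z.1 * conj (g z.2) *
        ∫ x, k x z.1 * conj (k x z.2) ∂μ ∂(ν.prod ν) := by
    simp_rw [hsq]
    rw [integral_integral_swap hint]
    refine integral_congr_ae (Filter.Eventually.of_forall fun z => ?_)
    simp only [hh]
    rw [integral_mul_const, mul_comm]
  have hnorm : ∀ x, F x * conj (F x) = ((‖F x‖ ^ 2 : ℝ) : ℂ) := by
    intro x
    rw [Complex.mul_conj, Complex.normSq_eq_norm_sq]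
  have hFi : Integrable (fun x => ‖F x‖ ^ 2) μ := by
    have h1 : Integrable (fun x => F x * conj (F x)) μ := by
      refine (hint.integral_prod_left).congr (Filter.Eventually.of_forall fun x => ?_)
      simp only [Function.uncurry]
      rw [hsq]
    simp_rw [hnorm] at h1
    exact h1.re
  have hre : ∫ x, F x * conj (F x) ∂μ = ((∫ x, ‖F x‖ ^ 2 ∂μ : ℝ) : ℂ) := by
    simp_rw [hnorm]
    exact integral_complex_ofReal
  rw [← hkey, hre, Complex.ofReal_re, ofReal_integral_eq_lintegral_ofReal hFi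
    (Filter.Eventually.of_forall fun t => by positivity)]
  refine lintegral_congr fun t => ?_
  rw [ENNReal.ofReal_pow (norm_nonneg _), ofReal_norm]

end Pool.Agent.K4H46.MO
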