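import Mathlib

set_option autoImplicit false

/-! Gaussian integrals in one variable. -/

namespace Pool.Agent.K4H46.MO

open MeasureTheory Set Complex
open scoped ENNReal NNReal

/-- the modulus of the Gram entry in one variable -/
noncomputable def g1 (α T c m : ℝ) : ℝ :=
  Real.sqrt (Real.pi / Real.sqrt (α ^ 2 + T ^ 2)) *
    Real.exp (-(α * (c + 2 * m * T) ^ 2 / (4 * (α ^ 2 + T ^ 2))))

theorem g1_nonneg (α T c m : ℝ) : 0 ≤ g1 α T c m := by unfold g1; positivity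

theorem gram1 {α : ℝ} (hα : 0 < α) (T c m : ℝ) :
    ‖∫ s : ℝ, ((Real.exp (-(α * (s - m) ^ 2)) : ℝ) : ℂ) * cexp (((c * s + T * s ^ 2 : ℝ) : ℂ) * I)‖
      = g1 α T c m := by
  have hb : ((-α : ℂ) + T * I).re < 0 := by simp [hα]
  have h := integral_cexp_quadratic hb (2 * α * m + c * I) (-(α * m ^ 2))
  have e1 : ∀ s : ℝ, ((Real.exp (-(α * (s - m) ^ 2)) : ℝ) : ℂ) *
      cexp (((c * s + T * s ^ 2 : ℝ) : ℂ) * I) =
      cexp (((-α : ℂ) + T * I) * s ^ 2 + (2 * α * m + c * I) * s + (-(α * m ^ 2))) := by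
    intro s
    rw [Complex.ofReal_exp, ← Complex.exp_add]
    congr 1
    push_cast
    ring
  simp_rw [e1]
  rw [h, norm_mul, Complex.norm_exp]
  have hpos : 0 < α ^ 2 + T ^ 2 := by positivity
  unfold g1
  congr 1
  · have h12 : (1 / 2 : ℂ) = ((1 / 2 : ℝ) : ℂ) := by push_cast; rfl
    rw [h12, Complex.norm_cpow_real, Real.sqrt_eq_rpow (Real.pi / _)]
    congr 1
    rw [norm_div, Complex.norm_real, Real.norm_of_nonneg Real.pi_pos.le, norm_neg]
    congr 1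
    rw [Complex.norm_def, Complex.normSq_apply]
    congr 1
    simp
    ring
  · congr 1
    rw [Complex.sub_re, Complex.div_re, Complex.normSq_apply]
    have e2 : ((2 * (α : ℂ) * m + c * I) ^ 2).re = 4 * α ^ 2 * m ^ 2 - c ^ 2 := by
      simp [pow_two]; ring
    have e3 : ((2 * (α : ℂ) * m + c * I) ^ 2).im = 4 * α * m * c := by
      simp [pow_two]; ring
    have e4 : (4 * ((-α : ℂ) + T * I)).re = -(4 * α) := by simp
    have e5 : (4 * ((-α : ℂ) + T * I)).im = 4 * T := by simp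
    have e6 : (-((α : ℂ) * (m : ℂ) ^ 2)).re = -(α * m ^ 2) := by
      simp [pow_two]
    rw [e2, e3, e4, e5, e6]
    have h16 : (-(4 * α) * -(4 * α) + 4 * T * (4 * T)) = 16 * (α ^ 2 + T ^ 2) := by ring
    rw [h16]
    field_simp
    ring

theorem K1 {α : ℝ} (hα : 0 < α) (c δ : ℝ) :
    ∫ x : ℝ, ((Real.exp (-((x - c) ^ 2 / (2 * α))) : ℝ) : ℂ) * cexp (-((x * δ : ℝ) : ℂ) * I) =
      ((Real.sqrt (2 * Real.pi * α) * Real.exp (-(α * δ ^ 2 / 2)) : ℝ) : ℂ) *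
        cexp (-((c * δ : ℝ) : ℂ) * I) := by
  have hb : (((-(1 / (2 * α)) : ℝ) : ℂ)).re < 0 := by
    rw [Complex.ofReal_re]
    have : 0 < 1 / (2 * α) := by positivity
    linarith
  have h := integral_cexp_quadratic hb (((c / α : ℝ) : ℂ) - δ * I) (-((c ^ 2 / (2 * α) : ℝ) : ℂ))
  have hαc : (α : ℂ) ≠ 0 := by exact_mod_cast hα.ne'
  have e1 : ∀ x : ℝ, ((Real.exp (-((x - c) ^ 2 / (2 * α))) : ℝ) : ℂ) *
      cexp (-((x * δ : ℝ) : ℂ) * I) =
      cexp (((-(1 / (2 * α)) : ℝ) : ℂ) * x ^ 2 + (((c / α : ℝ) : ℂ) - δ * I) * x +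
        (-((c ^ 2 / (2 * α) : ℝ) : ℂ))) := by
    intro x
    rw [Complex.ofReal_exp, ← Complex.exp_add]
    congr 1
    push_cast
    field_simp
    ring
  simp_rw [e1]
  rw [h]
  have e2 : (Real.pi : ℂ) / -((-(1 / (2 * α)) : ℝ) : ℂ) = ((2 * Real.pi * α : ℝ) : ℂ) := by
    push_cast
    field_simp
  have h12 : (1 / 2 : ℂ) = ((1 / 2 : ℝ) : ℂ) := by push_cast; rfl
  rw [e2, h12, ← Complex.ofReal_cpow (by positivity), ← Real.sqrt_eq_rpow, Complex.ofReal_mul,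
    Complex.ofReal_exp, mul_assoc ((Real.sqrt (2 * Real.pi * α) : ℝ) : ℂ), ← Complex.exp_add]
  congr 2
  push_cast
  field_simp
  ring_nf
  rw [I_sq]
  ring

theorem K2 {α : ℝ} (hα : 0 < α) (ξ η : ℝ) :
    ∫ m : ℝ, Real.exp (-(α * (ξ - m) ^ 2)) * Real.exp (-(α * (η - m) ^ 2)) =
      Real.sqrt (Real.pi / (2 * α)) * Real.exp (-(α * (ξ - η) ^ 2 / 2)) := by
  have e1 : ∀ m : ℝ, Real.exp (-(α * (ξ - m) ^ 2)) * Real.exp (-(α * (η - m) ^ 2)) =
      Real.exp (-(α * (ξ - η) ^ 2 / 2)) * Real.exp (-(2 * α) * (m - (ξ + η) / 2) ^ 2) := by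
    intro m
    rw [← Real.exp_add, ← Real.exp_add]
    congr 1
    ring
  simp_rw [e1]
  rw [integral_const_mul, integral_sub_right_eq_self (fun m => Real.exp (-(2 * α) * m ^ 2)),
    integral_gaussian, mul_comm]

theorem gint {b : ℝ} (hb : 0 < b) (c : ℝ) :
    ∫⁻ m : ℝ, ENNReal.ofReal (Real.exp (-(b * (m - c) ^ 2))) =
      ENNReal.ofReal (Real.sqrt (Real.pi / b)) := by
  have h1 : Integrable fun m : ℝ => Real.exp (-b * m ^ 2) := integrable_exp_neg_mul_sq hb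
  have h2 : Integrable fun m : ℝ => Real.exp (-b * (m - c) ^ 2) := h1.comp_sub_right c
  have e1 : ∀ m : ℝ, Real.exp (-(b * (m - c) ^ 2)) = Real.exp (-b * (m - c) ^ 2) := by
    intro m; congr 1; ring
  simp_rw [e1]
  rw [← ofReal_integral_eq_lintegral_ofReal h2 (Filter.Eventually.of_forall fun m =>
    (Real.exp_pos _).le), integral_sub_right_eq_self (fun m => Real.exp (-b * m ^ 2)),
    integral_gaussian]

/-- the weight -/
noncomputable def w1 (m : ℝ) : ℝ := Real.exp (3 / 8) * Real.exp (-(3 / 4 * (m - 0) ^ 2))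

theorem w1_nonneg (m : ℝ) : 0 ≤ w1 m := by unfold w1; positivity

theorem w1_le (m : ℝ) : w1 m ≤ Real.exp (3 / 8) := by
  unfold w1
  have : Real.exp (-(3 / 4 * (m - 0) ^ 2)) ≤ 1 := by
    rw [Real.exp_le_one_iff]
    nlinarith [sq_nonneg (m - 0)]
  nlinarith [Real.exp_pos (3 / 8)]

theorem g1_sq {α : ℝ} (hα : 0 < α) (T c m : ℝ) : g1 α T c m ^ 2 =
    Real.pi / Real.sqrt (α ^ 2 + T ^ 2) *
      Real.exp (-(α * (c + 2 * m * T) ^ 2 / (2 * (α ^ 2 + T ^ 2)))) := by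
  unfold g1
  have hpos : 0 < α ^ 2 + T ^ 2 := by positivity
  rw [mul_pow, Real.sq_sqrt (by positivity), ← Real.exp_nat_mul]
  congr 2
  push_cast
  field_simp
  ring

theorem g1_sq_le {α : ℝ} (hα : 0 < α) (T c m : ℝ) : g1 α T c m ^ 2 ≤
    Real.pi / Real.sqrt (α ^ 2 + T ^ 2) := by
  rw [g1_sq hα]
  have hpos : 0 < α ^ 2 + T ^ 2 := by positivity
  have h1 : Real.exp (-(α * (c + 2 * m * T) ^ 2 / (2 * (α ^ 2 + T ^ 2)))) ≤ 1 := by
    rw [Real.exp_le_one_iff]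
    have : 0 ≤ α * (c + 2 * m * T) ^ 2 / (2 * (α ^ 2 + T ^ 2)) := by positivity
    linarith
  have h2 : 0 ≤ Real.pi / Real.sqrt (α ^ 2 + T ^ 2) := by positivity
  nlinarith

/-- the sup bound -/
theorem g1_sup {θ : ℝ} (h0 : 0 ≤ θ) (h1 : θ ≤ 1) {α : ℝ} (hα : 1 ≤ α) (T c m : ℝ) :
    g1 α T c m ^ 2 ≤ 2 * Real.pi * α ^ (-(1 - θ)) * (1 + |T|) ^ (-θ) := by
  refine (g1_sq_le (by linarith) T c m).trans ?_
  have hα0 : 0 < α := by linarith
  have hT : 0 < 1 + |T| := by positivity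
  have k1 : α ≤ Real.sqrt (α ^ 2 + T ^ 2) := Real.le_sqrt_of_sq_le (by nlinarith [sq_nonneg T])
  have k2 : (1 + |T|) / 2 ≤ Real.sqrt (α ^ 2 + T ^ 2) := by
    refine Real.le_sqrt_of_sq_le ?_
    have : T ^ 2 = |T| ^ 2 := (sq_abs T).symm
    rw [this]
    nlinarith [abs_nonneg T, sq_nonneg (1 - |T|)]
  have hs : 0 < Real.sqrt (α ^ 2 + T ^ 2) := lt_of_lt_of_le hα0 k1
  have k3 : α ^ (1 - θ) * ((1 + |T|) / 2) ^ θ ≤ Real.sqrt (α ^ 2 + T ^ 2) := by
    calc α ^ (1 - θ) * ((1 + |T|) / 2) ^ θ ≤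
        Real.sqrt (α ^ 2 + T ^ 2) ^ (1 - θ) * Real.sqrt (α ^ 2 + T ^ 2) ^ θ :=
          mul_le_mul (Real.rpow_le_rpow hα0.le k1 (by linarith))
            (Real.rpow_le_rpow (by positivity) k2 h0) (by positivity) (by positivity)
      _ = Real.sqrt (α ^ 2 + T ^ 2) := by
          rw [← Real.rpow_add hs]
          simp
  have k4 : ((1 + |T|) / 2) ^ θ = (1 + |T|) ^ θ * (1 / 2) ^ θ := by
    rw [div_eq_mul_one_div, Real.mul_rpow (by positivity) (by positivity)]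
  have k5 : (1 / 2 : ℝ) ≤ (1 / 2) ^ θ := by
    have := Real.rpow_le_rpow_of_exponent_ge (x := 1 / 2) (by norm_num) (by norm_num) h1
    simpa using this
  have k6 : α ^ (1 - θ) * (1 + |T|) ^ θ ≤ 2 * Real.sqrt (α ^ 2 + T ^ 2) := by
    have : 0 ≤ α ^ (1 - θ) * (1 + |T|) ^ θ := by positivity
    rw [k4] at k3
    nlinarith
  rw [Real.rpow_neg hα0.le, Real.rpow_neg hT.le, div_le_iff₀ hs]
  have k7 : 0 < α ^ (1 - θ) := by positivity
  have k8 : 0 < (1 + |T|) ^ θ := by positivity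
  have k9 : (α ^ (1 - θ))⁻¹ * ((1 + |T|) ^ θ)⁻¹ * (α ^ (1 - θ) * (1 + |T|) ^ θ) = 1 := by
    field_simp
  calc Real.pi = Real.pi * ((α ^ (1 - θ))⁻¹ * ((1 + |T|) ^ θ)⁻¹ *
      (α ^ (1 - θ) * (1 + |T|) ^ θ)) := by rw [k9, mul_one]
    _ ≤ Real.pi * ((α ^ (1 - θ))⁻¹ * ((1 + |T|) ^ θ)⁻¹ * (2 * Real.sqrt (α ^ 2 + T ^ 2))) := by
        gcongr
    _ = _ := by ring

/-- the `L²` bound -/
theorem g1_L2 : ∃ C : ℝ, 0 < C ∧ ∀ α : ℝ, 1 ≤ α → ∀ T c : ℝ,
    ∫⁻ m : ℝ, ENNReal.ofReal (w1 m * g1 α T c m ^ 2) ≤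
      ENNReal.ofReal (C * (Real.sqrt α)⁻¹ * (1 + |T|)⁻¹) := by
  set A : ℝ := Real.exp (3 / 8) with hA
  have hA0 : 0 < A := Real.exp_pos _
  refine ⟨2 * Real.pi * A * (Real.sqrt (Real.pi / (3 / 4)) + Real.sqrt (Real.pi / 2)),
    by positivity, fun α hα T c => ?_⟩
  have hα0 : 0 < α := by linarith
  have hsα : 0 < Real.sqrt α := Real.sqrt_pos.2 hα0
  have hs1 : 1 ≤ Real.sqrt α := Real.one_le_sqrt.2 hα
  rcases le_or_gt |T| 1 with hT | hT
  · -- small times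
    have h1 : ∀ m, w1 m * g1 α T c m ^ 2 ≤
        (Real.pi * (Real.sqrt α)⁻¹ * A) * Real.exp (-(3 / 4 * (m - 0) ^ 2)) := by
      intro m
      have k1 := g1_sq_le hα0 T c m
      have k2 : Real.sqrt α ≤ Real.sqrt (α ^ 2 + T ^ 2) :=
        Real.sqrt_le_sqrt (by nlinarith [sq_nonneg T])
      have k3 : Real.pi / Real.sqrt (α ^ 2 + T ^ 2) ≤ Real.pi * (Real.sqrt α)⁻¹ := by
        rw [← div_eq_mul_inv]
        exact div_le_div_of_nonneg_left Real.pi_pos.le hsα k2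
      have k4 := k1.trans k3
      calc w1 m * g1 α T c m ^ 2 ≤ w1 m * (Real.pi * (Real.sqrt α)⁻¹) :=
            mul_le_mul_of_nonneg_left k4 (w1_nonneg m)
        _ = _ := by unfold w1; ring
    calc ∫⁻ m : ℝ, ENNReal.ofReal (w1 m * g1 α T c m ^ 2)
        ≤ ∫⁻ m : ℝ, ENNReal.ofReal (Real.pi * (Real.sqrt α)⁻¹ * A) *
            ENNReal.ofReal (Real.exp (-(3 / 4 * (m - 0) ^ 2))) := by
          refine lintegral_mono fun m => ?_
          rw [← ENNReal.ofReal_mul (by positivity)]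
          exact ENNReal.ofReal_le_ofReal (h1 m)
      _ = ENNReal.ofReal (Real.pi * (Real.sqrt α)⁻¹ * A) *
            ENNReal.ofReal (Real.sqrt (Real.pi / (3 / 4))) := by
          rw [lintegral_const_mul _ (by fun_prop), gint (by norm_num)]
      _ = ENNReal.ofReal (Real.pi * (Real.sqrt α)⁻¹ * A * Real.sqrt (Real.pi / (3 / 4))) := by
          rw [← ENNReal.ofReal_mul (by positivity)]
      _ ≤ _ := by
          apply ENNReal.ofReal_le_ofReal
          have k5 : (1 : ℝ) ≤ 2 * (1 + |T|)⁻¹ := by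
            rw [← div_eq_mul_inv, le_div_iff₀ (by positivity)]
            linarith
          have k6 : 0 ≤ Real.pi * (Real.sqrt α)⁻¹ * A * Real.sqrt (Real.pi / (3 / 4)) := by
            positivity
          have k7 : 0 ≤ Real.pi * (Real.sqrt α)⁻¹ * A * Real.sqrt (Real.pi / 2) := by
            positivity
          calc Real.pi * (Real.sqrt α)⁻¹ * A * Real.sqrt (Real.pi / (3 / 4))
              ≤ (Real.pi * (Real.sqrt α)⁻¹ * A * Real.sqrt (Real.pi / (3 / 4)) +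
                Real.pi * (Real.sqrt α)⁻¹ * A * Real.sqrt (Real.pi / 2)) * 1 := by linarith
            _ ≤ (Real.pi * (Real.sqrt α)⁻¹ * A * Real.sqrt (Real.pi / (3 / 4)) +
                Real.pi * (Real.sqrt α)⁻¹ * A * Real.sqrt (Real.pi / 2)) *
                (2 * (1 + |T|)⁻¹) := mul_le_mul_of_nonneg_left k5 (by linarith)
            _ = _ := by ring
  · -- large times
    have hT0 : T ≠ 0 := by
      intro h
      rw [h, abs_zero] at hT
      linarith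
    have hTp : 0 < |T| := abs_pos.2 hT0
    have hpos : 0 < α ^ 2 + T ^ 2 := by positivity
    have hb : 0 < 2 * α * T ^ 2 / (α ^ 2 + T ^ 2) := by positivity
    have h1 : ∀ m, w1 m * g1 α T c m ^ 2 ≤ (A * (Real.pi / Real.sqrt (α ^ 2 + T ^ 2))) *
        Real.exp (-(2 * α * T ^ 2 / (α ^ 2 + T ^ 2) * (m - (-(c / (2 * T)))) ^ 2)) := by
      intro m
      have e1 : -(α * (c + 2 * m * T) ^ 2 / (2 * (α ^ 2 + T ^ 2))) =
          -(2 * α * T ^ 2 / (α ^ 2 + T ^ 2) * (m - (-(c / (2 * T)))) ^ 2) := by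
        field_simp
        ring
      rw [g1_sq hα0, e1, mul_assoc A]
      exact mul_le_mul_of_nonneg_right (w1_le m) (by positivity)
    calc ∫⁻ m : ℝ, ENNReal.ofReal (w1 m * g1 α T c m ^ 2)
        ≤ ∫⁻ m : ℝ, ENNReal.ofReal (A * (Real.pi / Real.sqrt (α ^ 2 + T ^ 2))) *
            ENNReal.ofReal (Real.exp (-(2 * α * T ^ 2 / (α ^ 2 + T ^ 2) *
              (m - (-(c / (2 * T)))) ^ 2))) := by
          refine lintegral_mono fun m => ?_
          rw [← ENNReal.ofReal_mul (by positivity)]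
          exact ENNReal.ofReal_le_ofReal (h1 m)
      _ = ENNReal.ofReal (A * (Real.pi / Real.sqrt (α ^ 2 + T ^ 2))) *
            ENNReal.ofReal (Real.sqrt (Real.pi / (2 * α * T ^ 2 / (α ^ 2 + T ^ 2)))) := by
          rw [lintegral_const_mul _ (by fun_prop), gint hb]
      _ = ENNReal.ofReal (A * (Real.pi / Real.sqrt (α ^ 2 + T ^ 2)) *
            Real.sqrt (Real.pi / (2 * α * T ^ 2 / (α ^ 2 + T ^ 2)))) := by
          rw [← ENNReal.ofReal_mul (by positivity)]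
      _ ≤ _ := by
          apply ENNReal.ofReal_le_ofReal
          have e1 : Real.pi / (2 * α * T ^ 2 / (α ^ 2 + T ^ 2)) =
              (Real.pi / 2) * (α ^ 2 + T ^ 2) * (α⁻¹ * (|T|⁻¹) ^ 2) := by
            rw [inv_pow, sq_abs]
            field_simp
          have e2 : Real.sqrt (Real.pi / (2 * α * T ^ 2 / (α ^ 2 + T ^ 2))) =
              Real.sqrt (Real.pi / 2) * Real.sqrt (α ^ 2 + T ^ 2) * ((Real.sqrt α)⁻¹ * |T|⁻¹) := by
            rw [e1, Real.sqrt_mul (by positivity), Real.sqrt_mul (by positivity),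
              Real.sqrt_mul (by positivity), Real.sqrt_inv, Real.sqrt_sq (by positivity)]
          have hs : 0 < Real.sqrt (α ^ 2 + T ^ 2) := Real.sqrt_pos.2 hpos
          have e3 : A * (Real.pi / Real.sqrt (α ^ 2 + T ^ 2)) *
              (Real.sqrt (Real.pi / 2) * Real.sqrt (α ^ 2 + T ^ 2) * ((Real.sqrt α)⁻¹ * |T|⁻¹)) =
              Real.pi * A * Real.sqrt (Real.pi / 2) * (Real.sqrt α)⁻¹ * |T|⁻¹ := by
            field_simp
          rw [e2, e3]
          have k5 : |T|⁻¹ ≤ 2 * (1 + |T|)⁻¹ := by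
            rw [← one_div, ← div_eq_mul_inv, div_le_div_iff₀ hTp (by positivity)]
            linarith
          have k6 : 0 ≤ Real.pi * A * Real.sqrt (Real.pi / 2) * (Real.sqrt α)⁻¹ := by positivity
          have k7 : 0 ≤ Real.pi * A * Real.sqrt (Real.pi / (3 / 4)) * (Real.sqrt α)⁻¹ := by
            positivity
          have k8 : 0 ≤ 2 * (1 + |T|)⁻¹ := by positivity
          calc Real.pi * A * Real.sqrt (Real.pi / 2) * (Real.sqrt α)⁻¹ * |T|⁻¹
              ≤ Real.pi * A * Real.sqrt (Real.pi / 2) * (Real.sqrt α)⁻¹ * (2 * (1 + |T|)⁻¹) :=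
                mul_le_mul_of_nonneg_left k5 k6
            _ ≤ Real.pi * A * Real.sqrt (Real.pi / 2) * (Real.sqrt α)⁻¹ * (2 * (1 + |T|)⁻¹) +
                Real.pi * A * Real.sqrt (Real.pi / (3 / 4)) * (Real.sqrt α)⁻¹ *
                  (2 * (1 + |T|)⁻¹) := by
                have := mul_nonneg k7 k8
                linarith
            _ = _ := by ring

end Pool.Agent.K4H46.MO
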