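import Mathlib
import Pool.Agent.K4H46.MO.Gau
import Pool.Agent.K4H46.MO.Fub

set_option autoImplicit false

/-! The mass of a Schroedinger wave in a Gaussian ball, in terms of coherent states. -/

namespace Pool.Agent.K4H46.MO

open MeasureTheory Set Complex
open scoped ENNReal NNReal ComplexConjugate

/-- the extension operator -/
noncomputable def ex (f : ℝ × ℝ → ℂ) (x : ℝ × ℝ) (t : ℝ) : ℂ :=
  ∫ ξ : ℝ × ℝ, cexp (-((x.1 * ξ.1 + x.2 * ξ.2 + t * (ξ.1 ^ 2 + ξ.2 ^ 2) : ℝ) : ℂ) * I) * f ξ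

/-- the Gaussian in the frequencies -/
noncomputable def bump (α1 α2 : ℝ) (m ξ : ℝ × ℝ) : ℝ :=
  Real.exp (-(α1 * (ξ.1 - m.1) ^ 2)) * Real.exp (-(α2 * (ξ.2 - m.2) ^ 2))

/-- the coefficient of the coherent state -/
noncomputable def co (f : ℝ × ℝ → ℂ) (α1 α2 : ℝ) (c : ℝ × ℝ) (t : ℝ) (m : ℝ × ℝ) : ℂ :=
  ∫ ξ : ℝ × ℝ, (bump α1 α2 m ξ : ℂ) *
    (cexp (-((c.1 * ξ.1 + c.2 * ξ.2 + t * (ξ.1 ^ 2 + ξ.2 ^ 2) : ℝ) : ℂ) * I) * f ξ)

/-- the Gaussian in space -/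
noncomputable def gw (α1 α2 : ℝ) (c x : ℝ × ℝ) : ℝ :=
  Real.exp (-((x.1 - c.1) ^ 2 / (2 * α1))) * Real.exp (-((x.2 - c.2) ^ 2 / (2 * α2)))

theorem norm_e (r : ℝ) : ‖cexp (-(r : ℂ) * I)‖ = 1 := by
  rw [← Complex.ofReal_neg]
  exact Complex.norm_exp_ofReal_mul_I _

theorem enorm_e (r : ℝ) : ‖cexp (-(r : ℂ) * I)‖ₑ = 1 := by
  rw [← ofReal_norm, norm_e, ENNReal.ofReal_one]

theorem enorm_r {r : ℝ} (h : 0 ≤ r) : ‖(r : ℂ)‖ₑ = ENNReal.ofReal r := by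
  rw [← ofReal_norm, Complex.norm_real, Real.norm_of_nonneg h]

theorem ident {f : ℝ × ℝ → ℂ} (hfm : Measurable f) (hf : Integrable f) {α1 α2 : ℝ} (h1 : 0 < α1)
    (h2 : 0 < α2) (c : ℝ × ℝ) (t : ℝ) :
    ∫⁻ x, ENNReal.ofReal (gw α1 α2 c x) * ‖ex f x t‖ₑ ^ 2 =
      ENNReal.ofReal (4 * α1 * α2) * ∫⁻ m, ‖co f α1 α2 c t m‖ₑ ^ 2 := by
  set g : ℝ × ℝ → ℂ := fun ξ => cexp (-((t * (ξ.1 ^ 2 + ξ.2 ^ 2) : ℝ) : ℂ) * I) * f ξ with hg
  have hgm : Measurable g := by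
    refine Measurable.mul ?_ hfm
    fun_prop
  have hgi : Integrable g := by
    refine hf.bdd_mul (c := 1) (by fun_prop) (Filter.Eventually.of_forall fun ξ => (norm_e _).le)
  set s : ℝ × ℝ → ℝ := fun x => Real.exp (-((x.1 - c.1) ^ 2 / (4 * α1))) *
    Real.exp (-((x.2 - c.2) ^ 2 / (4 * α2))) with hs
  set k1 : ℝ × ℝ → ℝ × ℝ → ℂ := fun x ξ => (s x : ℂ) *
    cexp (-((x.1 * ξ.1 + x.2 * ξ.2 : ℝ) : ℂ) * I) with hk1
  set k2 : ℝ × ℝ → ℝ × ℝ → ℂ := fun m ξ => (bump α1 α2 m ξ : ℂ) *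
    cexp (-((c.1 * ξ.1 + c.2 * ξ.2 : ℝ) : ℂ) * I) with hk2
  have hs0 : ∀ x, 0 ≤ s x := fun x => by simp only [hs]; positivity
  have hs1 : ∀ x, s x ≤ 1 := fun x => by
    simp only [hs]
    have a1 : Real.exp (-((x.1 - c.1) ^ 2 / (4 * α1))) ≤ 1 := by
      rw [Real.exp_le_one_iff]
      have : 0 ≤ (x.1 - c.1) ^ 2 / (4 * α1) := by positivity
      linarith
    have a2 : Real.exp (-((x.2 - c.2) ^ 2 / (4 * α2))) ≤ 1 := by
      rw [Real.exp_le_one_iff]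
      have : 0 ≤ (x.2 - c.2) ^ 2 / (4 * α2) := by positivity
      linarith
    exact mul_le_one₀ a1 (Real.exp_pos _).le a2
  have hb0 : ∀ m ξ, 0 ≤ bump α1 α2 m ξ := fun m ξ => by unfold bump; positivity
  have hb1 : ∀ m ξ, bump α1 α2 m ξ ≤ 1 := fun m ξ => by
    unfold bump
    have a1 : Real.exp (-(α1 * (ξ.1 - m.1) ^ 2)) ≤ 1 := by
      rw [Real.exp_le_one_iff]
      have : 0 ≤ α1 * (ξ.1 - m.1) ^ 2 := by positivity
      linarith
    have a2 : Real.exp (-(α2 * (ξ.2 - m.2) ^ 2)) ≤ 1 := by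
      rw [Real.exp_le_one_iff]
      have : 0 ≤ α2 * (ξ.2 - m.2) ^ 2 := by positivity
      linarith
    exact mul_le_one₀ a1 (Real.exp_pos _).le a2
  have n1 : ∀ x ξ, ‖k1 x ξ‖ₑ = ENNReal.ofReal (s x) := fun x ξ => by
    simp only [hk1]
    rw [enorm_mul, enorm_e, mul_one, enorm_r (hs0 x)]
  have n2 : ∀ m ξ, ‖k2 m ξ‖ₑ = ENNReal.ofReal (bump α1 α2 m ξ) := fun m ξ => by
    simp only [hk2]
    rw [enorm_mul, enorm_e, mul_one, enorm_r (hb0 m ξ)]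
  -- first kernel
  have m1 : Measurable (Function.uncurry k1) := by
    simp only [hk1, hs]
    unfold Function.uncurry
    fun_prop
  have m2 : Measurable (Function.uncurry k2) := by
    simp only [hk2]
    unfold Function.uncurry bump
    fun_prop
  have f1 : ∀ ξ, ∫⁻ x, ‖k1 x ξ‖ₑ ≤ ENNReal.ofReal (Real.sqrt (Real.pi / (1 / (4 * α1)))) *
      ENNReal.ofReal (Real.sqrt (Real.pi / (1 / (4 * α2)))) := by
    intro ξ
    simp_rw [n1]
    have e1 : ∀ x : ℝ × ℝ, ENNReal.ofReal (s x) =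
        ENNReal.ofReal (Real.exp (-(1 / (4 * α1) * (x.1 - c.1) ^ 2))) *
        ENNReal.ofReal (Real.exp (-(1 / (4 * α2) * (x.2 - c.2) ^ 2))) := by
      intro x
      rw [← ENNReal.ofReal_mul (Real.exp_pos _).le]
      simp only [hs]
      congr 3
      · congr 1; ring
      · congr 1; ring
    simp_rw [e1]
    rw [Measure.volume_eq_prod, lintegral_prod_mul
      (f := fun a : ℝ => ENNReal.ofReal (Real.exp (-(1 / (4 * α1) * (a - c.1) ^ 2))))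
      (g := fun a : ℝ => ENNReal.ofReal (Real.exp (-(1 / (4 * α2) * (a - c.2) ^ 2))))
      (by fun_prop) (by fun_prop), gint (by positivity), gint (by positivity)]
  have f2 : ∀ ξ, ∫⁻ m, ‖k2 m ξ‖ₑ ≤ ENNReal.ofReal (Real.sqrt (Real.pi / α1)) *
      ENNReal.ofReal (Real.sqrt (Real.pi / α2)) := by
    intro ξ
    simp_rw [n2]
    have e1 : ∀ m : ℝ × ℝ, ENNReal.ofReal (bump α1 α2 m ξ) =
        ENNReal.ofReal (Real.exp (-(α1 * (m.1 - ξ.1) ^ 2))) *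
        ENNReal.ofReal (Real.exp (-(α2 * (m.2 - ξ.2) ^ 2))) := by
      intro x
      rw [← ENNReal.ofReal_mul (Real.exp_pos _).le]
      unfold bump
      congr 3
      · congr 1; ring
      · congr 1; ring
    simp_rw [e1]
    rw [Measure.volume_eq_prod, lintegral_prod_mul
      (f := fun a : ℝ => ENNReal.ofReal (Real.exp (-(α1 * (a - ξ.1) ^ 2))))
      (g := fun a : ℝ => ENNReal.ofReal (Real.exp (-(α2 * (a - ξ.2) ^ 2))))
      (by fun_prop) (by fun_prop), gint h1, gint h2]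
  have t1 := ttstar volume volume k1 m1 (fun x ξ => by
    rw [n1, ← ENNReal.ofReal_one]; exact ENNReal.ofReal_le_ofReal (hs1 x))
    (ENNReal.mul_ne_top ENNReal.ofReal_ne_top ENNReal.ofReal_ne_top) f1 g hgm hgi
  have t2 := ttstar volume volume k2 m2 (fun x ξ => by
    rw [n2, ← ENNReal.ofReal_one]; exact ENNReal.ofReal_le_ofReal (hb1 x ξ))
    (ENNReal.mul_ne_top ENNReal.ofReal_ne_top ENNReal.ofReal_ne_top) f2 g hgm hgi
  -- left-hand sides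
  have l1 : ∀ x, ‖∫ y, k1 x y * g y‖ₑ ^ 2 = ENNReal.ofReal (gw α1 α2 c x) * ‖ex f x t‖ₑ ^ 2 := by
    intro x
    have e1 : ∀ y, k1 x y * g y = (s x : ℂ) *
        (cexp (-((x.1 * y.1 + x.2 * y.2 + t * (y.1 ^ 2 + y.2 ^ 2) : ℝ) : ℂ) * I) * f y) := by
      intro y
      simp only [hk1, hg]
      have : cexp (-((x.1 * y.1 + x.2 * y.2 + t * (y.1 ^ 2 + y.2 ^ 2) : ℝ) : ℂ) * I) =
          cexp (-((x.1 * y.1 + x.2 * y.2 : ℝ) : ℂ) * I) *
          cexp (-((t * (y.1 ^ 2 + y.2 ^ 2) : ℝ) : ℂ) * I) := by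
        rw [← Complex.exp_add]
        congr 1
        push_cast
        ring
      rw [this]
      ring
    simp_rw [e1]
    rw [integral_const_mul, enorm_mul, mul_pow, enorm_r (hs0 x), ← ENNReal.ofReal_pow (hs0 x)]
    congr 2
    simp only [hs]
    unfold gw
    rw [mul_pow, ← Real.exp_nat_mul, ← Real.exp_nat_mul]
    congr 2
    · push_cast; field_simp; ring
    · push_cast; field_simp; ring
  have l2 : ∀ m, ∫ y, k2 m y * g y = co f α1 α2 c t m := by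
    intro m
    unfold co
    refine integral_congr_ae (Filter.Eventually.of_forall fun y => ?_)
    simp only [hk2, hg]
    have : cexp (-((c.1 * y.1 + c.2 * y.2 + t * (y.1 ^ 2 + y.2 ^ 2) : ℝ) : ℂ) * I) =
        cexp (-((c.1 * y.1 + c.2 * y.2 : ℝ) : ℂ) * I) *
        cexp (-((t * (y.1 ^ 2 + y.2 ^ 2) : ℝ) : ℂ) * I) := by
      rw [← Complex.exp_add]
      congr 1
      push_cast
      ring
    rw [this]
    ring
  simp_rw [l1] at t1
  simp_rw [l2] at t2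
  -- the kernels
  have c1 : ∀ z : (ℝ × ℝ) × (ℝ × ℝ), ∫ x, k1 x z.1 * conj (k1 x z.2) =
      ((4 * α1 * α2 : ℝ) : ℂ) * ∫ m, k2 m z.1 * conj (k2 m z.2) := by
    intro z
    obtain ⟨ξ, η⟩ := z
    simp only
    have e1 : ∀ x : ℝ × ℝ, k1 x ξ * conj (k1 x η) =
        (((Real.exp (-((x.1 - c.1) ^ 2 / (2 * α1))) : ℝ) : ℂ) *
          cexp (-((x.1 * (ξ.1 - η.1) : ℝ) : ℂ) * I)) *
        (((Real.exp (-((x.2 - c.2) ^ 2 / (2 * α2))) : ℝ) : ℂ) *
          cexp (-((x.2 * (ξ.2 - η.2) : ℝ) : ℂ) * I)) := by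
      intro x
      simp only [hk1, hs]
      rw [map_mul, Complex.conj_ofReal, ← Complex.exp_conj]
      push_cast
      simp only [← Complex.exp_add, map_mul, map_neg, map_add, Complex.conj_ofReal, conj_I]
      congr 1
      field_simp
      ring
    have e2 : ∀ m : ℝ × ℝ, k2 m ξ * conj (k2 m η) =
        cexp (-((c.1 * (ξ.1 - η.1) + c.2 * (ξ.2 - η.2) : ℝ) : ℂ) * I) *
        ((((Real.exp (-(α1 * (ξ.1 - m.1) ^ 2)) * Real.exp (-(α1 * (η.1 - m.1) ^ 2)) : ℝ)) : ℂ) *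
        (((Real.exp (-(α2 * (ξ.2 - m.2) ^ 2)) * Real.exp (-(α2 * (η.2 - m.2) ^ 2)) : ℝ)) : ℂ)) := by
      intro m
      simp only [hk2]
      unfold bump
      rw [map_mul, Complex.conj_ofReal, ← Complex.exp_conj]
      push_cast
      simp only [← Complex.exp_add, map_mul, map_neg, map_add, Complex.conj_ofReal, conj_I]
      congr 1
      ring
    simp_rw [e1, e2]
    rw [integral_const_mul, Measure.volume_eq_prod]
    rw [integral_prod_mul (μ := (volume : Measure ℝ)) (ν := (volume : Measure ℝ))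
      (fun a : ℝ => ((Real.exp (-((a - c.1) ^ 2 / (2 * α1))) : ℝ) : ℂ) *
          cexp (-((a * (ξ.1 - η.1) : ℝ) : ℂ) * I))
      (fun a : ℝ => ((Real.exp (-((a - c.2) ^ 2 / (2 * α2))) : ℝ) : ℂ) *
          cexp (-((a * (ξ.2 - η.2) : ℝ) : ℂ) * I)), K1 h1, K1 h2]
    rw [integral_prod_mul (μ := (volume : Measure ℝ)) (ν := (volume : Measure ℝ))
      (fun a : ℝ => ((Real.exp (-(α1 * (ξ.1 - a) ^ 2)) * Real.exp (-(α1 * (η.1 - a) ^ 2)) : ℝ) : ℂ))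
      (fun a : ℝ => ((Real.exp (-(α2 * (ξ.2 - a) ^ 2)) * Real.exp (-(α2 * (η.2 - a) ^ 2)) : ℝ) : ℂ)),
      integral_complex_ofReal, integral_complex_ofReal, K2 h1, K2 h2]
    have q : ∀ {α : ℝ}, 0 < α → Real.sqrt (2 * Real.pi * α) =
        2 * α * Real.sqrt (Real.pi / (2 * α)) := by
      intro α hα
      have : 2 * Real.pi * α = (2 * α) ^ 2 * (Real.pi / (2 * α)) := by field_simp
      rw [this, Real.sqrt_mul (by positivity), Real.sqrt_sq (by positivity)]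
    have q3 : cexp (-((c.1 * (ξ.1 - η.1) + c.2 * (ξ.2 - η.2) : ℝ) : ℂ) * I) =
        cexp (-((c.1 * (ξ.1 - η.1) : ℝ) : ℂ) * I) * cexp (-((c.2 * (ξ.2 - η.2) : ℝ) : ℂ) * I) := by
      rw [← Complex.exp_add]
      congr 1
      push_cast
      ring
    rw [q h1, q h2, q3]
    push_cast
    ring
  rw [t1, t2]
  simp_rw [c1]
  have e5 : ∫ z : (ℝ × ℝ) × (ℝ × ℝ), g z.1 * conj (g z.2) *
      (((4 * α1 * α2 : ℝ) : ℂ) * ∫ m, k2 m z.1 * conj (k2 m z.2)) ∂(volume.prod volume) =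
      ((4 * α1 * α2 : ℝ) : ℂ) * ∫ z : (ℝ × ℝ) × (ℝ × ℝ), g z.1 * conj (g z.2) *
        (∫ m, k2 m z.1 * conj (k2 m z.2)) ∂(volume.prod volume) := by
    rw [← integral_const_mul]
    refine integral_congr_ae (Filter.Eventually.of_forall fun z => ?_)
    simp only
    ring
  rw [e5, Complex.re_ofReal_mul, ENNReal.ofReal_mul (by positivity)]

end Pool.Agent.K4H46.MO
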