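import Mathlib

set_option autoImplicit false

/-! The Schatten-3 inequality for finitely many vectors. -/

namespace Pool.Agent.K4H46.MO

open Finset
open scoped ComplexConjugate

variable {H : Type*} [NormedAddCommGroup H] [InnerProductSpace ℂ H]


theorem sch3 {ι : Type*} (s : Finset ι) (g : ι → ℝ) (hg : ∀ i, 0 ≤ g i) (ψ : ι → H) (F : H) :
    (∑ n ∈ s, g n * ‖inner ℂ (ψ n) F‖ ^ 2) ^ 3 ≤
      ‖F‖ ^ 6 * ∑ n ∈ s, ∑ k ∈ s, ∑ l ∈ s, g n * g k * g l *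
        (‖inner ℂ (ψ n) (ψ k)‖ * ‖inner ℂ (ψ k) (ψ l)‖ * ‖inner ℂ (ψ l) (ψ n)‖) := by
  set a : ι → ℂ := fun n => inner ℂ (ψ n) F with ha
  set S : ℝ := ∑ n ∈ s, g n * ‖a n‖ ^ 2 with hS
  set T : ℝ := ∑ n ∈ s, ∑ k ∈ s, ∑ l ∈ s, g n * g k * g l *
        (‖inner ℂ (ψ n) (ψ k)‖ * ‖inner ℂ (ψ k) (ψ l)‖ * ‖inner ℂ (ψ l) (ψ n)‖) with hT
  have hS0 : 0 ≤ S := sum_nonneg fun i _ => mul_nonneg (hg i) (sq_nonneg _)
  have hT0 : 0 ≤ T := sum_nonneg fun i _ => sum_nonneg fun j _ => sum_nonneg fun k _ =>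
    mul_nonneg (mul_nonneg (mul_nonneg (hg i) (hg j)) (hg k)) (by positivity)
  set u : H := ∑ n ∈ s, ((g n : ℂ) * a n) • ψ n with hu
  set v : ι → H := fun n => ∑ k ∈ s, ((g k : ℂ) * inner ℂ (ψ k) (ψ n)) • ψ k with hv
  -- S ≤ ‖u‖ ‖F‖
  have h1 : inner ℂ u F = (S : ℂ) := by
    rw [hu, sum_inner, hS]
    push_cast
    refine sum_congr rfl fun n _ => ?_
    rw [inner_smul_left, map_mul, Complex.conj_ofReal, mul_assoc, mul_comm (conj (a n))]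
    congr 1
    show a n * conj (a n) = _
    rw [Complex.mul_conj, Complex.normSq_eq_norm_sq]
    push_cast
    rfl
  have h1' : S ≤ ‖u‖ * ‖F‖ := by
    have := norm_inner_le_norm (𝕜 := ℂ) u F
    rw [h1, Complex.norm_real, Real.norm_of_nonneg hS0] at this
    exact this
  -- ⟪ψ n, u⟫ = ⟪v n, F⟫
  have h2 : ∀ n, inner ℂ (ψ n) u = inner ℂ (v n) F := by
    intro n
    simp only [hu, hv]
    rw [inner_sum, sum_inner]
    refine sum_congr rfl fun k _ => ?_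
    rw [inner_smul_right, inner_smul_left, map_mul, Complex.conj_ofReal, inner_conj_symm]
    simp only [ha]
    ring
  have h2' : ∀ n, ‖inner ℂ (ψ n) u‖ ≤ ‖v n‖ * ‖F‖ := fun n => by
    rw [h2 n]; exact norm_inner_le_norm _ _
  -- ‖v n‖²
  have h3 : ∀ n, ‖v n‖ ^ 2 ≤ ∑ k ∈ s, ∑ l ∈ s, g k * g l *
      (‖inner ℂ (ψ n) (ψ k)‖ * ‖inner ℂ (ψ k) (ψ l)‖ * ‖inner ℂ (ψ l) (ψ n)‖) := by
    intro n
    have e1 : (‖v n‖ ^ 2 : ℝ) = ‖inner ℂ (v n) (v n)‖ := by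
      rw [inner_self_eq_norm_sq_to_K (𝕜 := ℂ) (v n), norm_pow]
      simp
    rw [e1]
    conv_lhs => rw [hv]
    simp only
    rw [sum_inner]
    refine (norm_sum_le _ _).trans (sum_le_sum fun k _ => ?_)
    rw [inner_sum]
    refine (norm_sum_le _ _).trans (sum_le_sum fun l _ => ?_)
    rw [inner_smul_left, inner_smul_right, norm_mul, norm_mul, map_mul, norm_mul, norm_mul,
      Complex.conj_ofReal, RCLike.norm_conj, Complex.norm_real, Complex.norm_real,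
      Real.norm_of_nonneg (hg k), Real.norm_of_nonneg (hg l), norm_inner_symm (ψ n) (ψ k)]
    apply le_of_eq
    ring
  -- ∑ g n |⟪ψ n, u⟫|² ≤ ‖F‖² T
  have h4 : ∑ n ∈ s, g n * ‖inner ℂ (ψ n) u‖ ^ 2 ≤ ‖F‖ ^ 2 * T := by
    rw [hT, mul_sum]
    refine sum_le_sum fun n _ => ?_
    have e1 : ‖inner ℂ (ψ n) u‖ ^ 2 ≤ (‖v n‖ * ‖F‖) ^ 2 :=
      pow_le_pow_left₀ (norm_nonneg _) (h2' n) 2
    have e2 : (‖v n‖ * ‖F‖) ^ 2 ≤ ‖F‖ ^ 2 * ∑ k ∈ s, ∑ l ∈ s, g k * g l *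
      (‖inner ℂ (ψ n) (ψ k)‖ * ‖inner ℂ (ψ k) (ψ l)‖ * ‖inner ℂ (ψ l) (ψ n)‖) := by
      rw [mul_pow, mul_comm]
      exact mul_le_mul_of_nonneg_left (h3 n) (sq_nonneg _)
    refine (mul_le_mul_of_nonneg_left (e1.trans e2) (hg n)).trans (le_of_eq ?_)
    rw [← mul_assoc, mul_comm (g n), mul_assoc, mul_sum]
    congr 1
    refine sum_congr rfl fun k _ => ?_
    rw [mul_sum]
    refine sum_congr rfl fun l _ => ?_
    ring
  -- ‖u‖⁴ ≤ S ‖F‖² T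
  have h5 : ‖u‖ ^ 2 ≤ ∑ n ∈ s, g n * (‖a n‖ * ‖inner ℂ (ψ n) u‖) := by
    have e1 : (‖u‖ ^ 2 : ℝ) = ‖inner ℂ u u‖ := by
      rw [inner_self_eq_norm_sq_to_K (𝕜 := ℂ) u, norm_pow]
      simp
    rw [e1]
    conv_lhs => rw [hu]
    rw [sum_inner]
    refine (norm_sum_le _ _).trans (sum_le_sum fun n _ => ?_)
    rw [inner_smul_left, norm_mul, RCLike.norm_conj, norm_mul, Complex.norm_real,
      Real.norm_of_nonneg (hg n)]
    apply le_of_eq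
    rw [mul_assoc]
  have h6 : (∑ n ∈ s, g n * (‖a n‖ * ‖inner ℂ (ψ n) u‖)) ^ 2 ≤
      S * ∑ n ∈ s, g n * ‖inner ℂ (ψ n) u‖ ^ 2 := by
    have := sum_mul_sq_le_sq_mul_sq s (fun n => Real.sqrt (g n) * ‖a n‖)
      (fun n => Real.sqrt (g n) * ‖inner ℂ (ψ n) u‖)
    have e1 : ∀ n, Real.sqrt (g n) * ‖a n‖ * (Real.sqrt (g n) * ‖inner ℂ (ψ n) u‖) =
        g n * (‖a n‖ * ‖inner ℂ (ψ n) u‖) := by
      intro n
      have := Real.mul_self_sqrt (hg n)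
      calc _ = (Real.sqrt (g n) * Real.sqrt (g n)) * (‖a n‖ * ‖inner ℂ (ψ n) u‖) := by ring
        _ = _ := by rw [this]
    have e2 : ∀ (b : ℝ) n, (Real.sqrt (g n) * b) ^ 2 = g n * b ^ 2 := by
      intro b n
      rw [mul_pow, Real.sq_sqrt (hg n)]
    rw [sum_congr rfl fun n _ => e1 n, sum_congr rfl fun n _ => e2 (‖a n‖) n,
      sum_congr rfl fun n _ => e2 (‖inner ℂ (ψ n) u‖) n] at this
    exact this
  have h7 : ‖u‖ ^ 4 ≤ S * (‖F‖ ^ 2 * T) := by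
    calc ‖u‖ ^ 4 = (‖u‖ ^ 2) ^ 2 := by ring
      _ ≤ (∑ n ∈ s, g n * (‖a n‖ * ‖inner ℂ (ψ n) u‖)) ^ 2 :=
        pow_le_pow_left₀ (sq_nonneg _) h5 2
      _ ≤ _ := h6.trans (mul_le_mul_of_nonneg_left h4 hS0)
  have h8 : S ^ 4 ≤ S * (‖F‖ ^ 6 * T) := by
    calc S ^ 4 ≤ (‖u‖ * ‖F‖) ^ 4 := pow_le_pow_left₀ hS0 h1' 4
      _ = ‖u‖ ^ 4 * ‖F‖ ^ 4 := by ring
      _ ≤ (S * (‖F‖ ^ 2 * T)) * ‖F‖ ^ 4 := mul_le_mul_of_nonneg_right h7 (by positivity)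
      _ = _ := by ring
  rcases hS0.eq_or_lt with h | h
  · rw [← h]
    simp only [ne_eq, OfNat.ofNat_ne_zero, not_false_eq_true, zero_pow]
    positivity
  · have : S * S ^ 3 ≤ S * (‖F‖ ^ 6 * T) := by
      calc S * S ^ 3 = S ^ 4 := by ring
        _ ≤ _ := h8
    exact le_of_mul_le_mul_left this h

end Pool.Agent.K4H46.MO
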