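import Mathlib
import Pool.Agent.K4H46.MO.Id
import Pool.Agent.K4H46.MO.Sch

set_option autoImplicit false

/-! Coherent states: the cubic inequality at a fixed frequency. -/

namespace Pool.Agent.K4H46.MO

open MeasureTheory Set Complex
open scoped ENNReal NNReal ComplexConjugate

/-- the modulus of the Gram entry -/
noncomputable def G (α1 α2 : ℝ) (c : ℝ × ℝ) (T : ℝ) (m : ℝ × ℝ) : ℝ :=
  g1 α1 T c.1 m.1 * g1 α2 T c.2 m.2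

theorem G_nonneg (α1 α2 : ℝ) (c : ℝ × ℝ) (T : ℝ) (m : ℝ × ℝ) : 0 ≤ G α1 α2 c T m :=
  mul_nonneg (g1_nonneg _ _ _ _) (g1_nonneg _ _ _ _)

/-- half of the bump -/
noncomputable def hbp (α1 α2 : ℝ) (m ξ : ℝ × ℝ) : ℝ :=
  Real.exp (-(α1 / 2 * (ξ.1 - m.1) ^ 2)) * Real.exp (-(α2 / 2 * (ξ.2 - m.2) ^ 2))

theorem hbp_sq (α1 α2 : ℝ) (m ξ : ℝ × ℝ) : hbp α1 α2 m ξ * hbp α1 α2 m ξ = bump α1 α2 m ξ := by
  unfold hbp bump
  rw [mul_mul_mul_comm, ← Real.exp_add, ← Real.exp_add]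
  congr 2 <;> ring

theorem hbp_nonneg (α1 α2 : ℝ) (m ξ : ℝ × ℝ) : 0 ≤ hbp α1 α2 m ξ := by unfold hbp; positivity

theorem hbp_le {α1 α2 : ℝ} (h1 : 0 < α1) (h2 : 0 < α2) (m ξ : ℝ × ℝ) : hbp α1 α2 m ξ ≤ 1 := by
  unfold hbp
  have a1 : Real.exp (-(α1 / 2 * (ξ.1 - m.1) ^ 2)) ≤ 1 := by
    rw [Real.exp_le_one_iff]
    have : 0 ≤ α1 / 2 * (ξ.1 - m.1) ^ 2 := by positivity
    linarith
  have a2 : Real.exp (-(α2 / 2 * (ξ.2 - m.2) ^ 2)) ≤ 1 := by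
    rw [Real.exp_le_one_iff]
    have : 0 ≤ α2 / 2 * (ξ.2 - m.2) ^ 2 := by positivity
    linarith
  exact mul_le_one₀ a1 (Real.exp_pos _).le a2

theorem bump_nonneg (α1 α2 : ℝ) (m ξ : ℝ × ℝ) : 0 ≤ bump α1 α2 m ξ := by unfold bump; positivity

theorem bump_lint {α1 α2 : ℝ} (h1 : 0 < α1) (h2 : 0 < α2) (m : ℝ × ℝ) :
    ∫⁻ ξ, ENNReal.ofReal (bump α1 α2 m ξ) = ENNReal.ofReal (Real.sqrt (Real.pi / α1)) *
      ENNReal.ofReal (Real.sqrt (Real.pi / α2)) := by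
  have e1 : ∀ ξ : ℝ × ℝ, ENNReal.ofReal (bump α1 α2 m ξ) =
      ENNReal.ofReal (Real.exp (-(α1 * (ξ.1 - m.1) ^ 2))) *
      ENNReal.ofReal (Real.exp (-(α2 * (ξ.2 - m.2) ^ 2))) := by
    intro x
    rw [← ENNReal.ofReal_mul (Real.exp_pos _).le]
    rfl
  simp_rw [e1]
  rw [Measure.volume_eq_prod, lintegral_prod_mul
    (f := fun a : ℝ => ENNReal.ofReal (Real.exp (-(α1 * (a - m.1) ^ 2))))
    (g := fun a : ℝ => ENNReal.ofReal (Real.exp (-(α2 * (a - m.2) ^ 2))))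
    (by fun_prop) (by fun_prop), gint h1, gint h2]

/-- the coherent state -/
noncomputable def psi (α1 α2 : ℝ) (m c : ℝ × ℝ) (t : ℝ) (ξ : ℝ × ℝ) : ℂ :=
  (hbp α1 α2 m ξ : ℂ) * cexp (((c.1 * ξ.1 + c.2 * ξ.2 + t * (ξ.1 ^ 2 + ξ.2 ^ 2) : ℝ) : ℂ) * I)

theorem psi_meas (α1 α2 : ℝ) (m c : ℝ × ℝ) (t : ℝ) : Measurable (psi α1 α2 m c t) := by
  unfold psi hbp
  fun_prop

theorem psi_memLp {α1 α2 : ℝ} (h1 : 0 < α1) (h2 : 0 < α2) (m c : ℝ × ℝ) (t : ℝ) :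
    MemLp (psi α1 α2 m c t) 2 := by
  refine ⟨(psi_meas _ _ _ _ _).aestronglyMeasurable, ?_⟩
  rw [eLpNorm_lt_top_iff_lintegral_rpow_enorm_lt_top (by norm_num) (by norm_num)]
  have e1 : ∀ ξ, ‖psi α1 α2 m c t ξ‖ₑ ^ (2 : ℝ≥0∞).toReal = ENNReal.ofReal (bump α1 α2 m ξ) := by
    intro ξ
    unfold psi
    have h3 : ‖cexp (((c.1 * ξ.1 + c.2 * ξ.2 + t * (ξ.1 ^ 2 + ξ.2 ^ 2) : ℝ) : ℂ) * I)‖ₑ = 1 := by
      rw [← ofReal_norm, Complex.norm_exp_ofReal_mul_I, ENNReal.ofReal_one]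
    rw [enorm_mul, h3, mul_one, enorm_r (hbp_nonneg _ _ _ _), ← hbp_sq,
      ENNReal.ofReal_mul (hbp_nonneg _ _ _ _)]
    simp [pow_two]
  simp_rw [e1]
  rw [bump_lint h1 h2]
  exact ENNReal.mul_lt_top ENNReal.ofReal_lt_top ENNReal.ofReal_lt_top

theorem coh {f : ℝ × ℝ → ℂ} (hf2 : MemLp f 2) {α1 α2 : ℝ}
    (h1 : 0 < α1) (h2 : 0 < α2) {ι : Type*} (s : Finset ι) (g : ι → ℝ≥0) (c : ι → ℝ × ℝ)
    (t : ι → ℝ) (m : ℝ × ℝ) :
    (∑ n ∈ s, (g n : ℝ≥0∞) * ‖co f α1 α2 (c n) (t n) m‖ₑ ^ 2) ^ 3 ≤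
      (∫⁻ ξ, ENNReal.ofReal (bump α1 α2 m ξ) * ‖f ξ‖ₑ ^ 2) ^ 3 *
      ∑ n ∈ s, ∑ k ∈ s, ∑ l ∈ s, (g n : ℝ≥0∞) * g k * g l *
        (ENNReal.ofReal (G α1 α2 (c k - c n) (t k - t n) m) *
          ENNReal.ofReal (G α1 α2 (c l - c k) (t l - t k) m) *
          ENNReal.ofReal (G α1 α2 (c n - c l) (t n - t l) m)) := by
  set hb : ℝ × ℝ → ℂ := fun ξ => (hbp α1 α2 m ξ : ℂ) with hhb
  have hbm : Measurable hb := by
    simp only [hhb]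
    unfold hbp
    fun_prop
  have hF : MemLp (fun ξ => hb ξ * f ξ) 2 := by
    refine hf2.mono (hbm.aestronglyMeasurable.mul hf2.1) (Filter.Eventually.of_forall fun ξ => ?_)
    simp only [hhb]
    rw [norm_mul, Complex.norm_real, Real.norm_of_nonneg (hbp_nonneg _ _ _ _)]
    have := hbp_le h1 h2 m ξ
    nlinarith [norm_nonneg (f ξ)]
  set Ψ : ι → Lp ℂ 2 (volume : Measure (ℝ × ℝ)) := fun n =>
    (psi_memLp h1 h2 m (c n) (t n)).toLp _ with hΨ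
  set FF : Lp ℂ 2 (volume : Measure (ℝ × ℝ)) := hF.toLp _ with hFF
  have i1 : ∀ n, inner ℂ (Ψ n) FF = co f α1 α2 (c n) (t n) m := by
    intro n
    rw [L2.inner_def]
    unfold co
    refine integral_congr_ae ?_
    filter_upwards [(psi_memLp h1 h2 m (c n) (t n)).coeFn_toLp, hF.coeFn_toLp] with ξ e1 e2
    simp only [hΨ, hFF]
    rw [e1, e2]
    simp only [RCLike.inner_apply]
    unfold psi
    rw [map_mul, Complex.conj_ofReal, ← Complex.exp_conj, ← hbp_sq]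
    simp only [hhb, map_mul, Complex.conj_ofReal, conj_I]
    push_cast
    ring_nf
  have i2 : ∀ n k, ‖inner ℂ (Ψ n) (Ψ k)‖ = G α1 α2 (c k - c n) (t k - t n) m := by
    intro n k
    rw [L2.inner_def]
    have e0 : ∫ a, inner ℂ ((Ψ n : ℝ × ℝ → ℂ) a) ((Ψ k : ℝ × ℝ → ℂ) a) =
        ∫ a : ℝ × ℝ, (((Real.exp (-(α1 * (a.1 - m.1) ^ 2)) : ℝ) : ℂ) *
          cexp ((((c k - c n).1 * a.1 + (t k - t n) * a.1 ^ 2 : ℝ) : ℂ) * I)) *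
          (((Real.exp (-(α2 * (a.2 - m.2) ^ 2)) : ℝ) : ℂ) *
          cexp ((((c k - c n).2 * a.2 + (t k - t n) * a.2 ^ 2 : ℝ) : ℂ) * I)) := by
      refine integral_congr_ae ?_
      filter_upwards [(psi_memLp h1 h2 m (c n) (t n)).coeFn_toLp,
        (psi_memLp h1 h2 m (c k) (t k)).coeFn_toLp] with ξ e1 e2
      simp only [hΨ]
      rw [e1, e2]
      simp only [RCLike.inner_apply]
      unfold psi
      rw [map_mul, Complex.conj_ofReal, ← Complex.exp_conj]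
      have e3 : ((hbp α1 α2 m ξ : ℝ) : ℂ) * ((hbp α1 α2 m ξ : ℝ) : ℂ) =
          ((Real.exp (-(α1 * (ξ.1 - m.1) ^ 2)) : ℝ) : ℂ) *
          ((Real.exp (-(α2 * (ξ.2 - m.2) ^ 2)) : ℝ) : ℂ) := by
        rw [← Complex.ofReal_mul, hbp_sq, ← Complex.ofReal_mul]
        rfl
      have e4 : cexp (((((c k).1 * ξ.1 + (c k).2 * ξ.2 + t k * (ξ.1 ^ 2 + ξ.2 ^ 2) : ℝ)) : ℂ) * I) *
          cexp (conj ((((c n).1 * ξ.1 + (c n).2 * ξ.2 + t n * (ξ.1 ^ 2 + ξ.2 ^ 2) : ℝ) : ℂ) * I)) =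
          cexp ((((c k - c n).1 * ξ.1 + (t k - t n) * ξ.1 ^ 2 : ℝ) : ℂ) * I) *
          cexp ((((c k - c n).2 * ξ.2 + (t k - t n) * ξ.2 ^ 2 : ℝ) : ℂ) * I) := by
        rw [← Complex.exp_add, ← Complex.exp_add]
        congr 1
        simp only [map_mul, Complex.conj_ofReal, conj_I, Prod.fst_sub, Prod.snd_sub]
        push_cast
        ring
      calc _ = (((hbp α1 α2 m ξ : ℝ) : ℂ) * ((hbp α1 α2 m ξ : ℝ) : ℂ)) *
          (cexp (((((c k).1 * ξ.1 + (c k).2 * ξ.2 + t k * (ξ.1 ^ 2 + ξ.2 ^ 2) : ℝ)) : ℂ) * I) *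
          cexp (conj ((((c n).1 * ξ.1 + (c n).2 * ξ.2 + t n * (ξ.1 ^ 2 + ξ.2 ^ 2) : ℝ) : ℂ) * I)))
            := by ring
        _ = _ := by rw [e3, e4]; ring
    rw [e0, Measure.volume_eq_prod, integral_prod_mul (μ := (volume : Measure ℝ))
      (ν := (volume : Measure ℝ))
      (fun a : ℝ => ((Real.exp (-(α1 * (a - m.1) ^ 2)) : ℝ) : ℂ) *
          cexp ((((c k - c n).1 * a + (t k - t n) * a ^ 2 : ℝ) : ℂ) * I))
      (fun a : ℝ => ((Real.exp (-(α2 * (a - m.2) ^ 2)) : ℝ) : ℂ) *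
          cexp ((((c k - c n).2 * a + (t k - t n) * a ^ 2 : ℝ) : ℂ) * I)),
      norm_mul, gram1 h1, gram1 h2]
    rfl
  have i3 : ENNReal.ofReal (‖FF‖ ^ 2) = ∫⁻ ξ, ENNReal.ofReal (bump α1 α2 m ξ) * ‖f ξ‖ₑ ^ 2 := by
    have e1 : ENNReal.ofReal (‖FF‖ ^ 2) = ‖FF‖ₑ ^ 2 := by
      rw [ENNReal.ofReal_pow (norm_nonneg _), ofReal_norm]
    have e2 : ‖FF‖ₑ = eLpNorm (fun ξ => hb ξ * f ξ) 2 volume := Lp.enorm_toLp hF
    have e3 : (eLpNorm (fun ξ => hb ξ * f ξ) 2 volume) ^ 2 =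
        ∫⁻ ξ, ‖hb ξ * f ξ‖ₑ ^ 2 := by
      rw [eLpNorm_eq_lintegral_rpow_enorm_toReal (by norm_num) (by norm_num)]
      rw [← ENNReal.rpow_natCast, ← ENNReal.rpow_mul]
      norm_num
    rw [e1, e2, e3]
    refine lintegral_congr fun ξ => ?_
    simp only [hhb]
    rw [enorm_mul, mul_pow, enorm_r (hbp_nonneg _ _ _ _), ← ENNReal.ofReal_pow (hbp_nonneg _ _ _ _),
      pow_two, hbp_sq]
  have key := sch3 s (fun n => (g n : ℝ)) (fun n => (NNReal.coe_nonneg (g n))) Ψ FF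
  simp only [i1, i2] at key
  have key2 := ENNReal.ofReal_le_ofReal key
  have hG := G_nonneg α1 α2
  have n1 : ∀ n, 0 ≤ (g n : ℝ) * ‖co f α1 α2 (c n) (t n) m‖ ^ 2 := fun n =>
    mul_nonneg (NNReal.coe_nonneg (g n)) (sq_nonneg _)
  rw [ENNReal.ofReal_pow (Finset.sum_nonneg fun n _ => n1 n),
    ENNReal.ofReal_sum_of_nonneg (fun n _ => n1 n), show (‖FF‖ ^ 6 : ℝ) = (‖FF‖ ^ 2) ^ 3 by ring,
    ENNReal.ofReal_mul (by positivity), ENNReal.ofReal_pow (by positivity), i3] at key2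
  have e1 : ∀ n, ENNReal.ofReal ((g n : ℝ) * ‖co f α1 α2 (c n) (t n) m‖ ^ 2) =
      (g n : ℝ≥0∞) * ‖co f α1 α2 (c n) (t n) m‖ₑ ^ 2 := by
    intro n
    rw [ENNReal.ofReal_mul (NNReal.coe_nonneg (g n)), ENNReal.ofReal_pow (norm_nonneg _), ofReal_norm,
      ENNReal.ofReal_coe_nnreal]
  simp_rw [e1] at key2
  refine key2.trans (le_of_eq ?_)
  congr 1
  have n3 : ∀ n k l, 0 ≤ (g n : ℝ) * g k * g l * (G α1 α2 (c k - c n) (t k - t n) m *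
      G α1 α2 (c l - c k) (t l - t k) m * G α1 α2 (c n - c l) (t n - t l) m) := fun n k l =>
    mul_nonneg (mul_nonneg (mul_nonneg (NNReal.coe_nonneg (g n)) (NNReal.coe_nonneg (g k))) (NNReal.coe_nonneg (g l)))
      (mul_nonneg (mul_nonneg (hG _ _ _) (hG _ _ _)) (hG _ _ _))
  rw [ENNReal.ofReal_sum_of_nonneg (fun n _ => Finset.sum_nonneg fun k _ =>
    Finset.sum_nonneg fun l _ => n3 n k l)]
  refine Finset.sum_congr rfl fun n _ => ?_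
  rw [ENNReal.ofReal_sum_of_nonneg (fun k _ => Finset.sum_nonneg fun l _ => n3 n k l)]
  refine Finset.sum_congr rfl fun k _ => ?_
  rw [ENNReal.ofReal_sum_of_nonneg (fun l _ => n3 n k l)]
  refine Finset.sum_congr rfl fun l _ => ?_
  rw [ENNReal.ofReal_mul (mul_nonneg (mul_nonneg (NNReal.coe_nonneg (g n)) (NNReal.coe_nonneg (g k))) (NNReal.coe_nonneg (g l))),
    ENNReal.ofReal_mul (mul_nonneg (NNReal.coe_nonneg (g n)) (NNReal.coe_nonneg (g k))), ENNReal.ofReal_mul (NNReal.coe_nonneg (g n)),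
    ENNReal.ofReal_mul (mul_nonneg (hG _ _ _) (hG _ _ _)), ENNReal.ofReal_mul (hG _ _ _),
    ENNReal.ofReal_coe_nnreal, ENNReal.ofReal_coe_nnreal, ENNReal.ofReal_coe_nnreal]

end Pool.Agent.K4H46.MO
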