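import Mathlib
import Pool.Agent.K4H46.MO.Coh

set_option autoImplicit false

/-! The trilinear kernel. -/

namespace Pool.Agent.K4H46.MO

open MeasureTheory Set Complex
open scoped ENNReal NNReal ComplexConjugate

theorem G_sup {θ : ℝ} (h0 : 0 ≤ θ) (h1 : θ ≤ 1) {α1 α2 : ℝ} (hα1 : 1 ≤ α1) (hα2 : 1 ≤ α2)
    (c : ℝ × ℝ) (T : ℝ) (m : ℝ × ℝ) :
    G α1 α2 c T m ≤ 2 * Real.pi * (α1 * α2) ^ (-((1 - θ) / 2)) * ((1 + |T|)⁻¹) ^ θ := by
  have hT : 0 < 1 + |T| := by positivity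
  have hα10 : 0 < α1 := by linarith
  have hα20 : 0 < α2 := by linarith
  have k1 := g1_sup h0 h1 hα1 T c.1 m.1
  have k2 := g1_sup h0 h1 hα2 T c.2 m.2
  refine le_of_sq_le_sq ?_ (by positivity)
  unfold G
  rw [mul_pow]
  refine (mul_le_mul k1 k2 (sq_nonneg _) (by positivity)).trans (le_of_eq ?_)
  rw [mul_pow, mul_pow, mul_pow, ← Real.rpow_natCast ((α1 * α2) ^ _), ← Real.rpow_mul
    (by positivity), ← Real.rpow_natCast (((1 + |T|)⁻¹) ^ θ), ← Real.rpow_mul (by positivity),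
    Real.mul_rpow hα10.le hα20.le, Real.inv_rpow hT.le, Real.rpow_neg hT.le]
  have e1 : -((1 - θ) / 2) * ((2 : ℕ) : ℝ) = -(1 - θ) := by push_cast; ring
  have e2 : (1 + |T|) ^ (θ * ((2 : ℕ) : ℝ)) = (1 + |T|) ^ θ * (1 + |T|) ^ θ := by
    rw [← Real.rpow_add hT]
    congr 1
    push_cast
    ring
  rw [e1, e2, mul_inv]
  ring

/-- the weight in the plane -/
noncomputable def w2 (m : ℝ × ℝ) : ℝ := w1 m.1 * w1 m.2

theorem w2_nonneg (m : ℝ × ℝ) : 0 ≤ w2 m := mul_nonneg (w1_nonneg _) (w1_nonneg _)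

theorem g1_meas (α T c : ℝ) : Measurable (g1 α T c) := by unfold g1; fun_prop

theorem w1_meas : Measurable w1 := by unfold w1; fun_prop

theorem w2_meas : Measurable w2 := (w1_meas.comp measurable_fst).mul (w1_meas.comp measurable_snd)

theorem G_meas (α1 α2 : ℝ) (c : ℝ × ℝ) (T : ℝ) : Measurable (G α1 α2 c T) :=
  ((g1_meas _ _ _).comp measurable_fst).mul ((g1_meas _ _ _).comp measurable_snd)

theorem G_L2 : ∃ C : ℝ, 0 < C ∧ ∀ α1 α2 : ℝ, 1 ≤ α1 → 1 ≤ α2 → ∀ (c : ℝ × ℝ) (T : ℝ),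
    ∫⁻ m : ℝ × ℝ, ENNReal.ofReal (w2 m * G α1 α2 c T m ^ 2) ≤
      ENNReal.ofReal (C * (α1 * α2) ^ (-(1 / 2) : ℝ) * ((1 + |T|)⁻¹) ^ 2) := by
  obtain ⟨C, hC, h⟩ := g1_L2
  refine ⟨C ^ 2, by positivity, fun α1 α2 hα1 hα2 c T => ?_⟩
  have hα10 : 0 < α1 := by linarith
  have hα20 : 0 < α2 := by linarith
  have e1 : ∀ m : ℝ × ℝ, ENNReal.ofReal (w2 m * G α1 α2 c T m ^ 2) =
      ENNReal.ofReal (w1 m.1 * g1 α1 T c.1 m.1 ^ 2) *
      ENNReal.ofReal (w1 m.2 * g1 α2 T c.2 m.2 ^ 2) := by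
    intro m
    rw [← ENNReal.ofReal_mul (mul_nonneg (w1_nonneg _) (sq_nonneg _))]
    congr 1
    unfold w2 G
    ring
  have mm : ∀ α c : ℝ, Measurable fun a : ℝ => ENNReal.ofReal (w1 a * g1 α T c a ^ 2) := fun α c =>
    (w1_meas.mul ((g1_meas α T c).pow_const 2)).ennreal_ofReal
  simp_rw [e1]
  rw [Measure.volume_eq_prod, lintegral_prod_mul
    (f := fun a : ℝ => ENNReal.ofReal (w1 a * g1 α1 T c.1 a ^ 2))
    (g := fun a : ℝ => ENNReal.ofReal (w1 a * g1 α2 T c.2 a ^ 2)) (mm _ _).aemeasurable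
    (mm _ _).aemeasurable]
  refine (mul_le_mul' (h α1 hα1 T c.1) (h α2 hα2 T c.2)).trans (le_of_eq ?_)
  rw [← ENNReal.ofReal_mul (by positivity)]
  congr 1
  rw [Real.rpow_neg (by positivity), ← Real.sqrt_eq_rpow, Real.sqrt_mul hα10.le]
  rw [mul_inv]
  ring

/-- the trilinear integral, one assignment -/
theorem kap {θ : ℝ} (h0 : 0 ≤ θ) (h1 : θ ≤ 1) : ∃ C : ℝ, 0 < C ∧ ∀ α1 α2 : ℝ, 1 ≤ α1 → 1 ≤ α2 →
    ∀ (ca cb cc : ℝ × ℝ) (Ta Tb Tc : ℝ),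
    ∫⁻ m : ℝ × ℝ, ENNReal.ofReal (w2 m) * (ENNReal.ofReal (G α1 α2 ca Ta m) *
      ENNReal.ofReal (G α1 α2 cb Tb m) * ENNReal.ofReal (G α1 α2 cc Tc m)) ≤
      ENNReal.ofReal (C * (α1 * α2) ^ (-(1 - θ / 2)) *
        (((1 + |Ta|)⁻¹) ^ θ * (1 + |Tb|)⁻¹ * (1 + |Tc|)⁻¹)) := by
  obtain ⟨C, hC, h⟩ := G_L2
  refine ⟨2 * Real.pi * C, by positivity, fun α1 α2 hα1 hα2 ca cb cc Ta Tb Tc => ?_⟩
  have hα10 : 0 < α1 := by linarith
  have hα20 : 0 < α2 := by linarith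
  set x : ℝ := (1 + |Ta|)⁻¹ with hx
  set y : ℝ := (1 + |Tb|)⁻¹ with hy
  set z : ℝ := (1 + |Tc|)⁻¹ with hz
  have hx0 : 0 < x := by positivity
  have hy0 : 0 < y := by positivity
  have hz0 : 0 < z := by positivity
  set P : ℝ := α1 * α2 with hP
  have hP0 : 0 < P := by positivity
  set S : ℝ := 2 * Real.pi * P ^ (-((1 - θ) / 2)) * x ^ θ with hS
  have hS0 : 0 < S := by positivity
  have hG := G_nonneg α1 α2
  have key : ∀ m, ENNReal.ofReal (w2 m) * (ENNReal.ofReal (G α1 α2 ca Ta m) *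
      ENNReal.ofReal (G α1 α2 cb Tb m) * ENNReal.ofReal (G α1 α2 cc Tc m)) ≤
      ENNReal.ofReal (S / 2 * (z / y)) * ENNReal.ofReal (w2 m * G α1 α2 cb Tb m ^ 2) +
      ENNReal.ofReal (S / 2 * (y / z)) * ENNReal.ofReal (w2 m * G α1 α2 cc Tc m ^ 2) := by
    intro m
    have hb := hG cb Tb m
    have hc := hG cc Tc m
    have ha := hG ca Ta m
    have hw := w2_nonneg m
    rw [← ENNReal.ofReal_mul ha, ← ENNReal.ofReal_mul (mul_nonneg ha hb), ← ENNReal.ofReal_mul hw,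
      ← ENNReal.ofReal_mul (by positivity), ← ENNReal.ofReal_mul (by positivity),
      ← ENNReal.ofReal_add (by positivity) (by positivity)]
    apply ENNReal.ofReal_le_ofReal
    have k1 : G α1 α2 ca Ta m ≤ S := G_sup h0 h1 hα1 hα2 ca Ta m
    set b := G α1 α2 cb Tb m
    set d := G α1 α2 cc Tc m
    have k2 : 2 * (b * d) ≤ z / y * b ^ 2 + y / z * d ^ 2 := by
      have e1 : z / y * b ^ 2 + y / z * d ^ 2 - 2 * (b * d) = (z * b - y * d) ^ 2 / (y * z) := by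
        field_simp
        ring
      have e2 : 0 ≤ (z * b - y * d) ^ 2 / (y * z) := by positivity
      linarith
    calc w2 m * (G α1 α2 ca Ta m * b * d) ≤ w2 m * (S * b * d) := by gcongr
      _ = S / 2 * w2 m * (2 * (b * d)) := by ring
      _ ≤ S / 2 * w2 m * (z / y * b ^ 2 + y / z * d ^ 2) :=
          mul_le_mul_of_nonneg_left k2 (by positivity)
      _ = _ := by ring
  have mm : ∀ (c : ℝ × ℝ) (T : ℝ), Measurable fun m => ENNReal.ofReal (w2 m * G α1 α2 c T m ^ 2) :=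
    fun c T => (w2_meas.mul ((G_meas α1 α2 c T).pow_const 2)).ennreal_ofReal
  refine (lintegral_mono key).trans ?_
  rw [lintegral_add_left ((mm _ _).const_mul _), lintegral_const_mul _ (mm _ _),
    lintegral_const_mul _ (mm _ _)]
  refine (add_le_add (mul_le_mul_right (h α1 α2 hα1 hα2 cb Tb) _)
    (mul_le_mul_right (h α1 α2 hα1 hα2 cc Tc) _)).trans (le_of_eq ?_)
  rw [← ENNReal.ofReal_mul (by positivity), ← ENNReal.ofReal_mul (by positivity),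
    ← ENNReal.ofReal_add (by positivity) (by positivity)]
  congr 1
  have e1 : P ^ (-(1 - θ / 2)) = P ^ (-((1 - θ) / 2)) * P ^ (-(1 / 2) : ℝ) := by
    rw [← Real.rpow_add hP0]
    congr 1
    ring
  rw [e1]
  simp only [hS]
  rw [← hy, ← hz]
  field_simp
  ring

/-- one half of the minimum -/
theorem tri1 {θ x y z : ℝ} (h0 : 0 ≤ θ) (h1 : θ ≤ 1) (hx : 0 < x) (hy : 0 < y) (hz : 0 < z)
    (hyx : y ≤ x) (hzy : z ≤ y) : x ^ θ * y * z ≤ (x * y) ^ (1 + θ / 2) := by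
  have k1 : z ≤ x ^ (1 - θ / 2) * y ^ (θ / 2) := by
    calc z ≤ y := hzy
      _ = y ^ (1 - θ / 2) * y ^ (θ / 2) := by
          rw [← Real.rpow_add hy]; simp
      _ ≤ _ := by
          refine mul_le_mul_of_nonneg_right (Real.rpow_le_rpow hy.le hyx (by linarith))
            (by positivity)
  calc x ^ θ * y * z ≤ x ^ θ * y * (x ^ (1 - θ / 2) * y ^ (θ / 2)) :=
        mul_le_mul_of_nonneg_left k1 (by positivity)
    _ = (x ^ θ * x ^ (1 - θ / 2)) * (y ^ (1 : ℝ) * y ^ (θ / 2)) := by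
        rw [Real.rpow_one]; ring
    _ = _ := by
        rw [← Real.rpow_add hx, ← Real.rpow_add hy, Real.mul_rpow hx.le hy.le]
        congr 2
        ring

theorem tri2 {θ x y z : ℝ} (h0 : 0 ≤ θ) (h1 : θ ≤ 1) (hx : 0 < x) (hy : 0 < y) (hz : 0 < z)
    (hyx : y ≤ x) (hzx : z ≤ x) : x ^ θ * y * z ≤
      (x * y) ^ (1 + θ / 2) + (z * x) ^ (1 + θ / 2) := by
  rcases le_total z y with h | h
  · have := tri1 h0 h1 hx hy hz hyx h
    have h2 : 0 ≤ (z * x) ^ (1 + θ / 2) := by positivity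
    linarith
  · have := tri1 h0 h1 hx hz hy hzx h
    have h2 : 0 ≤ (x * y) ^ (1 + θ / 2) := by positivity
    rw [mul_comm z x]
    have e : x ^ θ * y * z = x ^ θ * z * y := by ring
    rw [e]
    linarith

/-- the trilinear integral, symmetric form -/
theorem kaps {θ : ℝ} (h0 : 0 ≤ θ) (h1 : θ ≤ 1) : ∃ C : ℝ, 0 < C ∧ ∀ α1 α2 : ℝ, 1 ≤ α1 → 1 ≤ α2 →
    ∀ (ca cb cc : ℝ × ℝ) (Ta Tb Tc : ℝ),
    ∫⁻ m : ℝ × ℝ, ENNReal.ofReal (w2 m) * (ENNReal.ofReal (G α1 α2 ca Ta m) *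
      ENNReal.ofReal (G α1 α2 cb Tb m) * ENNReal.ofReal (G α1 α2 cc Tc m)) ≤
      ENNReal.ofReal (C * (α1 * α2) ^ (-(1 - θ / 2)) *
        (((1 + |Ta|)⁻¹ * (1 + |Tb|)⁻¹) ^ (1 + θ / 2) + ((1 + |Tb|)⁻¹ * (1 + |Tc|)⁻¹) ^ (1 + θ / 2) +
          ((1 + |Tc|)⁻¹ * (1 + |Ta|)⁻¹) ^ (1 + θ / 2))) := by
  obtain ⟨C, hC, h⟩ := kap h0 h1
  refine ⟨C, hC, fun α1 α2 hα1 hα2 ca cb cc Ta Tb Tc => ?_⟩
  have ha := h α1 α2 hα1 hα2 ca cb cc Ta Tb Tc
  have hb := h α1 α2 hα1 hα2 cb ca cc Tb Ta Tc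
  have hc := h α1 α2 hα1 hα2 cc ca cb Tc Ta Tb
  have e2 : ∀ m, ENNReal.ofReal (w2 m) * (ENNReal.ofReal (G α1 α2 cb Tb m) *
      ENNReal.ofReal (G α1 α2 ca Ta m) * ENNReal.ofReal (G α1 α2 cc Tc m)) =
      ENNReal.ofReal (w2 m) * (ENNReal.ofReal (G α1 α2 ca Ta m) *
      ENNReal.ofReal (G α1 α2 cb Tb m) * ENNReal.ofReal (G α1 α2 cc Tc m)) := fun m => by ring
  have e3 : ∀ m, ENNReal.ofReal (w2 m) * (ENNReal.ofReal (G α1 α2 cc Tc m) *
      ENNReal.ofReal (G α1 α2 ca Ta m) * ENNReal.ofReal (G α1 α2 cb Tb m)) =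
      ENNReal.ofReal (w2 m) * (ENNReal.ofReal (G α1 α2 ca Ta m) *
      ENNReal.ofReal (G α1 α2 cb Tb m) * ENNReal.ofReal (G α1 α2 cc Tc m)) := fun m => by ring
  simp_rw [e2] at hb
  simp_rw [e3] at hc
  set x : ℝ := (1 + |Ta|)⁻¹ with hx
  set y : ℝ := (1 + |Tb|)⁻¹ with hy
  set z : ℝ := (1 + |Tc|)⁻¹ with hz
  have hx0 : 0 < x := by positivity
  have hy0 : 0 < y := by positivity
  have hz0 : 0 < z := by positivity
  have hxy : 0 ≤ (x * y) ^ (1 + θ / 2) := by positivity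
  have hyz : 0 ≤ (y * z) ^ (1 + θ / 2) := by positivity
  have hzx : 0 ≤ (z * x) ^ (1 + θ / 2) := by positivity
  have hK : 0 ≤ C * (α1 * α2) ^ (-(1 - θ / 2)) := by positivity
  rcases le_total y x with h3 | h3
  · rcases le_total z x with h4 | h4
    · refine ha.trans (ENNReal.ofReal_le_ofReal (mul_le_mul_of_nonneg_left ?_ hK))
      have := tri2 h0 h1 hx0 hy0 hz0 h3 h4
      linarith
    · refine hc.trans (ENNReal.ofReal_le_ofReal (mul_le_mul_of_nonneg_left ?_ hK))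
      have := tri2 h0 h1 hz0 hx0 hy0 h4 (h3.trans h4)
      linarith
  · rcases le_total z y with h4 | h4
    · refine hb.trans (ENNReal.ofReal_le_ofReal (mul_le_mul_of_nonneg_left ?_ hK))
      have := tri2 h0 h1 hy0 hx0 hz0 h3 h4
      rw [mul_comm y x, mul_comm z y] at this
      linarith
    · refine hc.trans (ENNReal.ofReal_le_ofReal (mul_le_mul_of_nonneg_left ?_ hK))
      have := tri2 h0 h1 hz0 hx0 hy0 (h3.trans h4) h4
      linarith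

end Pool.Agent.K4H46.MO
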