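import Mathlib
import Pool.Agent.K4H46.MO.Tri
import Pool.Agent.K4H46.MO.Sum

set_option autoImplicit false

/-! The discrete-time theorem. -/

namespace Pool.Agent.K4H46.MO

open MeasureTheory Set Complex
open scoped ENNReal NNReal ComplexConjugate

/-- the admissible densities -/
structure Okf (f : ℝ × ℝ → ℂ) : Prop where
  meas : Measurable f
  int : Integrable f
  l2 : MemLp f 2
  supp : ∀ ξ, f ξ ≠ 0 → |ξ.1| ≤ 1 / 2 ∧ |ξ.2| ≤ 1 / 2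

/-- the weight whose cube is `w2` -/
noncomputable def om1 (m : ℝ) : ℝ := Real.exp (1 / 8) * Real.exp (-(1 / 4 * m ^ 2))

noncomputable def om (m : ℝ × ℝ) : ℝ := om1 m.1 * om1 m.2

theorem om_nonneg (m : ℝ × ℝ) : 0 ≤ om m := by unfold om om1; positivity

theorem om_cube (m : ℝ × ℝ) : om m ^ 3 = w2 m := by
  have h : ∀ a : ℝ, om1 a ^ 3 = w1 a := by
    intro a
    unfold om1 w1
    rw [mul_pow, ← Real.exp_nat_mul, ← Real.exp_nat_mul]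
    congr 2
    · norm_num
    · push_cast; ring
  unfold om w2
  rw [mul_pow, h, h]

theorem hb1_le {α : ℝ} (hα : 1 ≤ α) {s : ℝ} (hs : |s| ≤ 1 / 2) (m : ℝ) :
    Real.exp (-(α / 2 * (s - m) ^ 2)) ≤ om1 m := by
  unfold om1
  rw [← Real.exp_add]
  apply Real.exp_le_exp.2
  have h1 : s ^ 2 ≤ 1 / 4 := by
    have := sq_abs s
    have h2 := abs_nonneg s
    nlinarith
  have h3 : (s - m) ^ 2 ≤ α * (s - m) ^ 2 := by nlinarith [sq_nonneg (s - m)]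
  nlinarith [sq_nonneg (2 * s - m)]

theorem hbp_le_om {α1 α2 : ℝ} (h1 : 1 ≤ α1) (h2 : 1 ≤ α2) {ξ : ℝ × ℝ}
    (hξ : |ξ.1| ≤ 1 / 2 ∧ |ξ.2| ≤ 1 / 2) (m : ℝ × ℝ) : hbp α1 α2 m ξ ≤ om m := by
  unfold hbp om
  exact mul_le_mul (hb1_le h1 hξ.1 _) (hb1_le h2 hξ.2 _) (Real.exp_pos _).le
    (by unfold om1; positivity)

theorem hbp_meas (α1 α2 : ℝ) : Measurable fun p : (ℝ × ℝ) × (ℝ × ℝ) => hbp α1 α2 p.1 p.2 := by
  unfold hbp
  fun_prop

/-- the mass of the half bump -/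
noncomputable def P0 (α1 α2 : ℝ) : ℝ≥0∞ := ENNReal.ofReal (2 * Real.pi * (α1 * α2) ^ (-(1 / 2) : ℝ))

theorem hbp_lint {α1 α2 : ℝ} (h1 : 0 < α1) (h2 : 0 < α2) (m : ℝ × ℝ) :
    ∫⁻ ξ, ENNReal.ofReal (hbp α1 α2 m ξ) = P0 α1 α2 := by
  have h := bump_lint (α1 := α1 / 2) (α2 := α2 / 2) (by positivity) (by positivity) m
  have e : ∀ ξ, hbp α1 α2 m ξ = bump (α1 / 2) (α2 / 2) m ξ := fun ξ => rfl
  simp_rw [e]
  rw [h, ← ENNReal.ofReal_mul (by positivity), ← Real.sqrt_mul (by positivity)]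
  unfold P0
  congr 1
  rw [Real.rpow_neg (by positivity), ← Real.sqrt_eq_rpow, ← Real.sqrt_inv]
  have e2 : Real.pi / (α1 / 2) * (Real.pi / (α2 / 2)) = (2 * Real.pi) ^ 2 * (α1 * α2)⁻¹ := by
    field_simp
  rw [e2, Real.sqrt_mul (by positivity), Real.sqrt_sq (by positivity)]

theorem hbp_symm (α1 α2 : ℝ) (m ξ : ℝ × ℝ) : hbp α1 α2 m ξ = hbp α1 α2 ξ m := by
  unfold hbp
  congr 3 <;> ring

/-- the local mass -/
noncomputable def HH (f : ℝ × ℝ → ℂ) (α1 α2 : ℝ) (m : ℝ × ℝ) : ℝ≥0∞ :=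
  ∫⁻ ξ, ENNReal.ofReal (hbp α1 α2 m ξ) * ‖f ξ‖ₑ ^ 2

theorem HH_meas {f : ℝ × ℝ → ℂ} (hf : Measurable f) (α1 α2 : ℝ) : Measurable (HH f α1 α2) := by
  unfold HH
  exact Measurable.lintegral_prod_right'
    (f := fun p : (ℝ × ℝ) × (ℝ × ℝ) => ENNReal.ofReal (hbp α1 α2 p.1 p.2) * ‖f p.2‖ₑ ^ 2)
    ((hbp_meas α1 α2).ennreal_ofReal.mul ((hf.comp measurable_snd).enorm.pow_const 2))

theorem HH_int {f : ℝ × ℝ → ℂ} (hf : Measurable f) {α1 α2 : ℝ} (h1 : 0 < α1) (h2 : 0 < α2) :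
    ∫⁻ m, HH f α1 α2 m ^ (3 / 2 : ℝ) ≤
      P0 α1 α2 ^ (3 / 2 : ℝ) * ∫⁻ ξ, ‖f ξ‖ₑ ^ 3 := by
  have k1 : ∀ m, HH f α1 α2 m ^ (3 / 2 : ℝ) ≤ P0 α1 α2 ^ (1 / 2 : ℝ) *
      ∫⁻ ξ, ENNReal.ofReal (hbp α1 α2 m ξ) * ‖f ξ‖ₑ ^ 3 := by
    intro m
    have hm : Measurable fun ξ => ENNReal.ofReal (hbp α1 α2 m ξ) :=
      ((hbp_meas α1 α2).comp (measurable_const.prodMk measurable_id)).ennreal_ofReal
    have hm3 : Measurable fun ξ => ENNReal.ofReal (hbp α1 α2 m ξ) ^ (2 / 3 : ℝ) * ‖f ξ‖ₑ ^ 2 :=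
      (hm.pow_const _).mul (hf.enorm.pow_const 2)
    have hh := ENNReal.lintegral_mul_le_Lp_mul_Lq (volume : Measure (ℝ × ℝ))
      (p := 3) (q := 3 / 2) (by constructor <;> norm_num)
      (f := fun ξ => ENNReal.ofReal (hbp α1 α2 m ξ) ^ (1 / 3 : ℝ))
      (g := fun ξ => ENNReal.ofReal (hbp α1 α2 m ξ) ^ (2 / 3 : ℝ) * ‖f ξ‖ₑ ^ 2)
      (hm.pow_const _).aemeasurable hm3.aemeasurable
    have e1 : ∀ ξ, ((fun ξ => ENNReal.ofReal (hbp α1 α2 m ξ) ^ (1 / 3 : ℝ)) *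
        (fun ξ => ENNReal.ofReal (hbp α1 α2 m ξ) ^ (2 / 3 : ℝ) * ‖f ξ‖ₑ ^ 2)) ξ =
        ENNReal.ofReal (hbp α1 α2 m ξ) * ‖f ξ‖ₑ ^ 2 := by
      intro ξ
      simp only [Pi.mul_apply]
      rw [← mul_assoc, ← ENNReal.rpow_add_of_nonneg _ _ (by norm_num) (by norm_num)]
      norm_num
    have e2 : ∀ ξ, (ENNReal.ofReal (hbp α1 α2 m ξ) ^ (1 / 3 : ℝ)) ^ (3 : ℝ) =
        ENNReal.ofReal (hbp α1 α2 m ξ) := by
      intro ξ
      rw [← ENNReal.rpow_mul]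
      norm_num
    have e3 : ∀ ξ, (ENNReal.ofReal (hbp α1 α2 m ξ) ^ (2 / 3 : ℝ) * ‖f ξ‖ₑ ^ 2) ^ (3 / 2 : ℝ) =
        ENNReal.ofReal (hbp α1 α2 m ξ) * ‖f ξ‖ₑ ^ 3 := by
      intro ξ
      rw [ENNReal.mul_rpow_of_nonneg _ _ (by norm_num), ← ENNReal.rpow_mul,
        ← ENNReal.rpow_natCast, ← ENNReal.rpow_mul, ← ENNReal.rpow_natCast]
      norm_num
    simp_rw [e1, e2, e3] at hh
    rw [hbp_lint h1 h2] at hh
    have h3 := ENNReal.rpow_le_rpow hh (z := 3 / 2) (by norm_num)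
    refine h3.trans (le_of_eq ?_)
    rw [ENNReal.mul_rpow_of_nonneg _ _ (by norm_num), ← ENNReal.rpow_mul, ← ENNReal.rpow_mul]
    norm_num
  have hm2 : Measurable fun p : (ℝ × ℝ) × (ℝ × ℝ) =>
      ENNReal.ofReal (hbp α1 α2 p.1 p.2) * ‖f p.2‖ₑ ^ 3 :=
    (hbp_meas α1 α2).ennreal_ofReal.mul ((hf.comp measurable_snd).enorm.pow_const 3)
  calc ∫⁻ m, HH f α1 α2 m ^ (3 / 2 : ℝ)
      ≤ ∫⁻ m, P0 α1 α2 ^ (1 / 2 : ℝ) *
          ∫⁻ ξ, ENNReal.ofReal (hbp α1 α2 m ξ) * ‖f ξ‖ₑ ^ 3 := lintegral_mono k1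
    _ = P0 α1 α2 ^ (1 / 2 : ℝ) *
          ∫⁻ m, ∫⁻ ξ, ENNReal.ofReal (hbp α1 α2 m ξ) * ‖f ξ‖ₑ ^ 3 := by
        rw [lintegral_const_mul]
        exact hm2.lintegral_prod_right'
    _ = P0 α1 α2 ^ (1 / 2 : ℝ) *
          ∫⁻ ξ, ∫⁻ m, ENNReal.ofReal (hbp α1 α2 m ξ) * ‖f ξ‖ₑ ^ 3 := by
        rw [lintegral_lintegral_swap hm2.aemeasurable]
    _ = P0 α1 α2 ^ (1 / 2 : ℝ) * ∫⁻ ξ, P0 α1 α2 * ‖f ξ‖ₑ ^ 3 := by
        congr 1
        refine lintegral_congr fun ξ => ?_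
        have hm : Measurable fun m => ENNReal.ofReal (hbp α1 α2 m ξ) :=
          ((hbp_meas α1 α2).comp (measurable_id.prodMk measurable_const)).ennreal_ofReal
        rw [lintegral_mul_const _ hm]
        simp_rw [hbp_symm α1 α2 _ ξ]
        rw [hbp_lint h1 h2]
    _ = _ := by
        rw [lintegral_const_mul _ (hf.enorm.pow_const 3), ← mul_assoc]
        congr 1
        have e4 : P0 α1 α2 ^ (1 / 2 : ℝ) * P0 α1 α2 =
            P0 α1 α2 ^ (1 / 2 : ℝ) * P0 α1 α2 ^ (1 : ℝ) := by rw [ENNReal.rpow_one]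
        rw [e4, ← ENNReal.rpow_add_of_nonneg _ _ (by norm_num) (by norm_num)]
        norm_num

theorem co_le {f : ℝ × ℝ → ℂ} (hf : Okf f) {α1 α2 : ℝ} (h1 : 1 ≤ α1) (h2 : 1 ≤ α2) (m : ℝ × ℝ) :
    ∫⁻ ξ, ENNReal.ofReal (bump α1 α2 m ξ) * ‖f ξ‖ₑ ^ 2 ≤
      ENNReal.ofReal (om m) * HH f α1 α2 m := by
  unfold HH
  have hm : Measurable fun ξ => ENNReal.ofReal (hbp α1 α2 m ξ) * ‖f ξ‖ₑ ^ 2 :=
    ((hbp_meas α1 α2).comp (measurable_const.prodMk measurable_id)).ennreal_ofReal.mul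
      (hf.meas.enorm.pow_const 2)
  rw [← lintegral_const_mul _ hm]
  refine lintegral_mono fun ξ => ?_
  by_cases hξ : f ξ = 0
  · simp [hξ]
  · rw [← mul_assoc, ← ENNReal.ofReal_mul (om_nonneg m), ← hbp_sq]
    gcongr
    · exact hbp_nonneg _ _ _ _
    · exact hbp_le_om h1 h2 (hf.supp ξ hξ) m

theorem cuberoot {a b : ℝ≥0∞} (h : a ^ 3 ≤ b) : a ≤ b ^ (1 / 3 : ℝ) := by
  have := ENNReal.rpow_le_rpow h (z := 1 / 3) (by norm_num)
  rw [← ENNReal.rpow_natCast, ← ENNReal.rpow_mul] at this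
  norm_num at this
  simpa using this

theorem co_meas {f : ℝ × ℝ → ℂ} (hf : Measurable f) (α1 α2 : ℝ) (c : ℝ × ℝ) (t : ℝ) :
    Measurable (co f α1 α2 c t) := by
  unfold co
  have hm : Measurable fun p : (ℝ × ℝ) × (ℝ × ℝ) => (bump α1 α2 p.1 p.2 : ℂ) *
    (cexp (-((c.1 * p.2.1 + c.2 * p.2.2 + t * (p.2.1 ^ 2 + p.2.2 ^ 2) : ℝ) : ℂ) * I) * f p.2) := by
    refine Measurable.mul ?_ (Measurable.mul ?_ (hf.comp measurable_snd))
    · unfold bump; fun_prop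
    · fun_prop
  exact (hm.stronglyMeasurable.integral_prod_right).measurable

/-- the finite version -/
theorem discfin {θ : ℝ} (h0 : 0 < θ) (h1 : θ ≤ 1) : ∃ C : ℝ≥0∞, C ≠ ∞ ∧
    ∀ (f : ℝ × ℝ → ℂ), Okf f → ∀ α1 α2 : ℝ, 1 ≤ α1 → 1 ≤ α2 → ∀ (s : Finset ℤ) (g : ℤ → ℝ≥0)
      (c : ℤ → ℝ × ℝ) (τ : ℝ),
      ∑ n ∈ s, (g n : ℝ≥0∞) * ∫⁻ x, ENNReal.ofReal (gw α1 α2 (c n) x) * ‖ex f x (n + τ)‖ₑ ^ 2 ≤
        C * ENNReal.ofReal ((α1 * α2) ^ ((1 + θ) / 6)) * (∫⁻ ξ, ‖f ξ‖ₑ ^ 3) ^ (2 / 3 : ℝ) *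
          (∑' n, (g n : ℝ≥0∞) ^ 3) ^ (1 / 3 : ℝ) := by
  obtain ⟨K, hK, hkap⟩ := kaps h0.le h1
  set β : ℝ := 1 + θ / 2 with hβ
  have hβ1 : 1 < β := by rw [hβ]; linarith
  set Y : ℝ≥0∞ := ∑' j : ℤ, yk β j with hY
  have hYt : Y ≠ ∞ := yk_sum hβ1
  refine ⟨ENNReal.ofReal (8 * Real.pi) * (ENNReal.ofReal K * (9 * Y ^ 2)) ^ (1 / 3 : ℝ), ?_, ?_⟩
  · refine ENNReal.mul_ne_top ENNReal.ofReal_ne_top (ENNReal.rpow_ne_top_of_nonneg (by norm_num) ?_)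
    exact ENNReal.mul_ne_top ENNReal.ofReal_ne_top
      (ENNReal.mul_ne_top (by norm_num) (ENNReal.pow_ne_top hYt))
  intro f hf α1 α2 hα1 hα2 s g c τ
  have hα10 : 0 < α1 := by linarith
  have hα20 : 0 < α2 := by linarith
  set P : ℝ := α1 * α2 with hP
  have hP0 : 0 < P := by positivity
  -- the trace
  set Tr : ℝ × ℝ → ℝ≥0∞ := fun m => ∑ n ∈ s, ∑ k ∈ s, ∑ l ∈ s, (g n : ℝ≥0∞) * g k * g l *
        (ENNReal.ofReal (G α1 α2 (c k - c n) (((k : ℝ) + τ) - (n + τ)) m) *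
          ENNReal.ofReal (G α1 α2 (c l - c k) (((l : ℝ) + τ) - (k + τ)) m) *
          ENNReal.ofReal (G α1 α2 (c n - c l) (((n : ℝ) + τ) - (l + τ)) m)) with hTr
  have hGm : ∀ (c : ℝ × ℝ) (T : ℝ), Measurable fun m => ENNReal.ofReal (G α1 α2 c T m) := fun c T =>
    (G_meas α1 α2 c T).ennreal_ofReal
  have hTrm : Measurable Tr := by
    simp only [hTr]
    refine Finset.measurable_sum _ fun n _ => Finset.measurable_sum _ fun k _ =>
      Finset.measurable_sum _ fun l _ => Measurable.const_mul ?_ _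
    exact ((hGm _ _).mul (hGm _ _)).mul (hGm _ _)
  -- pointwise
  have hS : ∀ m, ∑ n ∈ s, (g n : ℝ≥0∞) * ‖co f α1 α2 (c n) (n + τ) m‖ₑ ^ 2 ≤
      HH f α1 α2 m * (ENNReal.ofReal (w2 m) * Tr m) ^ (1 / 3 : ℝ) := by
    intro m
    have k1 := coh hf.l2 hα10 hα20 s g c (fun n => (n : ℝ) + τ) m
    have k2 : (∑ n ∈ s, (g n : ℝ≥0∞) * ‖co f α1 α2 (c n) (n + τ) m‖ₑ ^ 2) ^ 3 ≤
        (HH f α1 α2 m) ^ 3 * (ENNReal.ofReal (w2 m) * Tr m) := by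
      refine k1.trans ?_
      refine (mul_le_mul_left (pow_le_pow_left₀ zero_le (co_le hf hα1 hα2 m) 3) _).trans
        (le_of_eq ?_)
      rw [mul_pow, ← ENNReal.ofReal_pow (om_nonneg m), om_cube]
      ring
    refine (cuberoot k2).trans (le_of_eq ?_)
    rw [ENNReal.mul_rpow_of_nonneg _ _ (by norm_num)]
    congr 1
    rw [← ENNReal.rpow_natCast, ← ENNReal.rpow_mul]
    norm_num
  -- Hoelder
  have hwm : Measurable fun m => ENNReal.ofReal (w2 m) := w2_meas.ennreal_ofReal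
  have hHol := ENNReal.lintegral_mul_le_Lp_mul_Lq (volume : Measure (ℝ × ℝ))
      (p := 3 / 2) (q := 3) (by constructor <;> norm_num)
      (f := HH f α1 α2)
      (g := fun m => (ENNReal.ofReal (w2 m) * Tr m) ^ (1 / 3 : ℝ))
      (HH_meas hf.meas α1 α2).aemeasurable ((hwm.mul hTrm).pow_const _).aemeasurable
  have e3 : ∀ m, ((ENNReal.ofReal (w2 m) * Tr m) ^ (1 / 3 : ℝ)) ^ (3 : ℝ) =
      ENNReal.ofReal (w2 m) * Tr m := by
    intro m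
    rw [← ENNReal.rpow_mul]
    norm_num
  simp_rw [e3] at hHol
  -- the trace integral
  have hTrI : ∫⁻ m, ENNReal.ofReal (w2 m) * Tr m ≤
      ENNReal.ofReal (K * P ^ (-(1 - θ / 2))) * (9 * Y ^ 2 * ∑' n, (g n : ℝ≥0∞) ^ 3) := by
    have e1 : ∀ m, ENNReal.ofReal (w2 m) * Tr m = ∑ n ∈ s, ∑ k ∈ s, ∑ l ∈ s,
        (g n : ℝ≥0∞) * g k * g l * (ENNReal.ofReal (w2 m) *
        (ENNReal.ofReal (G α1 α2 (c k - c n) (((k : ℝ) + τ) - (n + τ)) m) *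
          ENNReal.ofReal (G α1 α2 (c l - c k) (((l : ℝ) + τ) - (k + τ)) m) *
          ENNReal.ofReal (G α1 α2 (c n - c l) (((n : ℝ) + τ) - (l + τ)) m))) := by
      intro m
      simp only [hTr]
      rw [Finset.mul_sum]
      refine Finset.sum_congr rfl fun n _ => ?_
      rw [Finset.mul_sum]
      refine Finset.sum_congr rfl fun k _ => ?_
      rw [Finset.mul_sum]
      refine Finset.sum_congr rfl fun l _ => ?_
      ring
    have hm3 : ∀ n k l : ℤ, Measurable fun m => (ENNReal.ofReal (w2 m) *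
        (ENNReal.ofReal (G α1 α2 (c k - c n) (((k : ℝ) + τ) - (n + τ)) m) *
          ENNReal.ofReal (G α1 α2 (c l - c k) (((l : ℝ) + τ) - (k + τ)) m) *
          ENNReal.ofReal (G α1 α2 (c n - c l) (((n : ℝ) + τ) - (l + τ)) m))) := fun n k l =>
      hwm.mul (((hGm _ _).mul (hGm _ _)).mul (hGm _ _))
    simp_rw [e1]
    rw [lintegral_finsetSum _ fun n _ => Finset.measurable_sum _ fun k _ =>
      Finset.measurable_sum _ fun l _ => (hm3 n k l).const_mul _]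
    have e2 : ∀ n k l : ℤ, ∫⁻ m, (g n : ℝ≥0∞) * g k * g l * (ENNReal.ofReal (w2 m) *
        (ENNReal.ofReal (G α1 α2 (c k - c n) (((k : ℝ) + τ) - (n + τ)) m) *
          ENNReal.ofReal (G α1 α2 (c l - c k) (((l : ℝ) + τ) - (k + τ)) m) *
          ENNReal.ofReal (G α1 α2 (c n - c l) (((n : ℝ) + τ) - (l + τ)) m))) ≤
        ENNReal.ofReal (K * P ^ (-(1 - θ / 2))) * ((g n : ℝ≥0∞) * g k * g l *
          (yk β (k - n) * yk β (l - k) + yk β (l - k) * yk β (n - l) +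
            yk β (n - l) * yk β (k - n))) := by
      intro n k l
      rw [lintegral_const_mul _ (hm3 n k l)]
      have h5 := hkap α1 α2 hα1 hα2 (c k - c n) (c l - c k) (c n - c l) (((k : ℝ) + τ) - (n + τ))
        (((l : ℝ) + τ) - (k + τ)) (((n : ℝ) + τ) - (l + τ))
      have a1 : ((k : ℝ) + τ) - (n + τ) = ((k - n : ℤ) : ℝ) := by push_cast; ring
      have a2 : ((l : ℝ) + τ) - (k + τ) = ((l - k : ℤ) : ℝ) := by push_cast; ring
      have a3 : ((n : ℝ) + τ) - (l + τ) = ((n - l : ℤ) : ℝ) := by push_cast; ring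
      rw [a1, a2, a3] at h5 ⊢
      refine (mul_le_mul_right h5 _).trans (le_of_eq ?_)
      have a4 : ∀ i j : ℤ, yk β i * yk β j =
          ENNReal.ofReal (((1 + |(i : ℝ)|)⁻¹ * (1 + |(j : ℝ)|)⁻¹) ^ (1 + θ / 2)) := by
        intro i j
        unfold yk
        rw [← ENNReal.ofReal_mul (by positivity), Real.mul_rpow (by positivity) (by positivity)]
      rw [a4, a4, a4, ← ENNReal.ofReal_add (by positivity) (by positivity),
        ← ENNReal.ofReal_add (by positivity) (by positivity), ENNReal.ofReal_mul (by positivity)]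
      ring
    calc ∑ n ∈ s, ∫⁻ m, ∑ k ∈ s, ∑ l ∈ s, (g n : ℝ≥0∞) * g k * g l * (ENNReal.ofReal (w2 m) *
        (ENNReal.ofReal (G α1 α2 (c k - c n) (((k : ℝ) + τ) - (n + τ)) m) *
          ENNReal.ofReal (G α1 α2 (c l - c k) (((l : ℝ) + τ) - (k + τ)) m) *
          ENNReal.ofReal (G α1 α2 (c n - c l) (((n : ℝ) + τ) - (l + τ)) m)))
        = ∑ n ∈ s, ∑ k ∈ s, ∑ l ∈ s, ∫⁻ m, (g n : ℝ≥0∞) * g k * g l * (ENNReal.ofReal (w2 m) *
        (ENNReal.ofReal (G α1 α2 (c k - c n) (((k : ℝ) + τ) - (n + τ)) m) *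
          ENNReal.ofReal (G α1 α2 (c l - c k) (((l : ℝ) + τ) - (k + τ)) m) *
          ENNReal.ofReal (G α1 α2 (c n - c l) (((n : ℝ) + τ) - (l + τ)) m))) := by
          refine Finset.sum_congr rfl fun n _ => ?_
          rw [lintegral_finsetSum _ fun k _ =>
            Finset.measurable_sum _ fun l _ => (hm3 n k l).const_mul _]
          refine Finset.sum_congr rfl fun k _ => ?_
          rw [lintegral_finsetSum _ fun l _ => (hm3 n k l).const_mul _]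
      _ ≤ ∑ n ∈ s, ∑ k ∈ s, ∑ l ∈ s, ENNReal.ofReal (K * P ^ (-(1 - θ / 2))) *
          ((g n : ℝ≥0∞) * g k * g l *
          (yk β (k - n) * yk β (l - k) + yk β (l - k) * yk β (n - l) +
            yk β (n - l) * yk β (k - n))) :=
          Finset.sum_le_sum fun n _ => Finset.sum_le_sum fun k _ => Finset.sum_le_sum fun l _ =>
            e2 n k l
      _ ≤ ∑' n, ∑' k, ∑' l, ENNReal.ofReal (K * P ^ (-(1 - θ / 2))) *
          ((g n : ℝ≥0∞) * g k * g l *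
          (yk β (k - n) * yk β (l - k) + yk β (l - k) * yk β (n - l) +
            yk β (n - l) * yk β (k - n))) :=
          (Finset.sum_le_sum fun n _ => (Finset.sum_le_sum fun k _ =>
            ENNReal.sum_le_tsum _).trans (ENNReal.sum_le_tsum _)).trans (ENNReal.sum_le_tsum _)
      _ ≤ _ := by
          simp_rw [ENNReal.tsum_mul_left]
          exact mul_le_mul_right (young3 (fun n => (g n : ℝ≥0∞)) (yk β)) _
  -- the assembly
  have hcm : ∀ n : ℤ, Measurable fun m => ‖co f α1 α2 (c n) (n + τ) m‖ₑ ^ 2 := fun n =>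
    (co_meas hf.meas α1 α2 (c n) (n + τ)).enorm.pow_const 2
  calc ∑ n ∈ s, (g n : ℝ≥0∞) * ∫⁻ x, ENNReal.ofReal (gw α1 α2 (c n) x) * ‖ex f x (n + τ)‖ₑ ^ 2
      = ∑ n ∈ s, (g n : ℝ≥0∞) * (ENNReal.ofReal (4 * α1 * α2) *
          ∫⁻ m, ‖co f α1 α2 (c n) (n + τ) m‖ₑ ^ 2) := by
        refine Finset.sum_congr rfl fun n _ => ?_
        rw [ident hf.meas hf.int hα10 hα20]
    _ = ENNReal.ofReal (4 * P) * ∫⁻ m, ∑ n ∈ s, (g n : ℝ≥0∞) *
          ‖co f α1 α2 (c n) (n + τ) m‖ₑ ^ 2 := by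
        rw [lintegral_finsetSum _ fun n _ => (hcm n).const_mul _, Finset.mul_sum]
        refine Finset.sum_congr rfl fun n _ => ?_
        rw [lintegral_const_mul _ (hcm n), hP, ← mul_assoc 4]
        ring
    _ ≤ ENNReal.ofReal (4 * P) * ∫⁻ m, (HH f α1 α2 *
          fun m => (ENNReal.ofReal (w2 m) * Tr m) ^ (1 / 3 : ℝ)) m := by
        gcongr with m
        exact hS m
    _ ≤ ENNReal.ofReal (4 * P) * ((P0 α1 α2 ^ (3 / 2 : ℝ) * ∫⁻ ξ, ‖f ξ‖ₑ ^ 3) ^ (1 / (3 / 2) : ℝ) *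
          (ENNReal.ofReal (K * P ^ (-(1 - θ / 2))) *
            (9 * Y ^ 2 * ∑' n, (g n : ℝ≥0∞) ^ 3)) ^ (1 / 3 : ℝ)) := by
        refine mul_le_mul_right (hHol.trans ?_) _
        exact mul_le_mul' (ENNReal.rpow_le_rpow (HH_int hf.meas hα10 hα20) (by norm_num))
          (ENNReal.rpow_le_rpow hTrI (by norm_num))
    _ = _ := by
        rw [ENNReal.mul_rpow_of_nonneg _ _ (by norm_num), ← ENNReal.rpow_mul,
          show (3 / 2 * (1 / (3 / 2)) : ℝ) = 1 by norm_num, ENNReal.rpow_one,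
          show (1 / (3 / 2) : ℝ) = 2 / 3 by norm_num]
        have e5 : ENNReal.ofReal (K * P ^ (-(1 - θ / 2))) *
            (9 * Y ^ 2 * ∑' n, (g n : ℝ≥0∞) ^ 3) =
            ENNReal.ofReal (P ^ (-(1 - θ / 2))) * ((ENNReal.ofReal K * (9 * Y ^ 2)) *
              ∑' n, (g n : ℝ≥0∞) ^ 3) := by
          rw [ENNReal.ofReal_mul hK.le]
          ring
        rw [e5, ENNReal.mul_rpow_of_nonneg _ _ (by norm_num),
          ENNReal.mul_rpow_of_nonneg (ENNReal.ofReal K * (9 * Y ^ 2)) _ (by norm_num),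
          ENNReal.ofReal_rpow_of_pos (by positivity), ← Real.rpow_mul hP0.le]
        have e6 : ENNReal.ofReal (4 * P) * P0 α1 α2 *
            ENNReal.ofReal (P ^ (-(1 - θ / 2) * (1 / 3))) =
            ENNReal.ofReal (8 * Real.pi) * ENNReal.ofReal (P ^ ((1 + θ) / 6)) := by
          unfold P0
          rw [← hP, ← ENNReal.ofReal_mul (by positivity), ← ENNReal.ofReal_mul (by positivity),
            ← ENNReal.ofReal_mul (by positivity)]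
          congr 1
          have e7 : P ^ ((1 + θ) / 6) = P ^ (1 : ℝ) * P ^ (-(1 / 2) : ℝ) *
              P ^ (-(1 - θ / 2) * (1 / 3)) := by
            rw [← Real.rpow_add hP0, ← Real.rpow_add hP0]
            congr 1
            ring
          rw [e7, Real.rpow_one]
          ring
        calc _ = (ENNReal.ofReal (4 * P) * P0 α1 α2 *
            ENNReal.ofReal (P ^ (-(1 - θ / 2) * (1 / 3)))) *
            ((∫⁻ ξ, ‖f ξ‖ₑ ^ 3) ^ (2 / 3 : ℝ) * ((ENNReal.ofReal K * (9 * Y ^ 2)) ^ (1 / 3 : ℝ) *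
              (∑' n, (g n : ℝ≥0∞) ^ 3) ^ (1 / 3 : ℝ))) := by ring
          _ = _ := by rw [e6]; ring

end Pool.Agent.K4H46.MO
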