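import Mathlib
import Pool.Agent.K4H46.MO.Disc

set_option autoImplicit false

/-! From discrete to continuous time. -/

namespace Pool.Agent.K4H46.MO

open MeasureTheory Set Complex
open scoped ENNReal NNReal ComplexConjugate

/-- the cubic mass -/
noncomputable def N3 (f : ℝ × ℝ → ℂ) : ℝ≥0∞ := (∫⁻ ξ, ‖f ξ‖ₑ ^ 3) ^ (2 / 3 : ℝ)

theorem ex_zero {f : ℝ × ℝ → ℂ} (hf : f =ᵐ[volume] 0) (x : ℝ × ℝ) (t : ℝ) : ex f x t = 0 := by
  unfold ex
  rw [← integral_zero (ℝ × ℝ) ℂ (μ := volume)]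
  refine integral_congr_ae ?_
  filter_upwards [hf] with ξ hξ
  rw [hξ, Pi.zero_apply, mul_zero]

theorem disc {θ : ℝ} (h0 : 0 < θ) (h1 : θ ≤ 1) : ∃ C : ℝ≥0∞, C ≠ ∞ ∧
    ∀ (f : ℝ × ℝ → ℂ), Okf f → ∀ α1 α2 : ℝ, 1 ≤ α1 → 1 ≤ α2 → ∀ (g : ℤ → ℝ≥0∞)
      (c : ℤ → ℝ × ℝ) (τ : ℝ),
      ∑' n, g n * ∫⁻ x, ENNReal.ofReal (gw α1 α2 (c n) x) * ‖ex f x (n + τ)‖ₑ ^ 2 ≤
        C * ENNReal.ofReal ((α1 * α2) ^ ((1 + θ) / 6)) * N3 f *
          (∑' n, g n ^ 3) ^ (1 / 3 : ℝ) := by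
  obtain ⟨C, hC, h⟩ := discfin h0 h1
  refine ⟨C + 1, by simp [hC], fun f hf α1 α2 hα1 hα2 g c τ => ?_⟩
  have hα10 : 0 < α1 := by linarith
  have hα20 : 0 < α2 := by linarith
  by_cases hN : ∫⁻ ξ, ‖f ξ‖ₑ ^ 3 = 0
  · have hf0 : f =ᵐ[volume] 0 := by
      rw [lintegral_eq_zero_iff (hf.meas.enorm.pow_const 3)] at hN
      filter_upwards [hN] with ξ hξ
      simpa using hξ
    simp_rw [ex_zero hf0]
    simp
  by_cases hg : ∑' n, g n ^ 3 = ∞
  · rw [hg, ENNReal.top_rpow_of_pos (by norm_num), ENNReal.mul_top]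
    · exact le_top
    · refine mul_ne_zero (mul_ne_zero (by simp) ?_) ?_
      · rw [Ne, ENNReal.ofReal_eq_zero, not_le]
        positivity
      · unfold N3
        rw [Ne, ENNReal.rpow_eq_zero_iff]
        rintro (⟨h, _⟩ | ⟨_, h⟩)
        · exact hN h
        · norm_num at h
  have hgn : ∀ n, g n ≠ ∞ := fun n hn => by
    have h2 := ENNReal.ne_top_of_tsum_ne_top hg n
    rw [hn] at h2
    simp at h2
  have e1 : ∀ n, g n = ((g n).toNNReal : ℝ≥0∞) := fun n => (ENNReal.coe_toNNReal (hgn n)).symm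
  rw [ENNReal.tsum_eq_iSup_sum]
  refine iSup_le fun s => ?_
  have := h f hf α1 α2 hα1 hα2 s (fun n => (g n).toNNReal) c τ
  simp_rw [← e1] at this
  refine this.trans ?_
  unfold N3
  gcongr
  exact le_self_add

theorem ex_meas {f : ℝ × ℝ → ℂ} (hf : Measurable f) :
    Measurable fun p : (ℝ × ℝ) × ℝ => ex f p.1 p.2 := by
  unfold ex
  have hm : Measurable fun q : ((ℝ × ℝ) × ℝ) × (ℝ × ℝ) =>
      cexp (-((q.1.1.1 * q.2.1 + q.1.1.2 * q.2.2 + q.1.2 * (q.2.1 ^ 2 + q.2.2 ^ 2) : ℝ) : ℂ) * I) *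
        f q.2 := by
    refine Measurable.mul ?_ (hf.comp measurable_snd)
    fun_prop
  exact (hm.stronglyMeasurable.integral_prod_right).measurable

theorem split_int {h : ℝ → ℝ≥0∞} (hm : Measurable h) :
    ∫⁻ t, h t = ∫⁻ τ in Ioc (0 : ℝ) 1, ∑' n : ℤ, h (n + τ) := by
  have hu : (⋃ n : ℤ, Ioc (n : ℝ) (n + 1)) = univ := iUnion_Ioc_intCast ℝ
  have hd : Pairwise (Function.onFun Disjoint fun n : ℤ => Ioc (n : ℝ) (n + 1)) :=
    pairwise_disjoint_Ioc_intCast ℝ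
  have hmn : ∀ n : ℤ, Measurable fun τ : ℝ => h (n + τ) := fun n =>
    hm.comp (measurable_const.add measurable_id)
  rw [← setLIntegral_univ, ← hu, lintegral_iUnion (fun n => measurableSet_Ioc) hd,
    lintegral_tsum fun n => (hmn n).aemeasurable]
  refine tsum_congr fun n => ?_
  have h1 := (measurePreserving_add_left (volume : Measure ℝ) (n : ℝ)).setLIntegral_comp_preimage
    (s := Ioc (n : ℝ) (n + 1)) measurableSet_Ioc hm
  rw [← h1]
  congr 2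
  ext τ
  simp

theorem l3ls {s : ℝ} (h1 : 1 ≤ s) (h3 : s ≤ 3) (g : ℤ → ℝ≥0∞) :
    (∑' n, g n ^ 3) ^ (1 / 3 : ℝ) ≤ (∑' n, g n ^ s) ^ (1 / s) := by
  have hs : 0 < s := by linarith
  set M := (∑' n, g n ^ s) ^ (1 / s) with hM
  have hMs : M ^ s = ∑' n, g n ^ s := by
    rw [hM, ← ENNReal.rpow_mul, one_div, inv_mul_cancel₀ hs.ne', ENNReal.rpow_one]
  have hle : ∀ n, g n ≤ M := fun n => by
    have h4 : g n ^ s ≤ M ^ s := by
      rw [hMs]
      exact ENNReal.le_tsum n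
    exact (ENNReal.rpow_le_rpow_iff hs).1 h4
  have h5 : ∑' n, g n ^ 3 ≤ M ^ 3 := by
    calc ∑' n, g n ^ 3 ≤ ∑' n, g n ^ s * M ^ (3 - s) := by
          refine ENNReal.tsum_le_tsum fun n => ?_
          have e1 : g n ^ 3 = g n ^ s * g n ^ (3 - s) := by
            rw [← ENNReal.rpow_add_of_nonneg _ _ hs.le (by linarith), ← ENNReal.rpow_natCast]
            congr 1
            push_cast
            ring
          rw [e1]
          exact mul_le_mul_right (ENNReal.rpow_le_rpow (hle n) (by linarith)) _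
      _ = M ^ s * M ^ (3 - s) := by rw [ENNReal.tsum_mul_right, hMs]
      _ = M ^ 3 := by
          rw [← ENNReal.rpow_add_of_nonneg _ _ hs.le (by linarith), ← ENNReal.rpow_natCast]
          congr 1
          push_cast
          ring
  have h6 := ENNReal.rpow_le_rpow h5 (z := 1 / 3) (by norm_num)
  rw [← ENNReal.rpow_natCast M 3, ← ENNReal.rpow_mul] at h6
  norm_num at h6
  simpa using h6

theorem jensen {s : ℝ} (h1 : 1 ≤ s) {h : ℝ → ℝ≥0∞} (hm : Measurable h) :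
    ∫⁻ τ in Ioc (0 : ℝ) 1, h τ ^ (1 / s) ≤ (∫⁻ τ in Ioc (0 : ℝ) 1, h τ) ^ (1 / s) := by
  have hs : 0 < s := by linarith
  rcases h1.eq_or_lt with h2 | h2
  · rw [← h2]
    simp
  · have hc : s.HolderConjugate (s / (s - 1)) := Real.HolderConjugate.conjExponent h2
    have := ENNReal.lintegral_mul_le_Lp_mul_Lq (volume.restrict (Ioc (0 : ℝ) 1)) hc
      (f := fun τ => h τ ^ (1 / s)) (g := fun _ => 1) (hm.pow_const _).aemeasurable
      aemeasurable_const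
    have e1 : ∀ τ, (h τ ^ (1 / s)) ^ s = h τ := fun τ => by
      rw [← ENNReal.rpow_mul, one_div, inv_mul_cancel₀ hs.ne', ENNReal.rpow_one]
    simp_rw [e1] at this
    simpa using this

/-- the continuous-time theorem, for Gaussian balls -/
theorem cont {θ : ℝ} (h0 : 0 < θ) (h1 : θ ≤ 1) : ∃ C : ℝ≥0∞, C ≠ ∞ ∧
    ∀ (f : ℝ × ℝ → ℂ), Okf f → ∀ α1 α2 : ℝ, 1 ≤ α1 → 1 ≤ α2 → ∀ s : ℝ, 1 ≤ s → s ≤ 3 →
      ∀ (w : ℝ → ℝ≥0∞) (c : ℝ → ℝ × ℝ), Measurable w → Measurable c →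
      ∫⁻ t, w t * ∫⁻ x, ENNReal.ofReal (gw α1 α2 (c t) x) * ‖ex f x t‖ₑ ^ 2 ≤
        C * ENNReal.ofReal ((α1 * α2) ^ ((1 + θ) / 6)) * N3 f *
          (∫⁻ t, w t ^ s) ^ (1 / s) := by
  obtain ⟨C, hC, h⟩ := disc h0 h1
  refine ⟨C, hC, fun f hf α1 α2 hα1 hα2 s hs1 hs3 w c hw hc => ?_⟩
  have hm : Measurable fun t => w t * ∫⁻ x, ENNReal.ofReal (gw α1 α2 (c t) x) * ‖ex f x t‖ₑ ^ 2 := by
    refine hw.mul ?_
    have h2 : Measurable fun p : ℝ × (ℝ × ℝ) => ENNReal.ofReal (gw α1 α2 (c p.1) p.2) *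
        ‖ex f p.2 p.1‖ₑ ^ 2 := by
      refine Measurable.mul (Measurable.ennreal_ofReal ?_) ?_
      · have h3 : Measurable fun q : (ℝ × ℝ) × (ℝ × ℝ) => gw α1 α2 q.1 q.2 := by
          unfold gw; fun_prop
        exact h3.comp ((hc.comp measurable_fst).prodMk measurable_snd)
      · exact ((ex_meas hf.meas).comp (measurable_snd.prodMk measurable_fst)).enorm.pow_const 2
    exact h2.lintegral_prod_right'
  rw [split_int hm, split_int (hw.pow_const s)]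
  set K : ℝ≥0∞ := C * ENNReal.ofReal ((α1 * α2) ^ ((1 + θ) / 6)) * N3 f with hK
  have hms : Measurable fun τ => ∑' n : ℤ, w (n + τ) ^ s :=
    Measurable.ennreal_tsum fun n => (hw.comp (measurable_const.add measurable_id)).pow_const s
  calc ∫⁻ τ in Ioc (0 : ℝ) 1, ∑' n : ℤ, w (n + τ) *
        ∫⁻ x, ENNReal.ofReal (gw α1 α2 (c (n + τ)) x) * ‖ex f x (n + τ)‖ₑ ^ 2
      ≤ ∫⁻ τ in Ioc (0 : ℝ) 1, K * (∑' n : ℤ, w (n + τ) ^ s) ^ (1 / s) := by
        refine lintegral_mono fun τ => ?_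
        refine (h f hf α1 α2 hα1 hα2 (fun n => w (n + τ)) (fun n => c (n + τ)) τ).trans ?_
        exact mul_le_mul_right (l3ls hs1 hs3 _) _
    _ = K * ∫⁻ τ in Ioc (0 : ℝ) 1, (∑' n : ℤ, w (n + τ) ^ s) ^ (1 / s) := by
        rw [lintegral_const_mul _ (hms.pow_const _)]
    _ ≤ _ := mul_le_mul_right (jensen hs1 hms) _

end Pool.Agent.K4H46.MO
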