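import Mathlib
import Pool.Agent.K4H46.MO.Ct

set_option autoImplicit false

/-! Local constancy and rectangles. -/

namespace Pool.Agent.K4H46.MO

open MeasureTheory Set Complex
open scoped ENNReal NNReal ComplexConjugate

/-- the modified density -/
noncomputable def ft (f : ℝ × ℝ → ℂ) (ξ : ℝ × ℝ) : ℂ :=
  ((Real.exp (ξ.1 ^ 2 + ξ.2 ^ 2) : ℝ) : ℂ) * f ξ

theorem ft_norm {f : ℝ × ℝ → ℂ} (hf : Okf f) (ξ : ℝ × ℝ) : ‖ft f ξ‖ ≤ Real.exp (1 / 2) * ‖f ξ‖ := by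
  unfold ft
  rw [norm_mul, Complex.norm_real, Real.norm_of_nonneg (Real.exp_pos _).le]
  by_cases h : f ξ = 0
  · simp [h]
  · obtain ⟨h1, h2⟩ := hf.supp ξ h
    gcongr
    have a1 : ξ.1 ^ 2 ≤ 1 / 4 := by
      have := sq_abs ξ.1
      nlinarith [abs_nonneg ξ.1]
    have a2 : ξ.2 ^ 2 ≤ 1 / 4 := by
      have := sq_abs ξ.2
      nlinarith [abs_nonneg ξ.2]
    linarith

theorem ft_ok {f : ℝ × ℝ → ℂ} (hf : Okf f) : Okf (ft f) := by
  have hm : Measurable (ft f) := by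
    unfold ft
    exact Measurable.mul (by fun_prop) hf.meas
  have hle : ∀ᵐ ξ : ℝ × ℝ, ‖ft f ξ‖ ≤ ‖((Real.exp (1 / 2) : ℝ) : ℂ) * f ξ‖ :=
    Filter.Eventually.of_forall fun ξ => by
      rw [norm_mul, Complex.norm_real, Real.norm_of_nonneg (Real.exp_pos _).le]
      exact ft_norm hf ξ
  refine ⟨hm, (hf.int.const_mul _).mono hm.aestronglyMeasurable hle,
    (hf.l2.const_mul _).mono hm.aestronglyMeasurable hle, fun ξ h => hf.supp ξ fun h0 => h ?_⟩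
  unfold ft
  rw [h0, mul_zero]

theorem ft_N3 {f : ℝ × ℝ → ℂ} (hf : Okf f) : N3 (ft f) ≤ ENNReal.ofReal (Real.exp 1) * N3 f := by
  unfold N3
  have h1 : ∫⁻ ξ, ‖ft f ξ‖ₑ ^ 3 ≤ ENNReal.ofReal (Real.exp (3 / 2)) * ∫⁻ ξ, ‖f ξ‖ₑ ^ 3 := by
    rw [← lintegral_const_mul _ (hf.meas.enorm.pow_const 3)]
    refine lintegral_mono fun ξ => ?_
    have h2 : ‖ft f ξ‖ₑ ≤ ENNReal.ofReal (Real.exp (1 / 2)) * ‖f ξ‖ₑ := by
      rw [← ofReal_norm, ← ofReal_norm, ← ENNReal.ofReal_mul (Real.exp_pos _).le]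
      exact ENNReal.ofReal_le_ofReal (ft_norm hf ξ)
    refine (pow_le_pow_left₀ zero_le h2 3).trans (le_of_eq ?_)
    rw [mul_pow, ← ENNReal.ofReal_pow (Real.exp_pos _).le, ← Real.exp_nat_mul]
    norm_num
  refine (ENNReal.rpow_le_rpow h1 (by norm_num)).trans (le_of_eq ?_)
  rw [ENNReal.mul_rpow_of_nonneg _ _ (by norm_num), ENNReal.ofReal_rpow_of_pos (Real.exp_pos _),
    ← Real.exp_mul]
  norm_num

theorem gw_nonneg (α1 α2 : ℝ) (c x : ℝ × ℝ) : 0 ≤ gw α1 α2 c x := by unfold gw; positivity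

theorem gw_le {α1 α2 : ℝ} (h1 : 0 < α1) (h2 : 0 < α2) (c x : ℝ × ℝ) : gw α1 α2 c x ≤ 1 := by
  unfold gw
  have a1 : Real.exp (-((x.1 - c.1) ^ 2 / (2 * α1))) ≤ 1 := by
    rw [Real.exp_le_one_iff]
    have : 0 ≤ (x.1 - c.1) ^ 2 / (2 * α1) := by positivity
    linarith
  have a2 : Real.exp (-((x.2 - c.2) ^ 2 / (2 * α2))) ≤ 1 := by
    rw [Real.exp_le_one_iff]
    have : 0 ≤ (x.2 - c.2) ^ 2 / (2 * α2) := by positivity
    linarith
  exact mul_le_one₀ a1 (Real.exp_pos _).le a2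

theorem gw_meas (α1 α2 : ℝ) : Measurable fun p : (ℝ × ℝ) × (ℝ × ℝ) => gw α1 α2 p.1 p.2 := by
  unfold gw
  fun_prop

theorem gw_lint {α1 α2 : ℝ} (h1 : 0 < α1) (h2 : 0 < α2) (c : ℝ × ℝ) :
    ∫⁻ x, ENNReal.ofReal (gw α1 α2 c x) = ENNReal.ofReal (Real.sqrt (2 * Real.pi * α1)) *
      ENNReal.ofReal (Real.sqrt (2 * Real.pi * α2)) := by
  have e1 : ∀ x : ℝ × ℝ, ENNReal.ofReal (gw α1 α2 c x) =
      ENNReal.ofReal (Real.exp (-((2 * α1)⁻¹ * (x.1 - c.1) ^ 2))) *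
      ENNReal.ofReal (Real.exp (-((2 * α2)⁻¹ * (x.2 - c.2) ^ 2))) := by
    intro x
    rw [← ENNReal.ofReal_mul (Real.exp_pos _).le]
    unfold gw
    congr 3
    · congr 1; ring
    · congr 1; ring
  simp_rw [e1]
  rw [Measure.volume_eq_prod, lintegral_prod_mul
    (f := fun a : ℝ => ENNReal.ofReal (Real.exp (-((2 * α1)⁻¹ * (a - c.1) ^ 2))))
    (g := fun a : ℝ => ENNReal.ofReal (Real.exp (-((2 * α2)⁻¹ * (a - c.2) ^ 2))))
    (by fun_prop) (by fun_prop), gint (by positivity), gint (by positivity)]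
  congr 3 <;> field_simp

/-- the averaging identity -/
theorem avg {f : ℝ × ℝ → ℂ} (hf : Okf f) (x : ℝ × ℝ) (t : ℝ) :
    ex f x t = ∫ z : ℝ × ℝ, (((4 * Real.pi)⁻¹ * gw 2 2 x z : ℝ) : ℂ) * ex (ft f) z t := by
  have hfo := ft_ok hf
  have h4 : 0 < 4 * Real.pi := by positivity
  set h : ℝ × ℝ → ℝ × ℝ → ℂ := fun z ξ => (((4 * Real.pi)⁻¹ * gw 2 2 x z : ℝ) : ℂ) *
    (cexp (-((z.1 * ξ.1 + z.2 * ξ.2 + t * (ξ.1 ^ 2 + ξ.2 ^ 2) : ℝ) : ℂ) * I) * ft f ξ) with hh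
  have hgi : Integrable fun z : ℝ × ℝ => (((4 * Real.pi)⁻¹ * gw 2 2 x z : ℝ) : ℂ) := by
    have h1 : Integrable fun z : ℝ × ℝ => gw 2 2 x z := by
      refine ⟨((gw_meas 2 2).comp (measurable_const.prodMk measurable_id)).aestronglyMeasurable, ?_⟩
      show ∫⁻ z, ‖gw 2 2 x z‖ₑ < ∞
      have e : ∀ z, ‖gw 2 2 x z‖ₑ = ENNReal.ofReal (gw 2 2 x z) := fun z => by
        rw [Real.enorm_of_nonneg (gw_nonneg _ _ _ _)]
      simp_rw [e]
      rw [gw_lint (by norm_num) (by norm_num)]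
      exact ENNReal.mul_lt_top ENNReal.ofReal_lt_top ENNReal.ofReal_lt_top
    exact (h1.const_mul _).ofReal
  have hint : Integrable (Function.uncurry h) (volume.prod volume) := by
    have h1 := hgi.mul_prod hfo.int
    have h2 : AEStronglyMeasurable (fun p : (ℝ × ℝ) × (ℝ × ℝ) =>
        cexp (-((p.1.1 * p.2.1 + p.1.2 * p.2.2 + t * (p.2.1 ^ 2 + p.2.2 ^ 2) : ℝ) : ℂ) * I))
        (volume.prod volume) := by
      refine Measurable.aestronglyMeasurable ?_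
      fun_prop
    refine (h1.bdd_mul (c := 1) h2 (Filter.Eventually.of_forall fun p => (norm_e _).le)).congr
      (Filter.Eventually.of_forall fun p => ?_)
    simp only [hh, Function.uncurry]
    ring
  have e1 : ∫ z : ℝ × ℝ, (((4 * Real.pi)⁻¹ * gw 2 2 x z : ℝ) : ℂ) * ex (ft f) z t =
      ∫ z, ∫ ξ, h z ξ := by
    refine integral_congr_ae (Filter.Eventually.of_forall fun z => ?_)
    simp only [hh]
    rw [integral_const_mul]
    rfl
  rw [e1, integral_integral_swap hint]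
  unfold ex
  refine integral_congr_ae (Filter.Eventually.of_forall fun ξ => ?_)
  simp only [hh]
  have e2 : ∀ z : ℝ × ℝ, (((4 * Real.pi)⁻¹ * gw 2 2 x z : ℝ) : ℂ) *
      (cexp (-((z.1 * ξ.1 + z.2 * ξ.2 + t * (ξ.1 ^ 2 + ξ.2 ^ 2) : ℝ) : ℂ) * I) * ft f ξ) =
      ((((4 * Real.pi)⁻¹ : ℝ) : ℂ) * (cexp (-((t * (ξ.1 ^ 2 + ξ.2 ^ 2) : ℝ) : ℂ) * I) * ft f ξ)) *
      ((((Real.exp (-((z.1 - x.1) ^ 2 / (2 * 2))) : ℝ) : ℂ) * cexp (-((z.1 * ξ.1 : ℝ) : ℂ) * I)) *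
      (((Real.exp (-((z.2 - x.2) ^ 2 / (2 * 2))) : ℝ) : ℂ) *
        cexp (-((z.2 * ξ.2 : ℝ) : ℂ) * I))) := by
    intro z
    have e3 : cexp (-((z.1 * ξ.1 + z.2 * ξ.2 + t * (ξ.1 ^ 2 + ξ.2 ^ 2) : ℝ) : ℂ) * I) =
        cexp (-((z.1 * ξ.1 : ℝ) : ℂ) * I) * cexp (-((z.2 * ξ.2 : ℝ) : ℂ) * I) *
        cexp (-((t * (ξ.1 ^ 2 + ξ.2 ^ 2) : ℝ) : ℂ) * I) := by
      rw [← Complex.exp_add, ← Complex.exp_add]
      congr 1
      push_cast
      ring
    rw [e3]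
    unfold gw
    push_cast
    ring
  simp_rw [e2]
  rw [integral_const_mul, Measure.volume_eq_prod, integral_prod_mul (μ := (volume : Measure ℝ))
    (ν := (volume : Measure ℝ))
    (fun a : ℝ => ((Real.exp (-((a - x.1) ^ 2 / (2 * 2))) : ℝ) : ℂ) *
      cexp (-((a * ξ.1 : ℝ) : ℂ) * I))
    (fun a : ℝ => ((Real.exp (-((a - x.2) ^ 2 / (2 * 2))) : ℝ) : ℂ) *
      cexp (-((a * ξ.2 : ℝ) : ℂ) * I)), K1 (by norm_num), K1 (by norm_num)]
  have e4 : cexp (-((x.1 * ξ.1 + x.2 * ξ.2 + t * (ξ.1 ^ 2 + ξ.2 ^ 2) : ℝ) : ℂ) * I) =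
      cexp (-((x.1 * ξ.1 : ℝ) : ℂ) * I) * cexp (-((x.2 * ξ.2 : ℝ) : ℂ) * I) *
      cexp (-((t * (ξ.1 ^ 2 + ξ.2 ^ 2) : ℝ) : ℂ) * I) := by
    rw [← Complex.exp_add, ← Complex.exp_add]
    congr 1
    push_cast
    ring
  have e5 : ((Real.sqrt (2 * Real.pi * 2) * Real.exp (-(2 * ξ.1 ^ 2 / 2)) : ℝ) : ℂ) *
      ((Real.sqrt (2 * Real.pi * 2) * Real.exp (-(2 * ξ.2 ^ 2 / 2)) : ℝ) : ℂ) *
      (((4 * Real.pi)⁻¹ : ℝ) : ℂ) * ft f ξ = f ξ := by
    unfold ft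
    rw [← Complex.ofReal_mul, ← Complex.ofReal_mul, ← mul_assoc, ← Complex.ofReal_mul]
    have e6 : Real.sqrt (2 * Real.pi * 2) * Real.exp (-(2 * ξ.1 ^ 2 / 2)) *
        (Real.sqrt (2 * Real.pi * 2) * Real.exp (-(2 * ξ.2 ^ 2 / 2))) * (4 * Real.pi)⁻¹ *
        Real.exp (ξ.1 ^ 2 + ξ.2 ^ 2) = 1 := by
      have e7 : Real.sqrt (2 * Real.pi * 2) * Real.sqrt (2 * Real.pi * 2) = 4 * Real.pi := by
        rw [Real.mul_self_sqrt (by positivity)]
        ring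
      have e8 : Real.exp (-(2 * ξ.1 ^ 2 / 2)) * Real.exp (-(2 * ξ.2 ^ 2 / 2)) *
          Real.exp (ξ.1 ^ 2 + ξ.2 ^ 2) = 1 := by
        rw [← Real.exp_add, ← Real.exp_add, Real.exp_eq_one_iff]
        ring
      calc _ = (Real.sqrt (2 * Real.pi * 2) * Real.sqrt (2 * Real.pi * 2)) * (4 * Real.pi)⁻¹ *
          (Real.exp (-(2 * ξ.1 ^ 2 / 2)) * Real.exp (-(2 * ξ.2 ^ 2 / 2)) *
          Real.exp (ξ.1 ^ 2 + ξ.2 ^ 2)) := by ring
        _ = 1 := by rw [e7, e8, mul_one, mul_inv_cancel₀ h4.ne']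
    rw [e6, Complex.ofReal_one, one_mul]
  rw [e4]
  conv_lhs => rw [← e5]
  ring

theorem cs2 {k u : ℝ × ℝ → ℝ≥0∞} (hk : Measurable k) (hu : Measurable u) :
    (∫⁻ z, k z * u z) ^ 2 ≤ (∫⁻ z, k z) * ∫⁻ z, k z * u z ^ 2 := by
  have hh := ENNReal.lintegral_mul_le_Lp_mul_Lq (volume : Measure (ℝ × ℝ))
      (p := 2) (q := 2) (by constructor <;> norm_num)
      (f := fun z => k z ^ (1 / 2 : ℝ)) (g := fun z => k z ^ (1 / 2 : ℝ) * u z)
      (hk.pow_const _).aemeasurable ((hk.pow_const _).mul hu).aemeasurable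
  have e1 : ∀ z, ((fun z => k z ^ (1 / 2 : ℝ)) * (fun z => k z ^ (1 / 2 : ℝ) * u z)) z =
      k z * u z := by
    intro z
    simp only [Pi.mul_apply]
    rw [← mul_assoc, ← ENNReal.rpow_add_of_nonneg _ _ (by norm_num) (by norm_num)]
    norm_num
  have e2 : ∀ z, (k z ^ (1 / 2 : ℝ)) ^ (2 : ℝ) = k z := by
    intro z
    rw [← ENNReal.rpow_mul]
    norm_num
  have e3 : ∀ z, (k z ^ (1 / 2 : ℝ) * u z) ^ (2 : ℝ) = k z * u z ^ 2 := by
    intro z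
    rw [ENNReal.mul_rpow_of_nonneg _ _ (by norm_num), e2, ← ENNReal.rpow_natCast]
    norm_num
  simp_rw [e1, e2, e3] at hh
  refine (pow_le_pow_left₀ zero_le hh 2).trans (le_of_eq ?_)
  rw [mul_pow, ← ENNReal.rpow_natCast, ← ENNReal.rpow_mul, ← ENNReal.rpow_natCast,
    ← ENNReal.rpow_mul]
  norm_num

theorem ex_sq_le {f : ℝ × ℝ → ℂ} (hf : Okf f) (x : ℝ × ℝ) (t : ℝ) :
    ‖ex f x t‖ₑ ^ 2 ≤ ∫⁻ z, ENNReal.ofReal ((4 * Real.pi)⁻¹ * gw 2 2 x z) *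
      ‖ex (ft f) z t‖ₑ ^ 2 := by
  have h4 : 0 < 4 * Real.pi := by positivity
  have hkm : Measurable fun z => ENNReal.ofReal ((4 * Real.pi)⁻¹ * gw 2 2 x z) :=
    (((gw_meas 2 2).comp (measurable_const.prodMk measurable_id)).const_mul _).ennreal_ofReal
  have hum : Measurable fun z => ‖ex (ft f) z t‖ₑ :=
    ((ex_meas (ft_ok hf).meas).comp (measurable_id.prodMk measurable_const)).enorm
  have h1 : ‖ex f x t‖ₑ ≤ ∫⁻ z, ENNReal.ofReal ((4 * Real.pi)⁻¹ * gw 2 2 x z) *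
      ‖ex (ft f) z t‖ₑ := by
    conv_lhs => rw [avg hf x t]
    refine (enorm_integral_le_lintegral_enorm _).trans (lintegral_mono fun z => ?_)
    rw [enorm_mul, enorm_r (mul_nonneg (by positivity) (gw_nonneg _ _ _ _))]
  have h2 : ∫⁻ z, ENNReal.ofReal ((4 * Real.pi)⁻¹ * gw 2 2 x z) = 1 := by
    have hgm : Measurable fun z => ENNReal.ofReal (gw 2 2 x z) :=
      ((gw_meas 2 2).comp (measurable_const.prodMk measurable_id)).ennreal_ofReal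
    simp_rw [ENNReal.ofReal_mul (inv_nonneg.2 h4.le)]
    rw [lintegral_const_mul _ hgm, gw_lint (by norm_num) (by norm_num), ← ENNReal.ofReal_mul (by positivity),
      ← ENNReal.ofReal_mul (by positivity), Real.mul_self_sqrt (by positivity),
      show 2 * Real.pi * 2 = 4 * Real.pi by ring, inv_mul_cancel₀ h4.ne', ENNReal.ofReal_one]
  have h3 := cs2 hkm hum
  rw [h2, one_mul] at h3
  exact (pow_le_pow_left₀ zero_le h1 2).trans h3

/-- one variable -/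
theorem q1 {r : ℝ} (hr : 0 < r) (c z : ℝ) :
    ∫⁻ x in Ioo (c - r) (c + r), ENNReal.ofReal (Real.exp (-((z - x) ^ 2 / (2 * 2)))) ≤
      ENNReal.ofReal (Real.exp (1 / 8) * (2 + Real.sqrt (8 * Real.pi)) * min 1 r *
        Real.exp (-((z - c) ^ 2 / (2 * (8 * (max 1 r) ^ 2))))) := by
  set R := max 1 r with hR
  have hR1 : 1 ≤ R := le_max_left _ _
  have hRr : r ≤ R := le_max_right _ _
  have hR0 : 0 < R := by linarith
  set A : ℝ := Real.exp (1 / 8) * Real.exp (-((z - c) ^ 2 / (2 * (8 * R ^ 2)))) with hA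
  have hA0 : 0 < A := by positivity
  have key : ∀ x ∈ Ioo (c - r) (c + r), Real.exp (-((z - x) ^ 2 / (2 * 2))) ≤
      A * Real.exp (-(1 / 8 * (x - z) ^ 2)) := by
    intro x hx
    rw [hA, ← Real.exp_add, ← Real.exp_add]
    apply Real.exp_le_exp.2
    have hx2 : (x - c) ^ 2 ≤ R ^ 2 := by
      have : |x - c| ≤ R := by
        rw [abs_le]; constructor <;> linarith [hx.1, hx.2]
      calc (x - c) ^ 2 = |x - c| ^ 2 := (sq_abs _).symm
        _ ≤ R ^ 2 := pow_le_pow_left₀ (abs_nonneg _) this 2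
    have k1 : (z - c) ^ 2 ≤ 2 * (z - x) ^ 2 + 2 * (x - c) ^ 2 := by
      nlinarith [sq_nonneg ((z - x) - (x - c))]
    have k2 : (z - c) ^ 2 / (2 * (8 * R ^ 2)) ≤ (z - x) ^ 2 / 8 + 1 / 8 := by
      rw [div_le_iff₀ (by positivity)]
      have : (z - x) ^ 2 ≤ (z - x) ^ 2 * R ^ 2 := by
        have : (1 : ℝ) ≤ R ^ 2 := one_le_pow₀ hR1
        nlinarith [sq_nonneg (z - x)]
      nlinarith
    have k3 : (x - z) ^ 2 = (z - x) ^ 2 := by ring
    rw [k3]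
    linarith
  have m1 : Measurable fun x : ℝ => ENNReal.ofReal (Real.exp (-(1 / 8 * (x - z) ^ 2))) := by
    fun_prop
  have step : ∫⁻ x in Ioo (c - r) (c + r), ENNReal.ofReal (Real.exp (-((z - x) ^ 2 / (2 * 2)))) ≤
      ENNReal.ofReal A * ∫⁻ x in Ioo (c - r) (c + r),
        ENNReal.ofReal (Real.exp (-(1 / 8 * (x - z) ^ 2))) := by
    rw [← lintegral_const_mul _ m1]
    refine setLIntegral_mono (m1.const_mul _) fun x hx => ?_
    rw [← ENNReal.ofReal_mul hA0.le]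
    exact ENNReal.ofReal_le_ofReal (key x hx)
  have b1 : ∫⁻ x in Ioo (c - r) (c + r), ENNReal.ofReal (Real.exp (-(1 / 8 * (x - z) ^ 2))) ≤
      ENNReal.ofReal (2 * r) := by
    calc ∫⁻ x in Ioo (c - r) (c + r), ENNReal.ofReal (Real.exp (-(1 / 8 * (x - z) ^ 2)))
        ≤ ∫⁻ x in Ioo (c - r) (c + r), 1 := by
          refine lintegral_mono fun x => ?_
          rw [← ENNReal.ofReal_one]
          apply ENNReal.ofReal_le_ofReal
          rw [Real.exp_le_one_iff]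
          nlinarith [sq_nonneg (x - z)]
      _ = ENNReal.ofReal (2 * r) := by
          rw [setLIntegral_const, one_mul, Real.volume_Ioo]
          congr 1
          ring
  have b2 : ∫⁻ x in Ioo (c - r) (c + r), ENNReal.ofReal (Real.exp (-(1 / 8 * (x - z) ^ 2))) ≤
      ENNReal.ofReal (Real.sqrt (8 * Real.pi)) := by
    refine (setLIntegral_le_lintegral _ _).trans (le_of_eq ?_)
    rw [gint (by norm_num)]
    congr 2
    ring
  have b3 : ∫⁻ x in Ioo (c - r) (c + r), ENNReal.ofReal (Real.exp (-(1 / 8 * (x - z) ^ 2))) ≤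
      ENNReal.ofReal ((2 + Real.sqrt (8 * Real.pi)) * min 1 r) := by
    have hs : 0 ≤ Real.sqrt (8 * Real.pi) := Real.sqrt_nonneg _
    rcases le_total r 1 with h | h
    · rw [min_eq_right h]
      refine b1.trans (ENNReal.ofReal_le_ofReal ?_)
      nlinarith
    · rw [min_eq_left h]
      refine b2.trans (ENNReal.ofReal_le_ofReal ?_)
      linarith
  refine step.trans ((mul_le_mul_right b3 _).trans (le_of_eq ?_))
  rw [← ENNReal.ofReal_mul hA0.le, hA]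
  congr 1
  ring

/-- the rectangle -/
def Rect (c : ℝ × ℝ) (r1 r2 : ℝ) : Set (ℝ × ℝ) :=
  Ioo (c.1 - r1) (c.1 + r1) ×ˢ Ioo (c.2 - r2) (c.2 + r2)

theorem q2 {r1 r2 : ℝ} (h1 : 0 < r1) (h2 : 0 < r2) (c z : ℝ × ℝ) :
    ∫⁻ x in Rect c r1 r2, ENNReal.ofReal ((4 * Real.pi)⁻¹ * gw 2 2 x z) ≤
      ENNReal.ofReal ((Real.exp (1 / 8) * (2 + Real.sqrt (8 * Real.pi))) ^ 2 *
        (min 1 r1 * min 1 r2) *
        gw (8 * (max 1 r1) ^ 2) (8 * (max 1 r2) ^ 2) c z) := by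
  have hp : (4 * Real.pi)⁻¹ ≤ 1 := by
    rw [inv_le_one₀ (by positivity)]
    nlinarith [Real.pi_gt_three]
  have e1 : ∫⁻ x in Rect c r1 r2, ENNReal.ofReal ((4 * Real.pi)⁻¹ * gw 2 2 x z) ≤
      (∫⁻ x in Ioo (c.1 - r1) (c.1 + r1), ENNReal.ofReal (Real.exp (-((z.1 - x) ^ 2 / (2 * 2))))) *
      (∫⁻ x in Ioo (c.2 - r2) (c.2 + r2),
        ENNReal.ofReal (Real.exp (-((z.2 - x) ^ 2 / (2 * 2))))) := by
    unfold Rect
    rw [Measure.volume_eq_prod, ← Measure.prod_restrict, ← lintegral_prod_mul (by fun_prop)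
      (by fun_prop)]
    refine lintegral_mono fun x => ?_
    rw [← ENNReal.ofReal_mul (Real.exp_pos _).le]
    apply ENNReal.ofReal_le_ofReal
    have := gw_nonneg 2 2 x z
    calc (4 * Real.pi)⁻¹ * gw 2 2 x z ≤ 1 * gw 2 2 x z := mul_le_mul_of_nonneg_right hp this
      _ = _ := by rw [one_mul]; rfl
  refine e1.trans ((mul_le_mul' (q1 h1 _ _) (q1 h2 _ _)).trans (le_of_eq ?_))
  rw [← ENNReal.ofReal_mul (by positivity)]
  congr 1
  unfold gw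
  ring

/-- the growth function -/
noncomputable def mm (θ r : ℝ) : ℝ := min 1 r * (max 1 r) ^ ((1 + θ) / 3)

theorem mm_nonneg (θ : ℝ) {r : ℝ} (hr : 0 < r) : 0 ≤ mm θ r := by
  unfold mm
  have : 0 < min 1 r := lt_min one_pos hr
  positivity

theorem rect {θ : ℝ} (h0 : 0 < θ) (h1 : θ ≤ 1) : ∃ C : ℝ≥0∞, C ≠ ∞ ∧
    ∀ (f : ℝ × ℝ → ℂ), Okf f → ∀ r1 r2 : ℝ, 0 < r1 → 0 < r2 → ∀ s : ℝ, 1 ≤ s → s ≤ 3 →
      ∀ (w : ℝ → ℝ≥0∞) (c : ℝ → ℝ × ℝ), Measurable w → Measurable c →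
      ∫⁻ t, w t * ∫⁻ x in Rect (c t) r1 r2, ‖ex f x t‖ₑ ^ 2 ≤
        C * ENNReal.ofReal (mm θ r1 * mm θ r2) * N3 f * (∫⁻ t, w t ^ s) ^ (1 / s) := by
  obtain ⟨C, hC, h⟩ := cont h0 h1
  set B : ℝ := (Real.exp (1 / 8) * (2 + Real.sqrt (8 * Real.pi))) ^ 2 with hB
  have hB0 : 0 < B := by positivity
  refine ⟨ENNReal.ofReal (B * 64 ^ ((1 + θ) / 6)) * C * ENNReal.ofReal (Real.exp 1),
    ENNReal.mul_ne_top (ENNReal.mul_ne_top ENNReal.ofReal_ne_top hC) ENNReal.ofReal_ne_top, ?_⟩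
  intro f hf r1 r2 hr1 hr2 s hs1 hs3 w c hw hc
  set α1 : ℝ := 8 * (max 1 r1) ^ 2 with hα1
  set α2 : ℝ := 8 * (max 1 r2) ^ 2 with hα2
  have hM1 : 1 ≤ max 1 r1 := le_max_left _ _
  have hM2 : 1 ≤ max 1 r2 := le_max_left _ _
  have h11 : 1 ≤ α1 := by
    rw [hα1]
    have : (1 : ℝ) ≤ (max 1 r1) ^ 2 := one_le_pow₀ hM1
    linarith
  have h12 : 1 ≤ α2 := by
    rw [hα2]
    have : (1 : ℝ) ≤ (max 1 r2) ^ 2 := one_le_pow₀ hM2
    linarith
  have hmin1 : 0 < min 1 r1 := lt_min one_pos hr1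
  have hmin2 : 0 < min 1 r2 := lt_min one_pos hr2
  have hpt : ∀ t, ∫⁻ x in Rect (c t) r1 r2, ‖ex f x t‖ₑ ^ 2 ≤
      ENNReal.ofReal (B * (min 1 r1 * min 1 r2)) *
        ∫⁻ z, ENNReal.ofReal (gw α1 α2 (c t) z) * ‖ex (ft f) z t‖ₑ ^ 2 := by
    intro t
    have hz0 : Measurable fun z => ‖ex (ft f) z t‖ₑ :=
      ((ex_meas (ft_ok hf).meas).comp (measurable_id.prodMk measurable_const)).enorm
    have hz : Measurable fun z => ‖ex (ft f) z t‖ₑ ^ 2 := hz0.pow_const 2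
    have hj : Measurable fun p : (ℝ × ℝ) × (ℝ × ℝ) =>
        ENNReal.ofReal ((4 * Real.pi)⁻¹ * gw 2 2 p.1 p.2) * ‖ex (ft f) p.2 t‖ₑ ^ 2 :=
      (((gw_meas 2 2).const_mul _).ennreal_ofReal).mul (hz.comp measurable_snd)
    calc ∫⁻ x in Rect (c t) r1 r2, ‖ex f x t‖ₑ ^ 2
        ≤ ∫⁻ x in Rect (c t) r1 r2, ∫⁻ z, ENNReal.ofReal ((4 * Real.pi)⁻¹ * gw 2 2 x z) *
            ‖ex (ft f) z t‖ₑ ^ 2 := lintegral_mono fun x => ex_sq_le hf x t
      _ = ∫⁻ z, ∫⁻ x in Rect (c t) r1 r2, ENNReal.ofReal ((4 * Real.pi)⁻¹ * gw 2 2 x z) *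
            ‖ex (ft f) z t‖ₑ ^ 2 := by
          rw [lintegral_lintegral_swap hj.aemeasurable]
      _ ≤ ∫⁻ z, ENNReal.ofReal (B * (min 1 r1 * min 1 r2)) *
            (ENNReal.ofReal (gw α1 α2 (c t) z) * ‖ex (ft f) z t‖ₑ ^ 2) := by
          refine lintegral_mono fun z => ?_
          have hx : Measurable fun x => ENNReal.ofReal ((4 * Real.pi)⁻¹ * gw 2 2 x z) :=
            (((gw_meas 2 2).comp (measurable_id.prodMk measurable_const)).const_mul _).ennreal_ofReal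
          have q := q2 hr1 hr2 (c t) z
          rw [← hB, ← hα1, ← hα2, ENNReal.ofReal_mul (mul_nonneg hB0.le
            (mul_nonneg hmin1.le hmin2.le))] at q
          rw [lintegral_mul_const _ hx, ← mul_assoc]
          exact mul_le_mul_left q _
      _ = _ := by
          rw [lintegral_const_mul]
          exact ((gw_meas α1 α2).comp (measurable_const.prodMk measurable_id)).ennreal_ofReal.mul hz
  calc ∫⁻ t, w t * ∫⁻ x in Rect (c t) r1 r2, ‖ex f x t‖ₑ ^ 2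
      ≤ ∫⁻ t, ENNReal.ofReal (B * (min 1 r1 * min 1 r2)) *
          (w t * ∫⁻ z, ENNReal.ofReal (gw α1 α2 (c t) z) * ‖ex (ft f) z t‖ₑ ^ 2) := by
        refine lintegral_mono fun t => ?_
        refine (mul_le_mul_right (hpt t) _).trans (le_of_eq ?_)
        ring
    _ = ENNReal.ofReal (B * (min 1 r1 * min 1 r2)) *
          ∫⁻ t, w t * ∫⁻ z, ENNReal.ofReal (gw α1 α2 (c t) z) * ‖ex (ft f) z t‖ₑ ^ 2 := by
        rw [lintegral_const_mul' _ _ ENNReal.ofReal_ne_top]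
    _ ≤ ENNReal.ofReal (B * (min 1 r1 * min 1 r2)) *
          (C * ENNReal.ofReal ((α1 * α2) ^ ((1 + θ) / 6)) *
            (ENNReal.ofReal (Real.exp 1) * N3 f) * (∫⁻ t, w t ^ s) ^ (1 / s)) := by
        refine mul_le_mul_right ((h (ft f) (ft_ok hf) α1 α2 h11 h12 s hs1 hs3 w c hw hc).trans ?_) _
        gcongr
        exact ft_N3 hf
    _ = _ := by
        have e1 : (α1 * α2) ^ ((1 + θ) / 6) = 64 ^ ((1 + θ) / 6) *
            ((max 1 r1) ^ ((1 + θ) / 3) * (max 1 r2) ^ ((1 + θ) / 3)) := by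
          rw [← Real.mul_rpow (by positivity) (by positivity)]
          have e2 : α1 * α2 = 64 * (max 1 r1 * max 1 r2) ^ (2 : ℝ) := by
            rw [hα1, hα2, Real.rpow_two]
            ring
          rw [e2, Real.mul_rpow (by norm_num) (by positivity), ← Real.rpow_mul (by positivity)]
          congr 2
          ring
        have e3 : ENNReal.ofReal (B * (min 1 r1 * min 1 r2)) *
            ENNReal.ofReal ((α1 * α2) ^ ((1 + θ) / 6)) =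
            ENNReal.ofReal (B * 64 ^ ((1 + θ) / 6)) * ENNReal.ofReal (mm θ r1 * mm θ r2) := by
          rw [← ENNReal.ofReal_mul (by positivity), ← ENNReal.ofReal_mul (by positivity), e1]
          unfold mm
          congr 1
          ring
        calc _ = (ENNReal.ofReal (B * (min 1 r1 * min 1 r2)) *
            ENNReal.ofReal ((α1 * α2) ^ ((1 + θ) / 6))) * (C * (ENNReal.ofReal (Real.exp 1) *
              N3 f) * (∫⁻ t, w t ^ s) ^ (1 / s)) := by ring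
          _ = _ := by rw [e3]; ring

end Pool.Agent.K4H46.MO
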