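import Mathlib
import Pool.Agent.K4H46.MO.Lc

set_option autoImplicit false

/-! Weights whose slices are nonincreasing away from a centre. -/

namespace Pool.Agent.K4H46.MO

open MeasureTheory Set Complex
open scoped ENNReal NNReal ComplexConjugate

/-- the slices are nonincreasing away from the centre `c t` in both coordinates -/
def Uni (W : ℝ × ℝ → ℝ → ℝ≥0∞) (c : ℝ → ℝ × ℝ) : Prop :=
  ∀ t x y, x.1 ∈ uIcc (c t).1 y.1 → x.2 ∈ uIcc (c t).2 y.2 → W y t ≤ W x t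

/-- the displacements -/
noncomputable def dsp (q : Bool × ℤ) : ℝ := (if q.1 then 1 else -1) * (2 : ℝ) ^ q.2

theorem abs_dsp (q : Bool × ℤ) : |dsp q| = (2 : ℝ) ^ q.2 := by
  unfold dsp
  have : (0 : ℝ) < 2 ^ q.2 := by positivity
  split_ifs
  · rw [one_mul, abs_of_pos this]
  · rw [neg_one_mul, abs_neg, abs_of_pos this]

theorem exists_dsp {u : ℝ} (hu : u ≠ 0) : ∃ q : Bool × ℤ, dsp q ∈ uIcc 0 u ∧ |u| < 2 ^ (q.2 + 1) := by
  obtain ⟨i, hi⟩ := exists_mem_Ico_zpow (x := |u|) (y := (2 : ℝ)) (abs_pos.2 hu) (by norm_num)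
  have h2 : (0 : ℝ) < 2 ^ i := by positivity
  rcases lt_or_gt_of_ne hu with h | h
  · refine ⟨(false, i), ?_, hi.2⟩
    rw [uIcc_of_ge h.le]
    have := hi.1
    rw [abs_of_neg h] at this
    unfold dsp
    simp only [Bool.false_eq_true, if_false, mem_Icc]
    constructor <;> linarith
  · refine ⟨(true, i), ?_, hi.2⟩
    rw [uIcc_of_le h.le]
    have := hi.1
    rw [abs_of_pos h] at this
    unfold dsp
    simp only [if_true, mem_Icc]
    constructor <;> linarith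

theorem uIcc_shift {a u v : ℝ} (h : v ∈ uIcc 0 u) : a + v ∈ uIcc a (a + u) := by
  rw [mem_uIcc] at h ⊢
  rcases h with h | h
  · left; constructor <;> linarith
  · right; constructor <;> linarith

/-- the value at the corner -/
noncomputable def wv (W : ℝ × ℝ → ℝ → ℝ≥0∞) (c : ℝ → ℝ × ℝ) (p : (Bool × ℤ) × (Bool × ℤ))
    (t : ℝ) : ℝ≥0∞ := W ((c t).1 + dsp p.1, (c t).2 + dsp p.2) t

theorem cover {W : ℝ × ℝ → ℝ → ℝ≥0∞} {c : ℝ → ℝ × ℝ} (hW : Uni W c) (t : ℝ) {x : ℝ × ℝ}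
    (h1 : x.1 ≠ (c t).1) (h2 : x.2 ≠ (c t).2) : ∃ p : (Bool × ℤ) × (Bool × ℤ),
    W x t ≤ wv W c p t ∧ x ∈ Rect (c t) (2 ^ (p.1.2 + 1)) (2 ^ (p.2.2 + 1)) := by
  obtain ⟨q1, a1, b1⟩ := exists_dsp (sub_ne_zero.2 h1)
  obtain ⟨q2, a2, b2⟩ := exists_dsp (sub_ne_zero.2 h2)
  refine ⟨(q1, q2), ?_, ?_⟩
  · refine hW t _ _ ?_ ?_
    · have := uIcc_shift (a := (c t).1) a1
      simpa using this
    · have := uIcc_shift (a := (c t).2) a2
      simpa using this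
  · rw [abs_lt] at b1 b2
    refine ⟨⟨?_, ?_⟩, ⟨?_, ?_⟩⟩ <;> linarith

theorem ae_ne (a b : ℝ) : ∀ᵐ x : ℝ × ℝ, x.1 ≠ a ∧ x.2 ≠ b := by
  have h1 : ∀ᵐ x : ℝ × ℝ, x.1 ≠ a := by
    rw [ae_iff]
    have : {x : ℝ × ℝ | ¬ x.1 ≠ a} = {a} ×ˢ univ := by
      ext x; simp
    rw [this, Measure.volume_eq_prod, Measure.prod_prod]
    simp
  have h2 : ∀ᵐ x : ℝ × ℝ, x.2 ≠ b := by
    rw [ae_iff]
    have : {x : ℝ × ℝ | ¬ x.2 ≠ b} = univ ×ˢ {b} := by
      ext x; simp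
    rw [this, Measure.volume_eq_prod, Measure.prod_prod]
    simp
  filter_upwards [h1, h2] with x a b using ⟨a, b⟩

theorem wv_norm {W : ℝ × ℝ → ℝ → ℝ≥0∞} {c : ℝ → ℝ × ℝ} (hW : Uni W c) {s : ℝ} (hs : 0 < s)
    (p : (Bool × ℤ) × (Bool × ℤ)) (t : ℝ) :
    wv W c p t ^ s ≤ ENNReal.ofReal ((2 : ℝ) ^ (-p.1.2) * (2 : ℝ) ^ (-p.2.2)) *
      ∫⁻ x, W x t ^ s := by
  set B : Set (ℝ × ℝ) := uIcc (c t).1 ((c t).1 + dsp p.1) ×ˢ uIcc (c t).2 ((c t).2 + dsp p.2)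
    with hB
  have hvol : volume B = ENNReal.ofReal ((2 : ℝ) ^ p.1.2 * (2 : ℝ) ^ p.2.2) := by
    rw [hB, Measure.volume_eq_prod, Measure.prod_prod, Real.volume_interval, Real.volume_interval,
      add_sub_cancel_left, add_sub_cancel_left, abs_dsp, abs_dsp, ← ENNReal.ofReal_mul (by positivity)]
  have h1 : wv W c p t ^ s * volume B ≤ ∫⁻ x, W x t ^ s := by
    calc wv W c p t ^ s * volume B = ∫⁻ x in B, wv W c p t ^ s := by rw [setLIntegral_const]
      _ ≤ ∫⁻ x in B, W x t ^ s := by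
          refine setLIntegral_mono' (measurableSet_uIcc.prod measurableSet_uIcc) fun x hx => ?_
          refine ENNReal.rpow_le_rpow ?_ hs.le
          exact hW t x _ hx.1 hx.2
      _ ≤ _ := setLIntegral_le_lintegral _ _
  have hpos : (0 : ℝ) < (2 : ℝ) ^ p.1.2 * (2 : ℝ) ^ p.2.2 := by positivity
  calc wv W c p t ^ s = ENNReal.ofReal ((2 : ℝ) ^ (-p.1.2) * (2 : ℝ) ^ (-p.2.2)) *
        (wv W c p t ^ s * volume B) := by
        rw [hvol, mul_comm (wv W c p t ^ s), ← mul_assoc, ← ENNReal.ofReal_mul (by positivity)]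
        have : (2 : ℝ) ^ (-p.1.2) * (2 : ℝ) ^ (-p.2.2) * ((2 : ℝ) ^ p.1.2 * (2 : ℝ) ^ p.2.2) = 1 := by
          rw [zpow_neg, zpow_neg]
          field_simp
        rw [this, ENNReal.ofReal_one, one_mul]
    _ ≤ _ := mul_le_mul_right h1 _

/-- the coefficients -/
noncomputable def bq (θ s : ℝ) (i : ℤ) : ℝ := mm θ ((2 : ℝ) ^ (i + 1)) * ((2 : ℝ) ^ (-i)) ^ (1 / s)

theorem bq_nonneg (θ s : ℝ) (i : ℤ) : 0 ≤ bq θ s i :=
  mul_nonneg (mm_nonneg θ (by positivity)) (by positivity)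

theorem bq_summable {θ s : ℝ} (h1 : 1 < s) (h3 : (1 + θ) / 3 < 1 / s) : Summable (bq θ s) := by
  have hs : 0 < s := by linarith
  refine Summable.of_nat_of_neg_add_one ?_ ?_
  · have hr : (2 : ℝ) ^ ((1 + θ) / 3 - 1 / s) < 1 :=
      Real.rpow_lt_one_of_one_lt_of_neg (by norm_num) (by linarith)
    have hg := (summable_geometric_of_lt_one (by positivity) hr).mul_left
      ((2 : ℝ) ^ ((1 + θ) / 3))
    refine hg.congr fun n => ?_
    unfold bq mm
    have h2 : (1 : ℝ) ≤ (2 : ℝ) ^ ((n : ℤ) + 1) := by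
      rw [show ((n : ℤ) + 1) = ((n + 1 : ℕ) : ℤ) by push_cast; rfl, zpow_natCast]
      exact one_le_pow₀ (by norm_num)
    rw [min_eq_left h2, max_eq_right h2, one_mul, ← Real.rpow_intCast, ← Real.rpow_intCast,
      ← Real.rpow_mul (by norm_num), ← Real.rpow_mul (by norm_num), ← Real.rpow_natCast,
      ← Real.rpow_mul (by norm_num), ← Real.rpow_add (by norm_num), ← Real.rpow_add (by norm_num)]
    congr 1
    push_cast
    ring
  · have hr : (2 : ℝ) ^ (1 / s - 1) < 1 := by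
      refine Real.rpow_lt_one_of_one_lt_of_neg (by norm_num) ?_
      have : 1 / s < 1 := by rw [div_lt_one hs]; exact h1
      linarith
    have hg := (summable_geometric_of_lt_one (by positivity) hr).mul_left ((2 : ℝ) ^ (1 / s))
    refine hg.congr fun n => ?_
    unfold bq mm
    have e0 : (-((n : ℤ) + 1) + 1) = -(n : ℤ) := by ring
    have h2 : (2 : ℝ) ^ (-(n : ℤ)) ≤ 1 := by
      rw [zpow_neg, zpow_natCast]
      exact inv_le_one_of_one_le₀ (one_le_pow₀ (by norm_num))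
    rw [e0, min_eq_right h2, max_eq_left h2, Real.one_rpow, mul_one, ← Real.rpow_intCast,
      ← Real.rpow_intCast, ← Real.rpow_mul (by norm_num), ← Real.rpow_natCast,
      ← Real.rpow_mul (by norm_num), ← Real.rpow_add (by norm_num), ← Real.rpow_add (by norm_num)]
    congr 1
    push_cast
    ring

theorem uni {s : ℝ} (hs1 : 1 < s) (hs3 : s < 3) : ∃ C : ℝ≥0∞, C ≠ ∞ ∧
    ∀ (f : ℝ × ℝ → ℂ), Okf f → ∀ (W : ℝ × ℝ → ℝ → ℝ≥0∞) (c : ℝ → ℝ × ℝ),
      Measurable (Function.uncurry W) → Measurable c → Uni W c →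
      ∫⁻ t, ∫⁻ x, W x t * ‖ex f x t‖ₑ ^ 2 ≤
        C * N3 f * (∫⁻ t, ∫⁻ x, W x t ^ s) ^ (1 / s) := by
  have hs : 0 < s := by linarith
  have hgap : 1 / 3 < 1 / s := one_div_lt_one_div_of_lt hs hs3
  obtain ⟨θ, hθ0, hθ1, hθ⟩ : ∃ θ : ℝ, 0 < θ ∧ θ ≤ 1 ∧ (1 + θ) / 3 < 1 / s := by
    refine ⟨min 1 ((3 * (1 / s) - 1) / 2), lt_min one_pos (by linarith), min_le_left _ _, ?_⟩
    have := min_le_right 1 ((3 * (1 / s) - 1) / 2)
    linarith
  obtain ⟨C, hC, h⟩ := rect hθ0 hθ1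
  set Sg : ℝ≥0∞ := ∑' q : Bool × ℤ, ENNReal.ofReal (bq θ s q.2) with hSg
  have hSgt : Sg ≠ ∞ := by
    have hz : ∑' i : ℤ, ENNReal.ofReal (bq θ s i) ≠ ∞ :=
      (bq_summable hs1 hθ).tsum_ofReal_ne_top
    rw [hSg, ENNReal.tsum_prod' (f := fun q : Bool × ℤ => ENNReal.ofReal (bq θ s q.2))]
    simp only [tsum_bool]
    exact ENNReal.add_ne_top.2 ⟨hz, hz⟩
  refine ⟨C * Sg ^ 2, ENNReal.mul_ne_top hC (ENNReal.pow_ne_top hSgt), ?_⟩
  intro f hf W c hWm hc hW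
  set M : ℝ≥0∞ := ∫⁻ t, ∫⁻ x, W x t ^ s with hM
  -- the rectangles
  set r : Bool × ℤ → ℝ := fun q => (2 : ℝ) ^ (q.2 + 1) with hr
  have hr0 : ∀ q, 0 < r q := fun q => by simp only [hr]; positivity
  have hRm : ∀ p : (Bool × ℤ) × (Bool × ℤ),
      MeasurableSet {z : ℝ × (ℝ × ℝ) | z.2 ∈ Rect (c z.1) (r p.1) (r p.2)} := by
    intro p
    have hc1 : Measurable fun z : ℝ × (ℝ × ℝ) => (c z.1).1 :=
      (measurable_fst.comp hc).comp measurable_fst
    have hc2 : Measurable fun z : ℝ × (ℝ × ℝ) => (c z.1).2 :=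
      (measurable_snd.comp hc).comp measurable_fst
    have hx1 : Measurable fun z : ℝ × (ℝ × ℝ) => z.2.1 := measurable_fst.comp measurable_snd
    have hx2 : Measurable fun z : ℝ × (ℝ × ℝ) => z.2.2 := measurable_snd.comp measurable_snd
    have e : {z : ℝ × (ℝ × ℝ) | z.2 ∈ Rect (c z.1) (r p.1) (r p.2)} =
        ({z | (c z.1).1 - r p.1 < z.2.1} ∩ {z | z.2.1 < (c z.1).1 + r p.1}) ∩
        ({z | (c z.1).2 - r p.2 < z.2.2} ∩ {z | z.2.2 < (c z.1).2 + r p.2}) := by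
      ext z
      simp only [Rect, mem_ofPred_eq, mem_prod, mem_Ioo, mem_inter_iff]
    rw [e]
    exact ((measurableSet_lt (hc1.sub_const _) hx1).inter
      (measurableSet_lt hx1 (hc1.add_const _))).inter
      ((measurableSet_lt (hc2.sub_const _) hx2).inter (measurableSet_lt hx2 (hc2.add_const _)))
  have hwvm : ∀ p, Measurable (wv W c p) := by
    intro p
    have : Measurable fun t => (((c t).1 + dsp p.1, (c t).2 + dsp p.2), t) :=
      (((measurable_fst.comp hc).add_const _).prodMk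
        ((measurable_snd.comp hc).add_const _)).prodMk measurable_id
    exact hWm.comp this
  have hem : Measurable fun z : ℝ × (ℝ × ℝ) => ‖ex f z.2 z.1‖ₑ ^ 2 :=
    ((ex_meas hf.meas).comp (measurable_snd.prodMk measurable_fst)).enorm.pow_const 2
  -- the fibre integrals
  have hI : ∀ (p : (Bool × ℤ) × (Bool × ℤ)) (t : ℝ), ∫⁻ x in Rect (c t) (r p.1) (r p.2), ‖ex f x t‖ₑ ^ 2 =
      ∫⁻ x, {z : ℝ × (ℝ × ℝ) | z.2 ∈ Rect (c z.1) (r p.1) (r p.2)}.indicator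
        (fun z => ‖ex f z.2 z.1‖ₑ ^ 2) (t, x) := by
    intro p t
    have hmR : MeasurableSet (Rect (c t) (r p.1) (r p.2)) := measurableSet_Ioo.prod measurableSet_Ioo
    rw [← lintegral_indicator hmR]
    refine lintegral_congr fun x => ?_
    by_cases hx : x ∈ Rect (c t) (r p.1) (r p.2)
    · rw [indicator_of_mem hx, indicator_of_mem (by exact hx)]
    · rw [indicator_of_notMem hx, indicator_of_notMem (by exact hx)]
  have hIm : ∀ p : (Bool × ℤ) × (Bool × ℤ), Measurable fun t => ∫⁻ x in Rect (c t) (r p.1) (r p.2), ‖ex f x t‖ₑ ^ 2 := by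
    intro p
    simp_rw [hI p]
    exact (hem.indicator (hRm p)).lintegral_prod_right'
  have step1 : ∀ t, ∫⁻ x, W x t * ‖ex f x t‖ₑ ^ 2 ≤
      ∑' p : (Bool × ℤ) × (Bool × ℤ), wv W c p t * ∫⁻ x in Rect (c t) (r p.1) (r p.2), ‖ex f x t‖ₑ ^ 2 := by
    intro t
    have hie : ∀ p : (Bool × ℤ) × (Bool × ℤ), Measurable fun x => {z : ℝ × (ℝ × ℝ) | z.2 ∈ Rect (c z.1) (r p.1) (r p.2)}.indicator
        (fun z => ‖ex f z.2 z.1‖ₑ ^ 2) (t, x) := fun p =>
      (hem.indicator (hRm p)).comp (measurable_const.prodMk measurable_id)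
    calc ∫⁻ x, W x t * ‖ex f x t‖ₑ ^ 2
        ≤ ∫⁻ x, ∑' p : (Bool × ℤ) × (Bool × ℤ), wv W c p t *
            {z : ℝ × (ℝ × ℝ) | z.2 ∈ Rect (c z.1) (r p.1) (r p.2)}.indicator
            (fun z => ‖ex f z.2 z.1‖ₑ ^ 2) (t, x) := by
          refine lintegral_mono_ae ?_
          filter_upwards [ae_ne (c t).1 (c t).2] with x hx
          obtain ⟨p, hp1, hp2⟩ := cover hW t hx.1 hx.2
          refine le_trans ?_ (ENNReal.le_tsum p)
          rw [indicator_of_mem (show (t, x) ∈ {z : ℝ × (ℝ × ℝ) |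
            z.2 ∈ Rect (c z.1) (r p.1) (r p.2)} from hp2)]
          exact mul_le_mul_left hp1 _
      _ = ∑' p : (Bool × ℤ) × (Bool × ℤ), wv W c p t * ∫⁻ x in Rect (c t) (r p.1) (r p.2), ‖ex f x t‖ₑ ^ 2 := by
          rw [lintegral_tsum fun p => ((hie p).const_mul _).aemeasurable]
          refine tsum_congr fun p => ?_
          rw [lintegral_const_mul _ (hie p), hI]
  have step2 : ∀ p : (Bool × ℤ) × (Bool × ℤ), (∫⁻ t, wv W c p t ^ s) ^ (1 / s) ≤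
      ENNReal.ofReal (((2 : ℝ) ^ (-p.1.2)) ^ (1 / s) * ((2 : ℝ) ^ (-p.2.2)) ^ (1 / s)) *
        M ^ (1 / s) := by
    intro p
    have k1 : ∫⁻ t, wv W c p t ^ s ≤
        ENNReal.ofReal ((2 : ℝ) ^ (-p.1.2) * (2 : ℝ) ^ (-p.2.2)) * M := by
      refine (lintegral_mono fun t => wv_norm hW hs p t).trans (le_of_eq ?_)
      rw [lintegral_const_mul' _ _ ENNReal.ofReal_ne_top]
    refine (ENNReal.rpow_le_rpow k1 (by positivity)).trans (le_of_eq ?_)
    rw [ENNReal.mul_rpow_of_nonneg _ _ (by positivity), ENNReal.ofReal_rpow_of_pos (by positivity),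
      Real.mul_rpow (by positivity) (by positivity)]
  calc ∫⁻ t, ∫⁻ x, W x t * ‖ex f x t‖ₑ ^ 2
      ≤ ∫⁻ t, ∑' p : (Bool × ℤ) × (Bool × ℤ), wv W c p t * ∫⁻ x in Rect (c t) (r p.1) (r p.2), ‖ex f x t‖ₑ ^ 2 :=
        lintegral_mono step1
    _ = ∑' p : (Bool × ℤ) × (Bool × ℤ), ∫⁻ t, wv W c p t * ∫⁻ x in Rect (c t) (r p.1) (r p.2), ‖ex f x t‖ₑ ^ 2 := by
        have hpm : ∀ p : (Bool × ℤ) × (Bool × ℤ), Measurable fun t => wv W c p t *
            ∫⁻ x in Rect (c t) (r p.1) (r p.2), ‖ex f x t‖ₑ ^ 2 := fun p => (hwvm p).mul (hIm p)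
        rw [lintegral_tsum fun p => (hpm p).aemeasurable]
    _ ≤ ∑' p : (Bool × ℤ) × (Bool × ℤ), (C * N3 f * M ^ (1 / s)) *
          (ENNReal.ofReal (bq θ s p.1.2) * ENNReal.ofReal (bq θ s p.2.2)) := by
        refine ENNReal.tsum_le_tsum fun p => ?_
        refine (h f hf (r p.1) (r p.2) (hr0 _) (hr0 _) s hs1.le hs3.le (wv W c p) c (hwvm p)
          hc).trans ?_
        refine (mul_le_mul_right (step2 p) _).trans (le_of_eq ?_)
        have e1 : ENNReal.ofReal (mm θ (r p.1) * mm θ (r p.2)) *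
            ENNReal.ofReal (((2 : ℝ) ^ (-p.1.2)) ^ (1 / s) * ((2 : ℝ) ^ (-p.2.2)) ^ (1 / s)) =
            ENNReal.ofReal (bq θ s p.1.2) * ENNReal.ofReal (bq θ s p.2.2) := by
          rw [← ENNReal.ofReal_mul (mul_nonneg (mm_nonneg θ (hr0 _)) (mm_nonneg θ (hr0 _))),
            ← ENNReal.ofReal_mul (bq_nonneg _ _ _)]
          congr 1
          unfold bq
          simp only [hr]
          ring
        rw [← e1]
        ring
    _ = _ := by
        rw [ENNReal.tsum_mul_left, ENNReal.tsum_prod'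
          (f := fun p : (Bool × ℤ) × (Bool × ℤ) =>
            ENNReal.ofReal (bq θ s p.1.2) * ENNReal.ofReal (bq θ s p.2.2))]
        simp only [ENNReal.tsum_mul_left, ENNReal.tsum_mul_right]
        rw [← hSg]
        ring

end Pool.Agent.K4H46.MO
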