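import Mathlib
import Pool.Agent.K4H46.MO.Dy

set_option autoImplicit false

/-! The Morrey form. -/

namespace Pool.Agent.K4H46.MO

open MeasureTheory Set Complex
open scoped ENNReal NNReal ComplexConjugate

/-- the norm from its dual description -/
theorem dualnorm {s : ℝ} (hs : 1 < s) {Ψ : ℝ → ℝ≥0∞} (hm : Measurable Ψ) {K : ℝ≥0∞}
    (h : ∀ w : ℝ → ℝ≥0∞, Measurable w → ∫⁻ t, w t * Ψ t ≤ K * (∫⁻ t, w t ^ s) ^ (1 / s)) :
    ∫⁻ t, Ψ t ^ (s / (s - 1)) ≤ K ^ (s / (s - 1)) := by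
  have hs0 : 0 < s := by linarith
  have hs1 : 0 < s - 1 := by linarith
  set σ : ℝ := s / (s - 1) with hσ
  have hσ0 : 0 < σ := by positivity
  have hσ1 : 0 < σ - 1 := by
    rw [hσ, div_sub_one hs1.ne']
    have : s - (s - 1) = 1 := by ring
    rw [this]
    positivity
  have hσs : (σ - 1) * s = σ := by
    rw [hσ]
    field_simp
    ring
  set Ψn : ℕ → ℝ → ℝ≥0∞ := fun n t => (Icc (-(n : ℝ)) n).indicator (fun t => min (Ψ t) n) t with hΨn
  have hnm : ∀ n, Measurable (Ψn n) := fun n => (hm.min measurable_const).indicator measurableSet_Icc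
  have hle : ∀ n t, Ψn n t ≤ Ψ t := fun n t => by
    simp only [hΨn]
    by_cases ht : t ∈ Icc (-(n : ℝ)) n
    · rw [indicator_of_mem ht]; exact min_le_left _ _
    · rw [indicator_of_notMem ht]; exact zero_le
  have hfin : ∀ n, ∫⁻ t, Ψn n t ^ σ ≠ ∞ := by
    intro n
    have k1 : ∫⁻ t, Ψn n t ^ σ ≤ ∫⁻ t in Icc (-(n : ℝ)) n, (n : ℝ≥0∞) ^ σ := by
      rw [← lintegral_indicator measurableSet_Icc]
      refine lintegral_mono fun t => ?_
      simp only [hΨn]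
      by_cases ht : t ∈ Icc (-(n : ℝ)) n
      · rw [indicator_of_mem ht, indicator_of_mem ht]
        exact ENNReal.rpow_le_rpow (min_le_right _ _) hσ0.le
      · rw [indicator_of_notMem ht, indicator_of_notMem ht, ENNReal.zero_rpow_of_pos hσ0]
    refine ne_top_of_le_ne_top ?_ k1
    rw [setLIntegral_const, Real.volume_Icc]
    exact ENNReal.mul_ne_top (ENNReal.rpow_ne_top_of_nonneg hσ0.le (ENNReal.natCast_ne_top n))
      ENNReal.ofReal_ne_top
  have hn : ∀ n, ∫⁻ t, Ψn n t ^ σ ≤ K ^ σ := by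
    intro n
    set J := ∫⁻ t, Ψn n t ^ σ with hJ
    have k1 : J ≤ K * J ^ (1 / s) := by
      have := h (fun t => Ψn n t ^ (σ - 1)) ((hnm n).pow_const _)
      have e1 : ∀ t, (Ψn n t ^ (σ - 1)) ^ s = Ψn n t ^ σ := fun t => by
        rw [← ENNReal.rpow_mul, hσs]
      simp_rw [e1] at this
      refine le_trans ?_ this
      rw [hJ]
      refine lintegral_mono fun t => ?_
      calc Ψn n t ^ σ = Ψn n t ^ (σ - 1) * Ψn n t ^ (1 : ℝ) := by
            rw [← ENNReal.rpow_add_of_nonneg _ _ hσ1.le zero_le_one]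
            congr 1
            ring
        _ ≤ Ψn n t ^ (σ - 1) * Ψ t := by
            rw [ENNReal.rpow_one]
            exact mul_le_mul_right (hle n t) _
    by_cases hJ0 : J = 0
    · rw [hJ0]; exact zero_le
    have hJt : J ≠ ∞ := hfin n
    have k2 : J ^ (1 / σ) ≤ K := by
      have e1 : (1 / σ) + (1 / s) = 1 := by
        rw [hσ]; field_simp; ring
      have e2 : J = J ^ (1 / σ) * J ^ (1 / s) := by
        rw [← ENNReal.rpow_add _ _ hJ0 hJt, e1, ENNReal.rpow_one]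
      have hp0 : J ^ (1 / s) ≠ 0 := by
        rw [Ne, ENNReal.rpow_eq_zero_iff]
        rintro (⟨h, _⟩ | ⟨h, _⟩)
        · exact hJ0 h
        · exact hJt h
      have hpt : J ^ (1 / s) ≠ ∞ := ENNReal.rpow_ne_top_of_nonneg (by positivity) hJt
      rw [e2] at k1
      have k3 : J ^ (1 / σ) * J ^ (1 / s) ≤ K * J ^ (1 / s) := by
        have : (J ^ (1 / σ) * J ^ (1 / s)) ^ (1 / s) = J ^ (1 / s) := by rw [← e2]
        rw [this] at k1
        exact k1
      exact (ENNReal.mul_le_mul_iff_left hp0 hpt).1 k3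
    have k4 := ENNReal.rpow_le_rpow k2 hσ0.le
    rw [← ENNReal.rpow_mul, one_div, inv_mul_cancel₀ hσ0.ne', ENNReal.rpow_one] at k4
    exact k4
  have hmono : Monotone fun n t => Ψn n t ^ σ := by
    intro n k hnk t
    refine ENNReal.rpow_le_rpow ?_ hσ0.le
    simp only [hΨn]
    have hc : (n : ℝ) ≤ k := by exact_mod_cast hnk
    by_cases ht : t ∈ Icc (-(n : ℝ)) n
    · have ht2 : t ∈ Icc (-(k : ℝ)) k := ⟨by linarith [ht.1], by linarith [ht.2]⟩
      rw [indicator_of_mem ht, indicator_of_mem ht2]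
      exact min_le_min le_rfl (by exact_mod_cast hnk)
    · rw [indicator_of_notMem ht]; exact zero_le
  have hsup : ∀ t, ⨆ n, Ψn n t ^ σ = Ψ t ^ σ := by
    intro t
    refine le_antisymm (iSup_le fun n => ENNReal.rpow_le_rpow (hle n t) hσ0.le) ?_
    have hlim : Filter.Tendsto (fun n : ℕ => Ψn n t ^ σ) Filter.atTop (nhds (Ψ t ^ σ)) := by
      have h1 : Filter.Tendsto (fun n : ℕ => Ψn n t) Filter.atTop (nhds (Ψ t)) := by
        have h2 : Filter.Tendsto (fun n : ℕ => min (Ψ t) (n : ℝ≥0∞)) Filter.atTop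
            (nhds (min (Ψ t) ∞)) :=
          tendsto_const_nhds.min ENNReal.tendsto_nat_nhds_top
        rw [min_eq_left le_top] at h2
        refine h2.congr' ?_
        obtain ⟨N, hN⟩ := exists_nat_ge |t|
        filter_upwards [Filter.eventually_ge_atTop N] with n hnN
        simp only [hΨn]
        have hc : |t| ≤ n := hN.trans (by exact_mod_cast hnN)
        rw [indicator_of_mem (show t ∈ Icc (-(n : ℝ)) n from abs_le.1 hc)]
      exact (ENNReal.continuous_rpow_const.tendsto _).comp h1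
    exact le_of_tendsto' hlim fun n => le_iSup (fun n => Ψn n t ^ σ) n
  calc ∫⁻ t, Ψ t ^ σ = ∫⁻ t, ⨆ n, Ψn n t ^ σ := by simp_rw [hsup]
    _ = ⨆ n, ∫⁻ t, Ψn n t ^ σ := lintegral_iSup (fun n => (hnm n).pow_const σ) hmono
    _ ≤ _ := iSup_le hn

/-- the mass in a rectangle -/
noncomputable def Ph (f : ℝ × ℝ → ℂ) (r1 r2 : ℝ) (c : ℝ × ℝ) (t : ℝ) : ℝ≥0∞ :=
  ∫⁻ x in Rect c r1 r2, ‖ex f x t‖ₑ ^ 2

theorem Ph_meas {f : ℝ × ℝ → ℂ} (hf : Measurable f) (r1 r2 : ℝ) :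
    Measurable fun p : (ℝ × ℝ) × ℝ => Ph f r1 r2 p.1 p.2 := by
  have hS : MeasurableSet {z : ((ℝ × ℝ) × ℝ) × (ℝ × ℝ) | z.2 ∈ Rect z.1.1 r1 r2} := by
    have e : {z : ((ℝ × ℝ) × ℝ) × (ℝ × ℝ) | z.2 ∈ Rect z.1.1 r1 r2} =
        ({z | z.1.1.1 - r1 < z.2.1} ∩ {z | z.2.1 < z.1.1.1 + r1}) ∩
        ({z | z.1.1.2 - r2 < z.2.2} ∩ {z | z.2.2 < z.1.1.2 + r2}) := by
      ext z
      simp only [Rect, mem_ofPred_eq, mem_prod, mem_Ioo, mem_inter_iff]
    have a1 : Measurable fun z : ((ℝ × ℝ) × ℝ) × (ℝ × ℝ) => z.1.1.1 := by fun_prop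
    have a2 : Measurable fun z : ((ℝ × ℝ) × ℝ) × (ℝ × ℝ) => z.1.1.2 := by fun_prop
    have b1 : Measurable fun z : ((ℝ × ℝ) × ℝ) × (ℝ × ℝ) => z.2.1 := by fun_prop
    have b2 : Measurable fun z : ((ℝ × ℝ) × ℝ) × (ℝ × ℝ) => z.2.2 := by fun_prop
    rw [e]
    exact ((measurableSet_lt (a1.sub_const _) b1).inter
      (measurableSet_lt b1 (a1.add_const _))).inter
      ((measurableSet_lt (a2.sub_const _) b2).inter (measurableSet_lt b2 (a2.add_const _)))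
  have hg : Measurable fun z : ((ℝ × ℝ) × ℝ) × (ℝ × ℝ) => ‖ex f z.2 z.1.2‖ₑ ^ 2 :=
    ((ex_meas hf).comp (measurable_snd.prodMk (measurable_snd.comp measurable_fst))).enorm.pow_const 2
  have hI : ∀ p : (ℝ × ℝ) × ℝ, Ph f r1 r2 p.1 p.2 =
      ∫⁻ x, {z : ((ℝ × ℝ) × ℝ) × (ℝ × ℝ) | z.2 ∈ Rect z.1.1 r1 r2}.indicator
        (fun z => ‖ex f z.2 z.1.2‖ₑ ^ 2) (p, x) := by
    intro p
    unfold Ph
    have hmR : MeasurableSet (Rect p.1 r1 r2) := measurableSet_Ioo.prod measurableSet_Ioo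
    rw [← lintegral_indicator hmR]
    refine lintegral_congr fun x => ?_
    by_cases hx : x ∈ Rect p.1 r1 r2
    · rw [indicator_of_mem hx, indicator_of_mem (by exact hx)]
    · rw [indicator_of_notMem hx, indicator_of_notMem (by exact hx)]
  simp_rw [hI]
  exact (hg.indicator hS).lintegral_prod_right'

/-- the greedy selection -/
noncomputable def sel (Φ : ℝ × ℝ → ℝ → ℝ≥0∞) (e : ℕ → ℝ × ℝ) : ℕ → ℝ → ℝ × ℝ
  | 0, _ => e 0
  | n + 1, t => if Φ (sel Φ e n t) t ≤ Φ (e (n + 1)) t then e (n + 1) else sel Φ e n t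

theorem sel_meas {Φ : ℝ × ℝ → ℝ → ℝ≥0∞} (hΦ : Measurable fun p : (ℝ × ℝ) × ℝ => Φ p.1 p.2)
    (e : ℕ → ℝ × ℝ) (n : ℕ) : Measurable (sel Φ e n) := by
  induction n with
  | zero => exact measurable_const
  | succ n ih =>
    have h1 : Measurable fun t => Φ (sel Φ e n t) t := hΦ.comp (ih.prodMk measurable_id)
    have h2 : Measurable fun t => Φ (e (n + 1)) t :=
      hΦ.comp (measurable_const.prodMk measurable_id)
    exact Measurable.ite (measurableSet_le h1 h2) measurable_const ih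

theorem sel_mono (Φ : ℝ × ℝ → ℝ → ℝ≥0∞) (e : ℕ → ℝ × ℝ) (n : ℕ) (t : ℝ) :
    Φ (sel Φ e n t) t ≤ Φ (sel Φ e (n + 1) t) t := by
  show _ ≤ Φ (if Φ (sel Φ e n t) t ≤ Φ (e (n + 1)) t then e (n + 1) else sel Φ e n t) t
  split_ifs with h
  · exact h
  · exact le_rfl

theorem sel_ge (Φ : ℝ × ℝ → ℝ → ℝ≥0∞) (e : ℕ → ℝ × ℝ) (n : ℕ) (t : ℝ) :
    Φ (e n) t ≤ Φ (sel Φ e n t) t := by
  cases n with
  | zero => exact le_rfl
  | succ n =>
    show _ ≤ Φ (if Φ (sel Φ e n t) t ≤ Φ (e (n + 1)) t then e (n + 1) else sel Φ e n t) t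
    split_ifs with h
    · exact le_rfl
    · exact (not_le.1 h).le

/-- the supremum over the centres -/
noncomputable def Sc (f : ℝ × ℝ → ℂ) (r1 r2 : ℝ) (t : ℝ) : ℝ≥0∞ :=
  ⨆ n, Ph f r1 r2 (sel (Ph f r1 r2) (TopologicalSpace.denseSeq (ℝ × ℝ)) n t) t

theorem Sc_meas {f : ℝ × ℝ → ℂ} (hf : Measurable f) (r1 r2 : ℝ) : Measurable (Sc f r1 r2) := by
  unfold Sc
  exact Measurable.iSup fun n => (Ph_meas hf r1 r2).comp
    ((sel_meas (Ph_meas hf r1 r2) _ n).prodMk measurable_id)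

theorem rectsup {θ : ℝ} (h0 : 0 < θ) (h1 : θ ≤ 1) : ∃ C : ℝ≥0∞, C ≠ ∞ ∧
    ∀ (f : ℝ × ℝ → ℂ), Okf f → ∀ r1 r2 : ℝ, 0 < r1 → 0 < r2 → ∀ s : ℝ, 1 ≤ s → s ≤ 3 →
      ∀ (w : ℝ → ℝ≥0∞), Measurable w →
      ∫⁻ t, w t * Sc f r1 r2 t ≤
        C * ENNReal.ofReal (mm θ r1 * mm θ r2) * N3 f * (∫⁻ t, w t ^ s) ^ (1 / s) := by
  obtain ⟨C, hC, h⟩ := rect h0 h1
  refine ⟨C, hC, fun f hf r1 r2 hr1 hr2 s hs1 hs3 w hw => ?_⟩
  have hP := Ph_meas hf.meas r1 r2
  set c : ℕ → ℝ → ℝ × ℝ := sel (Ph f r1 r2) (TopologicalSpace.denseSeq (ℝ × ℝ)) with hc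
  have hcm : ∀ n, Measurable (c n) := fun n => sel_meas hP _ n
  have e1 : ∀ t, w t * Sc f r1 r2 t = ⨆ n, w t * Ph f r1 r2 (c n t) t := by
    intro t
    unfold Sc
    rw [ENNReal.mul_iSup]
  have hmt : ∀ n, Measurable fun t => w t * Ph f r1 r2 (c n t) t := fun n =>
    hw.mul (hP.comp ((hcm n).prodMk measurable_id))
  simp_rw [e1]
  rw [lintegral_iSup hmt]
  · exact iSup_le fun n => h f hf r1 r2 hr1 hr2 s hs1 hs3 w (c n) hw (hcm n)
  · refine monotone_nat_of_le_succ fun n t => ?_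
    exact mul_le_mul_right (sel_mono _ _ n t) _

/-- the Morrey form -/
theorem morrey {s : ℝ} (hs1 : 1 < s) (hs3 : s < 3) : ∃ C : ℝ≥0∞, C ≠ ∞ ∧
    ∀ (f : ℝ × ℝ → ℂ), Okf f → ∃ Ψ : ℝ → ℝ≥0∞, Measurable Ψ ∧
      ∫⁻ t, Ψ t ^ (s / (s - 1)) ≤ (C * N3 f) ^ (s / (s - 1)) ∧
      ∀ t (c : ℝ × ℝ) (r1 r2 : ℝ), 0 < r1 → 0 < r2 →
        ENNReal.ofReal (4 * r1 * r2) ^ (-(1 / s)) * ∫⁻ x in Rect c r1 r2, ‖ex f x t‖ₑ ^ 2 ≤ Ψ t := by
  have hs : 0 < s := by linarith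
  have hgap : 1 / 3 < 1 / s := one_div_lt_one_div_of_lt hs hs3
  obtain ⟨θ, hθ0, hθ1, hθ⟩ : ∃ θ : ℝ, 0 < θ ∧ θ ≤ 1 ∧ (1 + θ) / 3 < 1 / s := by
    refine ⟨min 1 ((3 * (1 / s) - 1) / 2), lt_min one_pos (by linarith), min_le_left _ _, ?_⟩
    have := min_le_right 1 ((3 * (1 / s) - 1) / 2)
    linarith
  obtain ⟨C, hC, h⟩ := rectsup hθ0 hθ1
  set Sg : ℝ≥0∞ := ∑' i : ℤ, ENNReal.ofReal (bq θ s i) with hSg
  have hSgt : Sg ≠ ∞ := (bq_summable hs1 hθ).tsum_ofReal_ne_top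
  refine ⟨C * Sg ^ 2, ENNReal.mul_ne_top hC (ENNReal.pow_ne_top hSgt), ?_⟩
  intro f hf
  set r : ℤ → ℝ := fun i => (2 : ℝ) ^ (i + 1) with hr
  have hr0 : ∀ i, 0 < r i := fun i => by simp only [hr]; positivity
  set a : ℤ × ℤ → ℝ := fun p => ((2 : ℝ) ^ (-p.1)) ^ (1 / s) * ((2 : ℝ) ^ (-p.2)) ^ (1 / s) with ha
  set Ψ : ℝ → ℝ≥0∞ := fun t => ∑' p : ℤ × ℤ, ENNReal.ofReal (a p) * Sc f (r p.1) (r p.2) t with hΨ
  have hΨm : Measurable Ψ := by
    refine Measurable.tsum fun p => ?_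
    exact (Sc_meas hf.meas _ _).const_mul _
  refine ⟨Ψ, hΨm, ?_, ?_⟩
  · refine dualnorm hs1 hΨm fun w hw => ?_
    have hmp : ∀ p : ℤ × ℤ, Measurable fun t => w t * (ENNReal.ofReal (a p) *
        Sc f (r p.1) (r p.2) t) := fun p => hw.mul ((Sc_meas hf.meas _ _).const_mul _)
    calc ∫⁻ t, w t * Ψ t = ∫⁻ t, ∑' p : ℤ × ℤ, w t * (ENNReal.ofReal (a p) *
          Sc f (r p.1) (r p.2) t) := by
          refine lintegral_congr fun t => ?_
          simp only [hΨ]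
          rw [ENNReal.tsum_mul_left]
      _ = ∑' p : ℤ × ℤ, ∫⁻ t, w t * (ENNReal.ofReal (a p) * Sc f (r p.1) (r p.2) t) := by
          rw [lintegral_tsum fun p => (hmp p).aemeasurable]
      _ ≤ ∑' p : ℤ × ℤ, (C * N3 f * (∫⁻ t, w t ^ s) ^ (1 / s)) *
            (ENNReal.ofReal (bq θ s p.1) * ENNReal.ofReal (bq θ s p.2)) := by
          refine ENNReal.tsum_le_tsum fun p => ?_
          have e1 : ∀ t, w t * (ENNReal.ofReal (a p) * Sc f (r p.1) (r p.2) t) =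
              ENNReal.ofReal (a p) * (w t * Sc f (r p.1) (r p.2) t) := fun t => by ring
          simp_rw [e1]
          rw [lintegral_const_mul' _ _ ENNReal.ofReal_ne_top]
          refine (mul_le_mul_right (h f hf (r p.1) (r p.2) (hr0 _) (hr0 _) s hs1.le hs3.le w hw)
            _).trans (le_of_eq ?_)
          have ha0 : 0 ≤ a p := by simp only [ha]; positivity
          have e2 : ENNReal.ofReal (a p) * ENNReal.ofReal (mm θ (r p.1) * mm θ (r p.2)) =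
              ENNReal.ofReal (bq θ s p.1) * ENNReal.ofReal (bq θ s p.2) := by
            rw [← ENNReal.ofReal_mul ha0, ← ENNReal.ofReal_mul (bq_nonneg _ _ _)]
            congr 1
            unfold bq
            simp only [hr, ha]
            ring
          rw [← e2]
          ring
      _ = _ := by
          rw [ENNReal.tsum_mul_left, ENNReal.tsum_prod'
            (f := fun p : ℤ × ℤ => ENNReal.ofReal (bq θ s p.1) * ENNReal.ofReal (bq θ s p.2))]
          simp only [ENNReal.tsum_mul_left, ENNReal.tsum_mul_right]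
          rw [← hSg]
          ring
  · intro t c r1 r2 hr1 hr2
    obtain ⟨i, hi⟩ := exists_mem_Ico_zpow (x := r1) (y := (2 : ℝ)) hr1 (by norm_num)
    obtain ⟨j, hj⟩ := exists_mem_Ico_zpow (x := r2) (y := (2 : ℝ)) hr2 (by norm_num)
    have hi0 : (0 : ℝ) < 2 ^ i := by positivity
    have hj0 : (0 : ℝ) < 2 ^ j := by positivity
    have ei : (2 : ℝ) ^ (i + 1) = 2 * 2 ^ i := by rw [zpow_add_one₀ (by norm_num)]; ring
    have ej : (2 : ℝ) ^ (j + 1) = 2 * 2 ^ j := by rw [zpow_add_one₀ (by norm_num)]; ring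
    have ri : r (i + 1) = 4 * 2 ^ i := by
      simp only [hr]
      rw [zpow_add_one₀ (by norm_num), ei]; ring
    have rj : r (j + 1) = 4 * 2 ^ j := by
      simp only [hr]
      rw [zpow_add_one₀ (by norm_num), ej]; ring
    -- a dense point near `c`
    obtain ⟨n, hn⟩ : ∃ n, dist (TopologicalSpace.denseSeq (ℝ × ℝ) n) c < min (2 ^ i) (2 ^ j) := by
      have := (TopologicalSpace.denseRange_denseSeq (ℝ × ℝ)).exists_dist_lt c
        (lt_min hi0 hj0)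
      obtain ⟨n, hn⟩ := this
      exact ⟨n, by rw [dist_comm]; exact hn⟩
    set d := TopologicalSpace.denseSeq (ℝ × ℝ) n with hd
    have hd1 : |d.1 - c.1| < 2 ^ i := by
      have : dist d.1 c.1 ≤ dist d c := by rw [Prod.dist_eq]; exact le_max_left _ _
      rw [Real.dist_eq] at this
      exact this.trans_lt (hn.trans_le (min_le_left _ _))
    have hd2 : |d.2 - c.2| < 2 ^ j := by
      have : dist d.2 c.2 ≤ dist d c := by rw [Prod.dist_eq]; exact le_max_right _ _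
      rw [Real.dist_eq] at this
      exact this.trans_lt (hn.trans_le (min_le_right _ _))
    have hsub : Rect c r1 r2 ⊆ Rect d (r (i + 1)) (r (j + 1)) := by
      rintro x ⟨⟨x1, x2⟩, ⟨x3, x4⟩⟩
      have hi2 := hi.2
      have hj2 := hj.2
      rw [ei] at hi2
      rw [ej] at hj2
      rw [abs_lt] at hd1 hd2
      rw [ri, rj]
      refine ⟨⟨?_, ?_⟩, ⟨?_, ?_⟩⟩ <;> linarith
    have k1 : ∫⁻ x in Rect c r1 r2, ‖ex f x t‖ₑ ^ 2 ≤ Sc f (r (i + 1)) (r (j + 1)) t := by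
      calc ∫⁻ x in Rect c r1 r2, ‖ex f x t‖ₑ ^ 2
          ≤ ∫⁻ x in Rect d (r (i + 1)) (r (j + 1)), ‖ex f x t‖ₑ ^ 2 :=
            lintegral_mono_set hsub
        _ = Ph f (r (i + 1)) (r (j + 1)) d t := rfl
        _ ≤ Ph f (r (i + 1)) (r (j + 1)) (sel (Ph f (r (i + 1)) (r (j + 1)))
              (TopologicalSpace.denseSeq (ℝ × ℝ)) n t) t := sel_ge _ _ n t
        _ ≤ _ := le_iSup (fun n => Ph f (r (i + 1)) (r (j + 1)) (sel (Ph f (r (i + 1)) (r (j + 1)))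
              (TopologicalSpace.denseSeq (ℝ × ℝ)) n t) t) n
    have k2 : ENNReal.ofReal (4 * r1 * r2) ^ (-(1 / s)) ≤ ENNReal.ofReal (a (i + 1, j + 1)) := by
      rw [ENNReal.ofReal_rpow_of_pos (by positivity)]
      apply ENNReal.ofReal_le_ofReal
      simp only [ha]
      rw [Real.rpow_neg (by positivity), ← Real.mul_rpow (by positivity) (by positivity),
        zpow_neg, zpow_neg, ← mul_inv, Real.inv_rpow (by positivity)]
      refine inv_anti₀ (by positivity) (Real.rpow_le_rpow (by positivity) ?_ (by positivity))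
      rw [ei, ej]
      have := mul_le_mul hi.1 hj.1 hj0.le hr1.le
      nlinarith
    refine (mul_le_mul' k2 k1).trans ?_
    simp only [hΨ]
    exact ENNReal.le_tsum (f := fun p : ℤ × ℤ => ENNReal.ofReal (a p) * Sc f (r p.1) (r p.2) t)
      (i + 1, j + 1)

end Pool.Agent.K4H46.MO
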