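import Mathlib
import Pool.Agent.K4H46.MO.Mor
import Pool.Agent.K4H46.RX.CV

set_option autoImplicit false

/-! Transfer to Euclidean spaces. -/

namespace Pool.Agent.K4H46.MO

open MeasureTheory Set Complex Metric
open scoped ENNReal NNReal RealInnerProductSpace

abbrev E (n : ℕ) := EuclideanSpace ℝ (Fin n)

/-- the identification -/
noncomputable def TE : ℝ × ℝ ≃ᵐ E 2 :=
  MeasurableEquiv.finTwoArrow.symm.trans (MeasurableEquiv.toLp 2 (Fin 2 → ℝ))

theorem TE_apply (a : ℝ × ℝ) : TE a = !₂[a.1, a.2] := rfl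

theorem TE_mp : MeasurePreserving TE (volume : Measure (ℝ × ℝ)) (volume : Measure (E 2)) :=
  (PiLp.volume_preserving_toLp (Fin 2)).comp (volume_preserving_finTwoArrow ℝ).symm

theorem TE_lint (h : E 2 → ℝ≥0∞) : ∫⁻ x, h x = ∫⁻ a : ℝ × ℝ, h (TE a) :=
  (TE_mp.lintegral_comp_emb TE.measurableEmbedding h).symm

theorem TE_int (h : E 2 → ℂ) : ∫ x, h x = ∫ a : ℝ × ℝ, h (TE a) :=
  (TE_mp.integral_comp TE.measurableEmbedding h).symm

/-- the point of space-time -/
noncomputable def pt3 (x : E 2) (t : ℝ) : E 3 := !₂[x 0, x 1, t]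

theorem pt3_meas : Measurable fun p : E 2 × ℝ => pt3 p.1 p.2 := by
  have : (fun p : E 2 × ℝ => pt3 p.1 p.2) = fun p : E 2 × ℝ =>
      Pool.Agent.K4H46.RX.pt (EuclideanSpace.basisFun (Fin 3) ℝ) p.1 p.2 := by
    funext p
    rw [Pool.Agent.K4H46.RX.pt_std]
    rfl
  rw [this]
  exact Pool.Agent.K4H46.RX.pt_meas _

theorem E3_lint {h : E 3 → ℝ≥0∞} (hm : Measurable h) :
    ∫⁻ ξ, h ξ = ∫⁻ t : ℝ, ∫⁻ a : ℝ × ℝ, h (pt3 (TE a) t) := by
  rw [Pool.Agent.K4H46.RX.lint_E3 (EuclideanSpace.basisFun (Fin 3) ℝ) h hm]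
  have e1 : ∀ (y : E 2) (s : ℝ), Pool.Agent.K4H46.RX.pt (EuclideanSpace.basisFun (Fin 3) ℝ) y s =
      pt3 y s := fun y s => by
    rw [Pool.Agent.K4H46.RX.pt_std]; rfl
  simp_rw [e1]
  have hmm : Measurable fun p : E 2 × ℝ => h (pt3 p.1 p.2) := hm.comp pt3_meas
  rw [lintegral_lintegral_swap (f := fun y t => h (pt3 y t)) hmm.aemeasurable]
  refine lintegral_congr fun t => ?_
  rw [TE_lint]

theorem inner3 (a b : E 3) : (⟪a, b⟫ : ℝ) = a 0 * b 0 + a 1 * b 1 + a 2 * b 2 := by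
  rw [PiLp.inner_apply (𝕜 := ℝ), Fin.sum_univ_three]
  simp [mul_comm]

/-- a nice representative of the function -/
theorem rep3 {U : Set (E 2)} (hU : U ⊆ ball 0 (1 / 2)) {f : E 2 → ℂ}
    (hf : MemLp f 3 (volume.restrict U)) :
    ∃ F : ℝ × ℝ → ℂ, Okf F ∧
      (∀ ξ : E 3, (∫ x in U, cexp (-((⟪(!₂[x 0, x 1, x 0 ^ 2 + x 1 ^ 2] : E 3), ξ⟫ : ℝ) : ℂ) * I) *
        f x) = ex F (ξ 0, ξ 1) (ξ 2)) ∧
      N3 F = eLpNorm f 3 (volume.restrict U) ^ 2 := by
  set V : Set (E 2) := ball 0 (1 / 2) ∩ toMeasurable volume U with hV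
  have hVm : MeasurableSet V := isOpen_ball.measurableSet.inter (measurableSet_toMeasurable _ _)
  have hVb : V ⊆ ball 0 (1 / 2) := inter_subset_left
  have hUfin : (volume : Measure (E 2)) U ≠ ∞ :=
    ne_top_of_le_ne_top (measure_ball_lt_top).ne (measure_mono hU)
  have hres : (volume : Measure (E 2)).restrict U = volume.restrict V := by
    rw [hV, ← Measure.restrict_restrict isOpen_ball.measurableSet,
      Measure.restrict_toMeasurable hUfin, Measure.restrict_restrict isOpen_ball.measurableSet,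
      inter_eq_right.2 hU]
  have hVfin : IsFiniteMeasure ((volume : Measure (E 2)).restrict V) :=
    ⟨by rw [Measure.restrict_apply_univ]; exact lt_of_le_of_lt (measure_mono hVb)
          measure_ball_lt_top⟩
  rw [hres] at hf ⊢
  set g : E 2 → ℂ := hf.1.mk f with hg
  have hgm : Measurable g := hf.1.stronglyMeasurable_mk.measurable
  have hgf : f =ᵐ[volume.restrict V] g := hf.1.ae_eq_mk
  have hg3 : MemLp g 3 (volume.restrict V) := hf.ae_eq hgf
  set F : E 2 → ℂ := V.indicator g with hF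
  have hFm : Measurable F := hgm.indicator hVm
  have hFi : Integrable F := by
    rw [hF, integrable_indicator_iff hVm]
    exact memLp_one_iff_integrable.1 (hg3.mono_exponent (by norm_num))
  have hF2 : MemLp F 2 := by
    rw [hF, memLp_indicator_iff_restrict hVm]
    exact hg3.mono_exponent (by norm_num)
  refine ⟨fun a => F (TE a), ⟨hFm.comp TE.measurable, ?_, ?_, ?_⟩, ?_, ?_⟩
  · exact (TE_mp.integrable_comp_emb TE.measurableEmbedding).2 hFi
  · exact hF2.comp_measurePreserving TE_mp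
  · intro a ha
    have h1 : TE a ∈ V := by
      by_contra h
      exact ha (indicator_of_notMem h _)
    have h2 := hVb h1
    rw [mem_ball_zero_iff, EuclideanSpace.norm_eq, Fin.sum_univ_two] at h2
    have h3 : a.1 ^ 2 + a.2 ^ 2 < (1 / 2) ^ 2 := by
      have h4 := (Real.sqrt_lt' (by norm_num : (0 : ℝ) < 1 / 2)).1 h2
      simpa [TE_apply] using h4
    constructor
    · refine abs_le_of_sq_le_sq ?_ (by norm_num)
      nlinarith [sq_nonneg a.2]
    · refine abs_le_of_sq_le_sq ?_ (by norm_num)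
      nlinarith [sq_nonneg a.1]
  · intro ξ
    rw [← integral_indicator hVm]
    have h1 : ∫ x, V.indicator (fun x => cexp (-((⟪(!₂[x 0, x 1, x 0 ^ 2 + x 1 ^ 2] : E 3), ξ⟫ : ℝ) :
        ℂ) * I) * f x) x =
        ∫ x, V.indicator (fun x => cexp (-((⟪(!₂[x 0, x 1, x 0 ^ 2 + x 1 ^ 2] : E 3), ξ⟫ : ℝ) :
        ℂ) * I) * g x) x := by
      rw [integral_indicator hVm, integral_indicator hVm]
      refine integral_congr_ae ?_
      filter_upwards [hgf] with x hx
      rw [hx]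
    rw [h1, TE_int]
    unfold ex
    refine integral_congr_ae (Filter.Eventually.of_forall fun a => ?_)
    simp only [hF]
    have h5 : (⟪(!₂[(TE a) 0, (TE a) 1, (TE a) 0 ^ 2 + (TE a) 1 ^ 2] : E 3), ξ⟫ : ℝ) =
        ξ 0 * a.1 + ξ 1 * a.2 + ξ 2 * (a.1 ^ 2 + a.2 ^ 2) := by
      rw [inner3]
      simp [TE_apply]
      ring
    by_cases hx : TE a ∈ V
    · rw [indicator_of_mem hx, indicator_of_mem hx, h5]
    · rw [indicator_of_notMem hx, indicator_of_notMem hx, mul_zero]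
  · unfold N3
    rw [eLpNorm_congr_ae hgf, eLpNorm_eq_lintegral_rpow_enorm_toReal (by norm_num) (by norm_num),
      ← lintegral_indicator hVm, ← TE_lint (fun x => ‖F x‖ₑ ^ 3), ← ENNReal.rpow_natCast,
      ← ENNReal.rpow_mul]
    have e1 : ∀ x, ‖F x‖ₑ ^ 3 = V.indicator (fun x => ‖g x‖ₑ ^ (3 : ℝ≥0∞).toReal) x := by
      intro x
      simp only [hF]
      by_cases hx : x ∈ V
      · rw [indicator_of_mem hx, indicator_of_mem hx, ← ENNReal.rpow_natCast]
        norm_num
      · rw [indicator_of_notMem hx, indicator_of_notMem hx, enorm_zero]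
        norm_num
    simp_rw [e1]
    norm_num

end Pool.Agent.K4H46.MO
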