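import Mathlib
import Pool.Agent.K4H46.MO.Fin

set_option autoImplicit false

/-! The range is sharp. -/

namespace Pool.Agent.K4H46.MO

open MeasureTheory Set Complex
open scoped ENNReal NNReal ComplexConjugate

/-- the energy bound -/
theorem energy {f : ℝ × ℝ → ℂ} (hf : Okf f) {α : ℝ} (hα : 0 < α) (t : ℝ) :
    ∫⁻ x, ENNReal.ofReal (gw α α 0 x) * ‖ex f x t‖ₑ ^ 2 ≤
      ENNReal.ofReal (4 * Real.pi ^ 2) * ∫⁻ ξ, ‖f ξ‖ₑ ^ 2 := by
  rw [ident hf.meas hf.int hα hα]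
  have hbm : Measurable fun p : (ℝ × ℝ) × (ℝ × ℝ) => ENNReal.ofReal (bump α α p.1 p.2) := by
    refine Measurable.ennreal_ofReal ?_
    unfold bump; fun_prop
  have hbl : ∀ m, ∫⁻ ξ, ENNReal.ofReal (bump α α m ξ) = ENNReal.ofReal (Real.pi / α) := fun m => by
    rw [bump_lint hα hα, ← ENNReal.ofReal_mul (Real.sqrt_nonneg _),
      Real.mul_self_sqrt (by positivity)]
  have hbs : ∀ m ξ, bump α α m ξ = bump α α ξ m := fun m ξ => by
    unfold bump
    congr 3 <;> ring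
  have k1 : ∀ m, ‖co f α α 0 t m‖ₑ ^ 2 ≤ ENNReal.ofReal (Real.pi / α) *
      ∫⁻ ξ, ENNReal.ofReal (bump α α m ξ) * ‖f ξ‖ₑ ^ 2 := by
    intro m
    have h1 : ‖co f α α 0 t m‖ₑ ≤ ∫⁻ ξ, ENNReal.ofReal (bump α α m ξ) * ‖f ξ‖ₑ := by
      unfold co
      refine (enorm_integral_le_lintegral_enorm _).trans (lintegral_mono fun ξ => ?_)
      rw [enorm_mul, enorm_mul, enorm_e, one_mul, enorm_r (bump_nonneg _ _ _ _)]
    have hk : Measurable fun ξ => ENNReal.ofReal (bump α α m ξ) := by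
      refine Measurable.ennreal_ofReal ?_
      unfold bump; fun_prop
    have h2 := cs2 hk hf.meas.enorm
    rw [hbl] at h2
    exact (pow_le_pow_left₀ zero_le h1 2).trans h2
  have hjm : Measurable fun p : (ℝ × ℝ) × (ℝ × ℝ) =>
      ENNReal.ofReal (bump α α p.1 p.2) * ‖f p.2‖ₑ ^ 2 :=
    hbm.mul ((hf.meas.comp measurable_snd).enorm.pow_const 2)
  have k2 : ∫⁻ m, ∫⁻ ξ, ENNReal.ofReal (bump α α m ξ) * ‖f ξ‖ₑ ^ 2 =
      ENNReal.ofReal (Real.pi / α) * ∫⁻ ξ, ‖f ξ‖ₑ ^ 2 := by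
    rw [lintegral_lintegral_swap hjm.aemeasurable, ← lintegral_const_mul _
      (hf.meas.enorm.pow_const 2)]
    refine lintegral_congr fun ξ => ?_
    have hk : Measurable fun m => ENNReal.ofReal (bump α α m ξ) := by
      refine Measurable.ennreal_ofReal ?_
      unfold bump; fun_prop
    rw [lintegral_mul_const _ hk]
    simp_rw [hbs _ ξ]
    rw [hbl]
  calc ENNReal.ofReal (4 * α * α) * ∫⁻ m, ‖co f α α 0 t m‖ₑ ^ 2
      ≤ ENNReal.ofReal (4 * α * α) * ∫⁻ m, ENNReal.ofReal (Real.pi / α) *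
          ∫⁻ ξ, ENNReal.ofReal (bump α α m ξ) * ‖f ξ‖ₑ ^ 2 := by
        gcongr with m
        exact k1 m
    _ = ENNReal.ofReal (4 * α * α) * (ENNReal.ofReal (Real.pi / α) *
          (ENNReal.ofReal (Real.pi / α) * ∫⁻ ξ, ‖f ξ‖ₑ ^ 2)) := by
        rw [lintegral_const_mul' _ _ ENNReal.ofReal_ne_top, k2]
    _ = _ := by
        rw [← mul_assoc, ← mul_assoc, ← ENNReal.ofReal_mul (by positivity),
          ← ENNReal.ofReal_mul (by positivity)]
        congr 2
        field_simp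

/-- the box density -/
noncomputable def f0 (a : ℝ × ℝ) (δ : ℝ) : ℝ × ℝ → ℂ := (Rect a δ δ).indicator fun _ => 1

theorem rect_measb (a : ℝ × ℝ) (r1 r2 : ℝ) : MeasurableSet (Rect a r1 r2) :=
  measurableSet_Ioo.prod measurableSet_Ioo

theorem rect_volb (a : ℝ × ℝ) {r1 : ℝ} (r2 : ℝ) (h1 : 0 < r1) :
    volume (Rect a r1 r2) = ENNReal.ofReal (4 * r1 * r2) := by
  unfold Rect
  rw [Measure.volume_eq_prod, Measure.prod_prod, Real.volume_Ioo, Real.volume_Ioo,
    ← ENNReal.ofReal_mul (by linarith)]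
  congr 1
  ring

theorem f0_ok {a : ℝ × ℝ} {δ : ℝ} (hδ : 0 < δ)
    (ha : ∀ ξ ∈ Rect a δ δ, |ξ.1| ≤ 1 / 2 ∧ |ξ.2| ≤ 1 / 2) : Okf (f0 a δ) := by
  have hv : volume (Rect a δ δ) ≠ ∞ := by
    rw [rect_volb a δ hδ]; exact ENNReal.ofReal_ne_top
  refine ⟨measurable_const.indicator (rect_measb _ _ _), ?_, ?_, fun ξ h => ?_⟩
  · exact (integrable_indicator_iff (rect_measb _ _ _)).2 (integrableOn_const hv)
  · exact memLp_indicator_const 2 (rect_measb _ _ _) 1 (Or.inr hv)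
  · refine ha ξ ?_
    by_contra hξ
    exact h (indicator_of_notMem hξ _)

theorem x_le_exp (x : ℝ) : x ≤ Real.exp (x / 2) := by
  have h1 := Real.add_one_le_exp (x / 2 - 1)
  have h2 : Real.exp (x / 2) = Real.exp (x / 2 - 1) * Real.exp 1 := by
    rw [← Real.exp_add]; congr 1; ring
  have h3 : (2 : ℝ) ≤ Real.exp 1 := by
    have := Real.add_one_le_exp (1 : ℝ)
    linarith
  rcases le_or_gt x 0 with h | h
  · exact h.trans (Real.exp_pos _).le
  · rw [h2]
    have h4 : x / 2 ≤ Real.exp (x / 2 - 1) := by linarith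
    nlinarith [Real.exp_pos (x / 2 - 1)]

theorem co_low {a : ℝ × ℝ} {δ : ℝ} (hδ : 0 < δ)
    (ha : ∀ ξ ∈ Rect a δ δ, |ξ.1| ≤ 1 / 2 ∧ |ξ.2| ≤ 1 / 2) {t : ℝ} (ht : 0 < t)
    (htδ : 1 ≤ 4 * t * δ) {m : ℝ × ℝ} (hm : m ∈ Rect a (δ / 2) (δ / 2)) :
    (4 * (64 * t ^ 2))⁻¹ ≤ ‖co (f0 a δ) (64 * t ^ 2) (64 * t ^ 2) 0 t m‖ := by
  set α : ℝ := 64 * t ^ 2 with hα
  have hα0 : 0 < α := by positivity
  have hok := f0_ok hδ ha
  set s : ℝ := (8 * t)⁻¹ with hs
  have hs0 : 0 < s := by positivity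
  have hsα : α * s ^ 2 = 1 := by
    rw [hα, hs]; field_simp; ring
  have hsδ : s ≤ δ / 2 := by
    rw [hs, inv_le_iff_one_le_mul₀ (by positivity)]
    linarith
  set φ : ℝ × ℝ → ℝ := fun ξ => t * ((m.1 ^ 2 + m.2 ^ 2) - (ξ.1 ^ 2 + ξ.2 ^ 2)) with hφ
  set h : ℝ × ℝ → ℂ := fun ξ => cexp (((t * (m.1 ^ 2 + m.2 ^ 2) : ℝ) : ℂ) * I) *
    ((bump α α m ξ : ℂ) * (cexp (-(((0 : ℝ × ℝ).1 * ξ.1 + (0 : ℝ × ℝ).2 * ξ.2 +
      t * (ξ.1 ^ 2 + ξ.2 ^ 2) : ℝ) : ℂ) * I) * f0 a δ ξ)) with hh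
  have hco : ‖co (f0 a δ) α α 0 t m‖ = ‖∫ ξ, h ξ‖ := by
    simp only [hh]
    rw [integral_const_mul, norm_mul, Complex.norm_exp_ofReal_mul_I, one_mul]
    rfl
  have hb1 : ∀ ξ, bump α α m ξ ≤ 1 := fun ξ => by
    have := hbp_le hα0 hα0 m ξ
    rw [← hbp_sq]
    exact mul_le_one₀ this (hbp_nonneg _ _ _ _) this
  have hhi : Integrable h := by
    have m1 : AEStronglyMeasurable (fun ξ : ℝ × ℝ => cexp (((t * (m.1 ^ 2 + m.2 ^ 2) : ℝ) : ℂ) * I) *
        ((bump α α m ξ : ℂ) * cexp (-(((0 : ℝ × ℝ).1 * ξ.1 + (0 : ℝ × ℝ).2 * ξ.2 +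
          t * (ξ.1 ^ 2 + ξ.2 ^ 2) : ℝ) : ℂ) * I))) volume := by
      refine Measurable.aestronglyMeasurable ?_
      unfold bump
      fun_prop
    refine (hok.int.bdd_mul (c := 1) m1 (Filter.Eventually.of_forall fun ξ => ?_)).congr
      (Filter.Eventually.of_forall fun ξ => ?_)
    · rw [norm_mul, norm_mul, Complex.norm_exp_ofReal_mul_I, norm_e, one_mul, mul_one,
        Complex.norm_real, Real.norm_of_nonneg (bump_nonneg _ _ _ _)]
      exact hb1 ξ
    · simp only [hh]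
      ring
  have hre : ∀ ξ, (h ξ).re = (Rect a δ δ).indicator (fun ξ => bump α α m ξ * Real.cos (φ ξ)) ξ := by
    intro ξ
    simp only [hh]
    by_cases hξ : ξ ∈ Rect a δ δ
    · unfold f0
      rw [indicator_of_mem hξ, indicator_of_mem hξ, mul_one]
      have e1 : cexp (((t * (m.1 ^ 2 + m.2 ^ 2) : ℝ) : ℂ) * I) * ((bump α α m ξ : ℂ) *
          cexp (-(((0 : ℝ × ℝ).1 * ξ.1 + (0 : ℝ × ℝ).2 * ξ.2 +
          t * (ξ.1 ^ 2 + ξ.2 ^ 2) : ℝ) : ℂ) * I)) = (bump α α m ξ : ℂ) * cexp ((φ ξ : ℂ) * I) := by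
        have e2 : cexp ((φ ξ : ℂ) * I) = cexp (((t * (m.1 ^ 2 + m.2 ^ 2) : ℝ) : ℂ) * I) *
            cexp (-(((0 : ℝ × ℝ).1 * ξ.1 + (0 : ℝ × ℝ).2 * ξ.2 +
            t * (ξ.1 ^ 2 + ξ.2 ^ 2) : ℝ) : ℂ) * I) := by
          rw [← Complex.exp_add]
          congr 1
          simp only [hφ, Prod.fst_zero, Prod.snd_zero]
          push_cast
          ring
        rw [e2]
        ring
      rw [e1, Complex.re_ofReal_mul, Complex.exp_ofReal_mul_I_re]
    · unfold f0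
      rw [indicator_of_notMem hξ, indicator_of_notMem hξ, mul_zero, mul_zero, mul_zero,
        Complex.zero_re]
  -- the minorant
  set Q : Set (ℝ × ℝ) := Rect m s s with hQ
  have hQsub : Q ⊆ Rect a δ δ := by
    rintro ξ ⟨⟨x1, x2⟩, ⟨x3, x4⟩⟩
    obtain ⟨⟨y1, y2⟩, ⟨y3, y4⟩⟩ := hm
    refine ⟨⟨?_, ?_⟩, ⟨?_, ?_⟩⟩ <;> linarith
  have hm2 : |m.1| ≤ 1 / 2 ∧ |m.2| ≤ 1 / 2 := by
    refine ha m ?_
    obtain ⟨⟨y1, y2⟩, ⟨y3, y4⟩⟩ := hm
    refine ⟨⟨?_, ?_⟩, ⟨?_, ?_⟩⟩ <;> linarith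
  have hmin : ∀ ξ, Q.indicator (fun _ => Real.exp (-2)) ξ -
      2 * t ^ 2 / α * bump (α / 2) (α / 2) m ξ ≤ (h ξ).re := by
    intro ξ
    rw [hre]
    have hb := bump_nonneg α α m ξ
    have hb2 := bump_nonneg (α / 2) (α / 2) m ξ
    have hc0 : 0 ≤ 2 * t ^ 2 / α * bump (α / 2) (α / 2) m ξ := by positivity
    by_cases hξ : ξ ∈ Rect a δ δ
    · rw [indicator_of_mem hξ]
      obtain ⟨a1, a2⟩ := ha ξ hξ
      -- cos bound
      have hcos : 1 - t ^ 2 * ((ξ.1 - m.1) ^ 2 + (ξ.2 - m.2) ^ 2) ≤ Real.cos (φ ξ) := by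
        have h1 := Real.one_sub_sq_div_two_le_cos (x := φ ξ)
        have h2 : φ ξ ^ 2 ≤ 2 * (t ^ 2 * ((ξ.1 - m.1) ^ 2 + (ξ.2 - m.2) ^ 2)) := by
          have e : φ ξ = -(t * ((ξ.1 - m.1) * (ξ.1 + m.1) + (ξ.2 - m.2) * (ξ.2 + m.2))) := by
            simp only [hφ]; ring
          rw [e, neg_sq, mul_pow]
          have h3 : ((ξ.1 - m.1) * (ξ.1 + m.1) + (ξ.2 - m.2) * (ξ.2 + m.2)) ^ 2 ≤
              ((ξ.1 - m.1) ^ 2 + (ξ.2 - m.2) ^ 2) * ((ξ.1 + m.1) ^ 2 + (ξ.2 + m.2) ^ 2) := by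
            nlinarith [sq_nonneg ((ξ.1 - m.1) * (ξ.2 + m.2) - (ξ.2 - m.2) * (ξ.1 + m.1))]
          have h4 : (ξ.1 + m.1) ^ 2 ≤ 1 := by
            have := abs_add_le ξ.1 m.1
            have h5 : |ξ.1 + m.1| ≤ 1 := by linarith [hm2.1]
            rw [← sq_abs]
            exact pow_le_one₀ (abs_nonneg _) h5
          have h6 : (ξ.2 + m.2) ^ 2 ≤ 1 := by
            have := abs_add_le ξ.2 m.2
            have h5 : |ξ.2 + m.2| ≤ 1 := by linarith [hm2.2]
            rw [← sq_abs]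
            exact pow_le_one₀ (abs_nonneg _) h5
          have h7 : 0 ≤ (ξ.1 - m.1) ^ 2 + (ξ.2 - m.2) ^ 2 := by positivity
          have h8 : ((ξ.1 - m.1) * (ξ.1 + m.1) + (ξ.2 - m.2) * (ξ.2 + m.2)) ^ 2 ≤
              ((ξ.1 - m.1) ^ 2 + (ξ.2 - m.2) ^ 2) * 2 :=
            h3.trans (mul_le_mul_of_nonneg_left (by linarith) h7)
          nlinarith [sq_nonneg t]
        linarith
      have h9 : ((ξ.1 - m.1) ^ 2 + (ξ.2 - m.2) ^ 2) * bump α α m ξ ≤
          2 / α * bump (α / 2) (α / 2) m ξ := by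
        have key : ∀ u : ℝ, u ^ 2 * Real.exp (-(α * u ^ 2)) ≤ 1 / α * Real.exp (-(α / 2 * u ^ 2)) := by
          intro u
          have h1 := x_le_exp (α * u ^ 2)
          have h2 : Real.exp (-(α * u ^ 2)) = Real.exp (-(α / 2 * u ^ 2)) *
              Real.exp (-(α / 2 * u ^ 2)) := by
            rw [← Real.exp_add]; congr 1; ring
          have h3 : Real.exp (α * u ^ 2 / 2) * Real.exp (-(α / 2 * u ^ 2)) = 1 := by
            rw [← Real.exp_add, Real.exp_eq_one_iff]; ring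
          have h4 : (α * u ^ 2) * Real.exp (-(α / 2 * u ^ 2)) ≤ 1 := by
            rw [← h3]
            exact mul_le_mul_of_nonneg_right h1 (Real.exp_pos _).le
          have h5 : u ^ 2 * Real.exp (-(α / 2 * u ^ 2)) ≤ 1 / α := by
            rw [le_div_iff₀ hα0]
            linarith
          rw [h2, ← mul_assoc]
          exact mul_le_mul_of_nonneg_right h5 (Real.exp_pos _).le
        have key2 : ∀ u : ℝ, Real.exp (-(α * u ^ 2)) ≤ Real.exp (-(α / 2 * u ^ 2)) := by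
          intro u
          apply Real.exp_le_exp.2
          nlinarith [mul_nonneg hα0.le (sq_nonneg u)]
        unfold bump
        have p1 := key (ξ.1 - m.1)
        have p2 := key (ξ.2 - m.2)
        have p3 := key2 (ξ.1 - m.1)
        have p4 := key2 (ξ.2 - m.2)
        have q1 := (Real.exp_pos (-(α * (ξ.1 - m.1) ^ 2))).le
        have q2 := (Real.exp_pos (-(α * (ξ.2 - m.2) ^ 2))).le
        have q3 := (Real.exp_pos (-(α / 2 * (ξ.1 - m.1) ^ 2))).le
        have q4 := (Real.exp_pos (-(α / 2 * (ξ.2 - m.2) ^ 2))).le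
        have hα1 : 0 ≤ 1 / α := by positivity
        calc ((ξ.1 - m.1) ^ 2 + (ξ.2 - m.2) ^ 2) * (Real.exp (-(α * (ξ.1 - m.1) ^ 2)) *
              Real.exp (-(α * (ξ.2 - m.2) ^ 2)))
            = ((ξ.1 - m.1) ^ 2 * Real.exp (-(α * (ξ.1 - m.1) ^ 2))) *
              Real.exp (-(α * (ξ.2 - m.2) ^ 2)) + Real.exp (-(α * (ξ.1 - m.1) ^ 2)) *
              ((ξ.2 - m.2) ^ 2 * Real.exp (-(α * (ξ.2 - m.2) ^ 2))) := by ring
          _ ≤ (1 / α * Real.exp (-(α / 2 * (ξ.1 - m.1) ^ 2))) *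
              Real.exp (-(α / 2 * (ξ.2 - m.2) ^ 2)) + Real.exp (-(α / 2 * (ξ.1 - m.1) ^ 2)) *
              (1 / α * Real.exp (-(α / 2 * (ξ.2 - m.2) ^ 2))) :=
              add_le_add (mul_le_mul p1 p4 q2 (by positivity))
                (mul_le_mul p3 p2 (by positivity) q3)
          _ = _ := by ring
      have h10 : Q.indicator (fun _ => Real.exp (-2)) ξ ≤ bump α α m ξ := by
        by_cases hQξ : ξ ∈ Q
        · rw [indicator_of_mem hQξ]
          unfold bump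
          rw [← Real.exp_add]
          apply Real.exp_le_exp.2
          obtain ⟨⟨x1, x2⟩, ⟨x3, x4⟩⟩ := hQξ
          have b1 : (ξ.1 - m.1) ^ 2 ≤ s ^ 2 := by
            apply sq_le_sq'
            · linarith
            · linarith
          have b2 : (ξ.2 - m.2) ^ 2 ≤ s ^ 2 := by
            apply sq_le_sq'
            · linarith
            · linarith
          have b3 := mul_le_mul_of_nonneg_left b1 hα0.le
          have b4 := mul_le_mul_of_nonneg_left b2 hα0.le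
          rw [hsα] at b3 b4
          linarith
        · rw [indicator_of_notMem hQξ]; exact hb
      calc Q.indicator (fun _ => Real.exp (-2)) ξ - 2 * t ^ 2 / α * bump (α / 2) (α / 2) m ξ
          ≤ bump α α m ξ - t ^ 2 * (((ξ.1 - m.1) ^ 2 + (ξ.2 - m.2) ^ 2) * bump α α m ξ) := by
            have h11 := mul_le_mul_of_nonneg_left h9 (sq_nonneg t)
            have h12 : t ^ 2 * (2 / α * bump (α / 2) (α / 2) m ξ) =
                2 * t ^ 2 / α * bump (α / 2) (α / 2) m ξ := by ring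
            linarith
        _ = bump α α m ξ * (1 - t ^ 2 * ((ξ.1 - m.1) ^ 2 + (ξ.2 - m.2) ^ 2)) := by ring
        _ ≤ _ := mul_le_mul_of_nonneg_left hcos hb
    · rw [indicator_of_notMem hξ, indicator_of_notMem (fun hq => hξ (hQsub hq))]
      linarith
  -- integrals
  have hQv : volume Q ≠ ∞ := by
    rw [hQ, rect_volb m s hs0]; exact ENNReal.ofReal_ne_top
  have hQm : MeasurableSet Q := rect_measb _ _ _
  have i1 : Integrable (Q.indicator fun _ => Real.exp (-2)) :=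
    (integrable_indicator_iff hQm).2 (integrableOn_const hQv)
  have i2 : Integrable fun ξ => bump (α / 2) (α / 2) m ξ := by
    refine ⟨?_, ?_⟩
    · refine Measurable.aestronglyMeasurable ?_
      unfold bump; fun_prop
    · show ∫⁻ ξ, ‖bump (α / 2) (α / 2) m ξ‖ₑ < ∞
      have e : ∀ ξ, ‖bump (α / 2) (α / 2) m ξ‖ₑ = ENNReal.ofReal (bump (α / 2) (α / 2) m ξ) :=
        fun ξ => Real.enorm_of_nonneg (bump_nonneg _ _ _ _)
      simp_rw [e]
      rw [bump_lint (by positivity) (by positivity)]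
      exact ENNReal.mul_lt_top ENNReal.ofReal_lt_top ENNReal.ofReal_lt_top
  have v2 : ∫ ξ, bump (α / 2) (α / 2) m ξ = 2 * Real.pi / α := by
    rw [integral_eq_lintegral_of_nonneg_ae (Filter.Eventually.of_forall fun ξ =>
      bump_nonneg _ _ _ _) i2.1, bump_lint (by positivity) (by positivity),
      ← ENNReal.ofReal_mul (Real.sqrt_nonneg _), Real.mul_self_sqrt (by positivity),
      ENNReal.toReal_ofReal (by positivity)]
    field_simp
  have v1 : ∫ ξ, Q.indicator (fun _ => Real.exp (-2)) ξ = 4 * s * s * Real.exp (-2) := by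
    rw [integral_indicator hQm, setIntegral_const, Measure.real, hQ, rect_volb m s hs0,
      ENNReal.toReal_ofReal (by positivity), smul_eq_mul]
  have hint : 4 * s * s * Real.exp (-2) - 2 * t ^ 2 / α * (2 * Real.pi / α) ≤ ∫ ξ, (h ξ).re := by
    rw [← v1, ← v2, ← integral_const_mul, ← integral_sub i1 (i2.const_mul _)]
    exact integral_mono (i1.sub (i2.const_mul _)) hhi.re hmin
  have hre2 : ∫ ξ, (h ξ).re ≤ ‖∫ ξ, h ξ‖ := by
    have : ∫ ξ, (h ξ).re = (∫ ξ, h ξ).re := integral_re hhi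
    rw [this]
    exact Complex.re_le_norm _
  rw [hco]
  refine le_trans ?_ (hint.trans hre2)
  have e1 : s * s = 1 / α := by
    rw [eq_div_iff hα0.ne']
    linarith
  have e2 : t ^ 2 = α / 64 := by rw [hα]; ring
  have e3 : (0.13 : ℝ) ≤ Real.exp (-2) := by
    have h1 := Real.exp_one_lt_d9
    have h2 : Real.exp 2 = Real.exp 1 * Real.exp 1 := by rw [← Real.exp_add]; norm_num
    have h3 : Real.exp 2 ≤ 7.4 := by
      rw [h2]
      nlinarith [Real.exp_pos 1]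
    rw [Real.exp_neg, ← one_div, le_div_iff₀ (Real.exp_pos 2)]
    nlinarith
  have e4 := Real.pi_lt_d2
  have e5 : 4 * s * s * Real.exp (-2) - 2 * t ^ 2 / α * (2 * Real.pi / α) =
      (4 * Real.exp (-2) - Real.pi / 16) / α := by
    rw [mul_assoc 4 s s, e1, e2]
    field_simp
    ring
  rw [e5, mul_inv, ← one_div, ← one_div, div_mul_div_comm, one_mul]
  rw [div_le_div_iff₀ (by positivity) hα0]
  nlinarith

/-- the lower bound for the mass in a box -/
theorem mass_low {a : ℝ × ℝ} {δ : ℝ} (hδ : 0 < δ)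
    (ha : ∀ ξ ∈ Rect a δ δ, |ξ.1| ≤ 1 / 2 ∧ |ξ.2| ≤ 1 / 2) {t : ℝ} (ht : 0 < t)
    (htδ : 1 ≤ 4 * t * δ) :
    ENNReal.ofReal (δ ^ 2 / 8) ≤ ∫⁻ x in Rect 0 (64 * t) (64 * t), ‖ex (f0 a δ) x t‖ₑ ^ 2 := by
  set α : ℝ := 64 * t ^ 2 with hα
  have hα0 : 0 < α := by positivity
  have hok := f0_ok hδ ha
  set S : Set (ℝ × ℝ) := Rect 0 (64 * t) (64 * t) with hS
  have hSm : MeasurableSet S := rect_measb _ _ _
  have hem : Measurable fun x => ‖ex (f0 a δ) x t‖ₑ ^ 2 := by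
    have h1 : Measurable fun x => ‖ex (f0 a δ) x t‖ₑ :=
      ((ex_meas hok.meas).comp (measurable_id.prodMk measurable_const)).enorm
    exact h1.pow_const 2
  -- the total
  have hA : ENNReal.ofReal (δ ^ 2 / 4) ≤
      ∫⁻ x, ENNReal.ofReal (gw α α 0 x) * ‖ex (f0 a δ) x t‖ₑ ^ 2 := by
    rw [ident hok.meas hok.int hα0 hα0]
    have h1 : ENNReal.ofReal (((4 * α)⁻¹) ^ 2 * δ ^ 2) ≤ ∫⁻ m, ‖co (f0 a δ) α α 0 t m‖ₑ ^ 2 := by
      calc ENNReal.ofReal (((4 * α)⁻¹) ^ 2 * δ ^ 2)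
          = ∫⁻ m in Rect a (δ / 2) (δ / 2), ENNReal.ofReal (((4 * α)⁻¹) ^ 2) := by
            rw [setLIntegral_const, rect_volb a _ (by positivity),
              ← ENNReal.ofReal_mul (by positivity)]
            congr 1
            ring
        _ ≤ ∫⁻ m in Rect a (δ / 2) (δ / 2), ‖co (f0 a δ) α α 0 t m‖ₑ ^ 2 := by
            refine setLIntegral_mono' (rect_measb _ _ _) fun m hm => ?_
            have h2 := co_low hδ ha ht htδ hm
            rw [← hα] at h2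
            rw [ENNReal.ofReal_pow (by positivity), ← ofReal_norm]
            exact pow_le_pow_left₀ zero_le (ENNReal.ofReal_le_ofReal h2) 2
        _ ≤ _ := setLIntegral_le_lintegral _ _
    calc ENNReal.ofReal (δ ^ 2 / 4) = ENNReal.ofReal (4 * α * α) *
          ENNReal.ofReal (((4 * α)⁻¹) ^ 2 * δ ^ 2) := by
          rw [← ENNReal.ofReal_mul (by positivity)]
          congr 1
          field_simp
      _ ≤ _ := mul_le_mul_right h1 _
  -- the tail
  have hT : ∫⁻ x in Sᶜ, ENNReal.ofReal (gw α α 0 x) * ‖ex (f0 a δ) x t‖ₑ ^ 2 ≤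
      ENNReal.ofReal (δ ^ 2 / 8) := by
    have h1 : ∀ x ∈ Sᶜ, gw α α 0 x ≤ Real.exp (-16) * gw (2 * α) (2 * α) 0 x := by
      intro x hx
      have h2 : gw α α 0 x = gw (2 * α) (2 * α) 0 x * gw (2 * α) (2 * α) 0 x := by
        have h0 : ∀ u : ℝ, Real.exp (-(u ^ 2 / (2 * α))) =
            Real.exp (-(u ^ 2 / (2 * (2 * α)))) * Real.exp (-(u ^ 2 / (2 * (2 * α)))) := by
          intro u
          rw [← Real.exp_add]
          congr 1
          ring
        unfold gw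
        rw [h0, h0]
        ring
      rw [h2]
      refine mul_le_mul_of_nonneg_right ?_ (gw_nonneg _ _ _ _)
      have h3 : (64 * t) ^ 2 ≤ x.1 ^ 2 ∨ (64 * t) ^ 2 ≤ x.2 ^ 2 := by
        by_contra hcon
        push Not at hcon
        apply hx
        have c1 := abs_lt_of_sq_lt_sq hcon.1 (by positivity)
        have c2 := abs_lt_of_sq_lt_sq hcon.2 (by positivity)
        rw [abs_lt] at c1 c2
        refine ⟨⟨?_, ?_⟩, ⟨?_, ?_⟩⟩
        · simpa using c1.1
        · simpa using c1.2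
        · simpa using c2.1
        · simpa using c2.2
      unfold gw
      rw [← Real.exp_add]
      apply Real.exp_le_exp.2
      simp only [Prod.fst_zero, Prod.snd_zero, sub_zero]
      have h4 : (16 : ℝ) ≤ (x.1 ^ 2 + x.2 ^ 2) / (2 * (2 * α)) := by
        rw [le_div_iff₀ (by positivity), hα]
        rcases h3 with h | h
        · nlinarith [sq_nonneg x.2]
        · nlinarith [sq_nonneg x.1]
      have h5 : (x.1 ^ 2 + x.2 ^ 2) / (2 * (2 * α)) = x.1 ^ 2 / (2 * (2 * α)) +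
          x.2 ^ 2 / (2 * (2 * α)) := by ring
      linarith
    calc ∫⁻ x in Sᶜ, ENNReal.ofReal (gw α α 0 x) * ‖ex (f0 a δ) x t‖ₑ ^ 2
        ≤ ∫⁻ x in Sᶜ, ENNReal.ofReal (Real.exp (-16)) *
            (ENNReal.ofReal (gw (2 * α) (2 * α) 0 x) * ‖ex (f0 a δ) x t‖ₑ ^ 2) := by
          refine setLIntegral_mono' hSm.compl fun x hx => ?_
          rw [← mul_assoc, ← ENNReal.ofReal_mul (Real.exp_pos _).le]
          exact mul_le_mul_left (ENNReal.ofReal_le_ofReal (h1 x hx)) _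
      _ ≤ ∫⁻ x, ENNReal.ofReal (Real.exp (-16)) *
            (ENNReal.ofReal (gw (2 * α) (2 * α) 0 x) * ‖ex (f0 a δ) x t‖ₑ ^ 2) :=
          setLIntegral_le_lintegral _ _
      _ ≤ ENNReal.ofReal (Real.exp (-16)) * (ENNReal.ofReal (4 * Real.pi ^ 2) *
            ∫⁻ ξ, ‖f0 a δ ξ‖ₑ ^ 2) := by
          rw [lintegral_const_mul' _ _ ENNReal.ofReal_ne_top]
          exact mul_le_mul_right (energy hok (by positivity) t) _
      _ = ENNReal.ofReal (Real.exp (-16)) * (ENNReal.ofReal (4 * Real.pi ^ 2) *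
            ENNReal.ofReal (4 * δ * δ)) := by
          congr 2
          rw [← rect_volb a δ hδ, ← setLIntegral_one, ← lintegral_indicator (rect_measb _ _ _)]
          refine lintegral_congr fun ξ => ?_
          unfold f0
          by_cases hξ : ξ ∈ Rect a δ δ
          · rw [indicator_of_mem hξ, indicator_of_mem hξ]; simp
          · rw [indicator_of_notMem hξ, indicator_of_notMem hξ]; simp
      _ ≤ _ := by
          rw [← ENNReal.ofReal_mul (by positivity), ← ENNReal.ofReal_mul (Real.exp_pos _).le]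
          apply ENNReal.ofReal_le_ofReal
          have h6 : Real.exp (-16) ≤ 1 / 65536 := by
            have h7 : (65536 : ℝ) ≤ Real.exp 16 := by
              have h8 : Real.exp 16 = Real.exp 1 ^ 16 := by
                rw [← Real.exp_nat_mul]; norm_num
              have h9 : (2 : ℝ) ≤ Real.exp 1 := by
                have := Real.add_one_le_exp (1 : ℝ)
                linarith
              rw [h8]
              calc (65536 : ℝ) = 2 ^ 16 := by norm_num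
                _ ≤ _ := pow_le_pow_left₀ (by norm_num) h9 16
            rw [Real.exp_neg, ← one_div]
            exact one_div_le_one_div_of_le (by norm_num) h7
          have h10 : Real.pi ^ 2 ≤ 16 := by
            have := Real.pi_le_four
            nlinarith [Real.pi_pos]
          have h11 : 0 ≤ 4 * Real.pi ^ 2 * (4 * δ * δ) := by positivity
          calc Real.exp (-16) * (4 * Real.pi ^ 2 * (4 * δ * δ))
              ≤ 1 / 65536 * (4 * Real.pi ^ 2 * (4 * δ * δ)) := mul_le_mul_of_nonneg_right h6 h11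
            _ ≤ 1 / 65536 * (4 * 16 * (4 * δ * δ)) := by gcongr
            _ ≤ δ ^ 2 / 8 := by nlinarith [sq_nonneg δ]
  have hsplit := lintegral_add_compl (fun x => ENNReal.ofReal (gw α α 0 x) *
    ‖ex (f0 a δ) x t‖ₑ ^ 2) hSm (μ := volume)
  have h20 : ∫⁻ x in S, ENNReal.ofReal (gw α α 0 x) * ‖ex (f0 a δ) x t‖ₑ ^ 2 ≤
      ∫⁻ x in S, ‖ex (f0 a δ) x t‖ₑ ^ 2 := by
    refine lintegral_mono fun x => ?_
    calc ENNReal.ofReal (gw α α 0 x) * ‖ex (f0 a δ) x t‖ₑ ^ 2 ≤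
        1 * ‖ex (f0 a δ) x t‖ₑ ^ 2 := by
          refine mul_le_mul_left ?_ _
          rw [← ENNReal.ofReal_one]
          exact ENNReal.ofReal_le_ofReal (gw_le hα0 hα0 _ _)
      _ = _ := one_mul _
  have h21 : ENNReal.ofReal (δ ^ 2 / 8) + ENNReal.ofReal (δ ^ 2 / 8) ≤
      (∫⁻ x in S, ‖ex (f0 a δ) x t‖ₑ ^ 2) + ENNReal.ofReal (δ ^ 2 / 8) := by
    calc ENNReal.ofReal (δ ^ 2 / 8) + ENNReal.ofReal (δ ^ 2 / 8) = ENNReal.ofReal (δ ^ 2 / 4) := by
          rw [← ENNReal.ofReal_add (by positivity) (by positivity)]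
          congr 1
          ring
      _ ≤ _ := hA
      _ = _ := hsplit.symm
      _ ≤ _ := add_le_add h20 hT
  exact (ENNReal.add_le_add_iff_right ENNReal.ofReal_ne_top).1 h21

end Pool.Agent.K4H46.MO
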