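import Mathlib
import Pool.Agent.K4H46.MO.Sh

set_option autoImplicit false

/-! The range is sharp, continued. -/

namespace Pool.Agent.K4H46.MO

open MeasureTheory Set Complex
open scoped ENNReal NNReal ComplexConjugate RealInnerProductSpace

theorem sharp_int {a : ℝ × ℝ} {δ : ℝ} (hδ : 0 < δ)
    (ha : ∀ ξ ∈ Rect a δ δ, |ξ.1| ≤ 1 / 2 ∧ |ξ.2| ≤ 1 / 2) {q : ℝ} (hq0 : 0 < q) (hq : q ≤ 3)
    {M : ℝ → ℝ≥0∞} (hM : ∀ t, 0 < t → ENNReal.ofReal (4 * (64 * t) * (64 * t)) ^ (1 / q - 1 / 2) *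
      (∫⁻ x in Rect 0 (64 * t) (64 * t), ‖ex (f0 a δ) x t‖ₑ ^ 2) ^ (1 / 2 : ℝ) ≤ M t) :
    ∫⁻ t, M t ^ q = ∞ := by
  set T : ℝ := max 1 (1 / (4 * δ)) with hT
  set c : ℝ := (16384 : ℝ) ^ (1 - q / 2) * (δ ^ 2 / 8) ^ (q / 2) with hc
  have hc0 : 0 < c := by positivity
  have h1 : ∀ t ∈ Ioi T, ENNReal.ofReal (c * t⁻¹) ≤ M t ^ q := by
    intro t ht
    have ht1 : 1 < t := lt_of_le_of_lt (le_max_left _ _) ht
    have ht2 : 1 / (4 * δ) < t := lt_of_le_of_lt (le_max_right _ _) ht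
    have ht0 : 0 < t := by linarith
    have htδ : 1 ≤ 4 * t * δ := by
      rw [div_lt_iff₀ (by positivity)] at ht2
      linarith
    have h2 := mass_low hδ ha ht0 htδ
    have h3 : ENNReal.ofReal (4 * (64 * t) * (64 * t)) ^ (1 / q - 1 / 2) *
        ENNReal.ofReal (δ ^ 2 / 8) ^ (1 / 2 : ℝ) ≤ M t :=
      le_trans (mul_le_mul_right (ENNReal.rpow_le_rpow h2 (by norm_num)) _) (hM t ht0)
    refine le_trans ?_ (ENNReal.rpow_le_rpow h3 hq0.le)
    rw [ENNReal.mul_rpow_of_nonneg _ _ hq0.le, ← ENNReal.rpow_mul, ← ENNReal.rpow_mul]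
    have e1 : (1 / q - 1 / 2) * q = 1 - q / 2 := by field_simp
    have e2 : (1 / 2 : ℝ) * q = q / 2 := by ring
    rw [e1, e2, ENNReal.ofReal_rpow_of_pos (by positivity),
      ENNReal.ofReal_rpow_of_pos (by positivity), ← ENNReal.ofReal_mul (by positivity)]
    apply ENNReal.ofReal_le_ofReal
    have e3 : 4 * (64 * t) * (64 * t) = 16384 * t ^ (2 : ℝ) := by
      rw [Real.rpow_two]; ring
    rw [e3, Real.mul_rpow (by norm_num) (by positivity), ← Real.rpow_mul ht0.le, hc]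
    have e4 : t⁻¹ ≤ t ^ (2 * (1 - q / 2)) := by
      rw [← Real.rpow_neg_one]
      exact Real.rpow_le_rpow_of_exponent_le ht1.le (by linarith)
    have e5 : (0 : ℝ) ≤ (16384 : ℝ) ^ (1 - q / 2) * (δ ^ 2 / 8) ^ (q / 2) := by positivity
    calc (16384 : ℝ) ^ (1 - q / 2) * (δ ^ 2 / 8) ^ (q / 2) * t⁻¹
        ≤ (16384 : ℝ) ^ (1 - q / 2) * (δ ^ 2 / 8) ^ (q / 2) * t ^ (2 * (1 - q / 2)) :=
          mul_le_mul_of_nonneg_left e4 e5
      _ = _ := by ring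
  have h4 : ∫⁻ t in Ioi T, ENNReal.ofReal (c * t⁻¹) = ∞ := by
    by_contra h
    apply not_integrableOn_Ioi_inv (a := T)
    have h5 : IntegrableOn (fun t => c * t⁻¹) (Ioi T) := by
      refine ⟨?_, ?_⟩
      · exact (measurable_inv.const_mul c).aestronglyMeasurable
      · show ∫⁻ t in Ioi T, ‖c * t⁻¹‖ₑ < ∞
        refine lt_of_le_of_lt (le_of_eq ?_) (lt_top_iff_ne_top.2 h)
        refine setLIntegral_congr_fun measurableSet_Ioi fun t ht => ?_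
        have ht1 : 1 < t := lt_of_le_of_lt (le_max_left _ _) ht
        exact Real.enorm_of_nonneg (by positivity)
    have h6 : IntegrableOn (fun t => c⁻¹ * (c * t⁻¹)) (Ioi T) := h5.const_mul _
    refine h6.congr_fun (fun t _ => ?_) measurableSet_Ioi
    field_simp
  rw [eq_top_iff, ← h4]
  exact (setLIntegral_mono' measurableSet_Ioi h1).trans (setLIntegral_le_lintegral _ _)

theorem ext_f0 {U : Set (E 2)} {a : ℝ × ℝ} {δ : ℝ}
    (hR : ∀ x : E 2, (x 0, x 1) ∈ Rect a δ δ → x ∈ U) (ξ : E 3) :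
    (∫ x in U, cexp (-((⟪(!₂[x 0, x 1, x 0 ^ 2 + x 1 ^ 2] : E 3), ξ⟫ : ℝ) : ℂ) * I) *
        f0 a δ (x 0, x 1)) = ex (f0 a δ) (ξ 0, ξ 1) (ξ 2) := by
  rw [setIntegral_eq_integral_of_forall_compl_eq_zero, TE_int]
  · unfold ex
    refine integral_congr_ae (Filter.Eventually.of_forall fun a => ?_)
    have h5 : (⟪(!₂[(TE a) 0, (TE a) 1, (TE a) 0 ^ 2 + (TE a) 1 ^ 2] : E 3), ξ⟫ : ℝ) =
        ξ 0 * a.1 + ξ 1 * a.2 + ξ 2 * (a.1 ^ 2 + a.2 ^ 2) := by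
      rw [inner3]
      simp [TE_apply]
      ring
    simp only [h5]
    rfl
  · intro x hx
    have : (x 0, x 1) ∉ Rect a δ δ := fun h => hx (hR x h)
    unfold f0
    rw [indicator_of_notMem this, mul_zero]

end Pool.Agent.K4H46.MO
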