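import Mathlib
import Pool.Agent.K4H46.MO.Sh2

set_option autoImplicit false

namespace Pool.Agent.K4H46.MO

open MeasureTheory Set Complex Filter
open scoped ENNReal NNReal ComplexConjugate RealInnerProductSpace

theorem sharp_rect {a : ℝ × ℝ} {δ : ℝ} (hδ : 0 < δ)
    (ha : ∀ ξ ∈ Rect a δ δ, |ξ.1| ≤ 1 / 2 ∧ |ξ.2| ≤ 1 / 2) {κ : ℝ} (hκ : κ < 1 / 3) (C : ℝ≥0) :
    ∃ r : ℝ, 1 ≤ r ∧ ∃ w : ℝ → ℝ≥0∞, Measurable w ∧
      C * ENNReal.ofReal ((r * r) ^ κ) * (∫⁻ t, w t ^ 3) ^ (1 / 3 : ℝ) <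
        ∫⁻ t, w t * ∫⁻ x in Rect 0 r r, ‖ex (f0 a δ) x t‖ₑ ^ 2 := by
  set T0 : ℝ := 1 / (4 * δ) with hT0
  have hT00 : 0 < T0 := by positivity
  have hp : 0 < 2 / 3 - 2 * κ := by linarith
  set K : ℝ := C * (64 : ℝ) ^ (2 * κ) * (16 / δ ^ 2) with hK
  obtain ⟨T, hT1, hT2, hTK⟩ : ∃ T : ℝ, 1 ≤ T ∧ 2 * T0 ≤ T ∧ K < T ^ (2 / 3 - 2 * κ) := by
    have h1 := (tendsto_rpow_atTop hp).eventually_gt_atTop K
    obtain ⟨T, h⟩ := ((eventually_ge_atTop (1 : ℝ)).and ((eventually_ge_atTop (2 * T0)).and h1)).exists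
    exact ⟨T, h.1, h.2.1, h.2.2⟩
  have hT : 0 < T := by linarith
  refine ⟨64 * T, by linarith, (Ioo T0 T).indicator fun _ => 1,
    measurable_const.indicator measurableSet_Ioo, ?_⟩
  have e1 : ∫⁻ t, ((Ioo T0 T).indicator (fun _ => (1 : ℝ≥0∞)) t) ^ 3 = ENNReal.ofReal (T - T0) := by
    rw [← Real.volume_Ioo, ← setLIntegral_one, ← lintegral_indicator measurableSet_Ioo]
    refine lintegral_congr fun t => ?_
    by_cases h : t ∈ Ioo T0 T
    · rw [indicator_of_mem h]; simp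
    · rw [indicator_of_notMem h]; simp
  have e2 : ENNReal.ofReal (T * (δ ^ 2 / 16)) ≤
      ∫⁻ t, (Ioo T0 T).indicator (fun _ => (1 : ℝ≥0∞)) t *
        ∫⁻ x in Rect 0 (64 * T) (64 * T), ‖ex (f0 a δ) x t‖ₑ ^ 2 := by
    calc ENNReal.ofReal (T * (δ ^ 2 / 16)) ≤ ENNReal.ofReal ((δ ^ 2 / 8) * (T - T0)) := by
          apply ENNReal.ofReal_le_ofReal
          nlinarith [sq_nonneg δ]
      _ = ∫⁻ t in Ioo T0 T, ENNReal.ofReal (δ ^ 2 / 8) := by
          rw [setLIntegral_const, Real.volume_Ioo, ← ENNReal.ofReal_mul (by positivity)]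
      _ ≤ ∫⁻ t in Ioo T0 T, ∫⁻ x in Rect 0 (64 * T) (64 * T), ‖ex (f0 a δ) x t‖ₑ ^ 2 := by
          refine setLIntegral_mono' measurableSet_Ioo fun t ht => ?_
          have ht0 : 0 < t := hT00.trans ht.1
          have htδ : 1 ≤ 4 * t * δ := by
            have := ht.1
            rw [hT0, div_lt_iff₀ (by positivity)] at this
            linarith
          refine (mass_low hδ ha ht0 htδ).trans (lintegral_mono_set ?_)
          rintro x ⟨⟨h1, h2⟩, ⟨h3, h4⟩⟩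
          have h5 := ht.2
          refine ⟨⟨?_, ?_⟩, ⟨?_, ?_⟩⟩ <;> linarith
      _ = _ := by
          rw [← lintegral_indicator measurableSet_Ioo]
          refine lintegral_congr fun t => ?_
          by_cases h : t ∈ Ioo T0 T
          · rw [indicator_of_mem h, indicator_of_mem h, one_mul]
          · rw [indicator_of_notMem h, indicator_of_notMem h, zero_mul]
  refine lt_of_lt_of_le ?_ e2
  rw [e1, ENNReal.ofReal_rpow_of_nonneg (by linarith) (by norm_num)]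
  have e3 : (C : ℝ≥0∞) = ENNReal.ofReal (C : ℝ) := (ENNReal.ofReal_coe_nnreal).symm
  rw [e3, ← ENNReal.ofReal_mul (by positivity), ← ENNReal.ofReal_mul (by positivity),
    ENNReal.ofReal_lt_ofReal_iff (by positivity)]
  have e4 : (64 * T * (64 * T)) ^ κ = (64 : ℝ) ^ (2 * κ) * T ^ (2 * κ) := by
    rw [← Real.mul_rpow (by norm_num) hT.le, Real.rpow_mul (by positivity), Real.rpow_two]
    congr 1
    ring
  have e5 : (T - T0) ^ (1 / 3 : ℝ) ≤ T ^ (1 / 3 : ℝ) :=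
    Real.rpow_le_rpow (by linarith) (by linarith) (by norm_num)
  rw [e4]
  have e6 : T ^ (2 / 3 - 2 * κ) * (T ^ (2 * κ) * T ^ (1 / 3 : ℝ)) = T := by
    rw [← Real.rpow_add hT, ← Real.rpow_add hT]
    have : 2 / 3 - 2 * κ + (2 * κ + 1 / 3) = 1 := by ring
    rw [this, Real.rpow_one]
  have e7 : 0 < T ^ (2 * κ) * T ^ (1 / 3 : ℝ) := by positivity
  have e8 : K * (T ^ (2 * κ) * T ^ (1 / 3 : ℝ)) < T := by
    have := mul_lt_mul_of_pos_right hTK e7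
    rwa [e6] at this
  have e9 : K * (δ ^ 2 / 16) = C * (64 : ℝ) ^ (2 * κ) := by
    rw [hK]; field_simp
  calc (C : ℝ) * ((64 : ℝ) ^ (2 * κ) * T ^ (2 * κ)) * (T - T0) ^ (1 / 3 : ℝ)
      ≤ (C : ℝ) * ((64 : ℝ) ^ (2 * κ) * T ^ (2 * κ)) * T ^ (1 / 3 : ℝ) :=
        mul_le_mul_of_nonneg_left e5 (by positivity)
    _ = (K * (δ ^ 2 / 16)) * (T ^ (2 * κ) * T ^ (1 / 3 : ℝ)) := by rw [e9]; ring
    _ = (K * (T ^ (2 * κ) * T ^ (1 / 3 : ℝ))) * (δ ^ 2 / 16) := by ring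
    _ < T * (δ ^ 2 / 16) := mul_lt_mul_of_pos_right e8 (by positivity)

end Pool.Agent.K4H46.MO
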